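import Pool.Agent.Lib.P2ec0f3n.Edge

/-!
# Bias directions near a diagonal: unbalanced vertices produce entropy
-/

open MeasureTheory ProbabilityTheory Filter Topology Function
open scoped unitInterval

namespace Pool.Agent.P2ec0f3

variable {d : ℕ} (ℓ : Fin d → ℝ) (lam : ℝ) (ω : Set (Edge d))

/-- The flow through the vertices, tested against the sign of `beta`, for every bias. -/
lemma balance_gen (N : ℕ) :
    ∑' x, (∑ j, cv ℓ lam j * (openInd ω (x - basisVec j) j - openInd ω x j)) *
        (psi ℓ lam ω N x * gf ℓ ω x) =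
      ∫ x, gf ℓ ω x ∂(lawAt ℓ lam ω N) - gf ℓ ω 0 -
      ∑ j, ∑' x, openInd ω x j * (psi ℓ lam ω N x - psi ℓ lam ω N (x + basisVec j)) *
        (av ℓ lam j * gf ℓ ω (x + basisVec j) - (av ℓ lam j)⁻¹ * gf ℓ ω x) := by
  classical
  set ψ := psi ℓ lam ω N with hψ
  set g := gf ℓ ω with hg
  have hf : HasFiniteSupport ψ := hasFiniteSupport_psi ℓ lam ω N
  have hf' : ∀ j, HasFiniteSupport (fun x => ψ (x + basisVec j)) := fun j =>
    hasFiniteSupport_shift hf _
  rw [integral_lawAt_eq ℓ lam ω N g, add_sub_cancel_left, ← Finset.sum_sub_distrib]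
  have hS : ∀ j (G : Vtx d → ℝ), (∀ x, ψ x = 0 → ψ (x + basisVec j) = 0 → G x = 0) →
      Summable G := by
    intro j G hG
    apply summable_of_hasFiniteSupport
    refine Set.Finite.subset (Set.Finite.union hf (hf' j)) fun x hx => ?_
    by_contra hcon
    rw [Set.mem_union, not_or] at hcon
    exact hx (hG x (by simpa using hcon.1) (by simpa using hcon.2))
  have h1 : ∀ j, (∑' x, openInd ω x j * (av ℓ lam j * ψ x - (av ℓ lam j)⁻¹ * ψ (x + basisVec j))
        * (g (x + basisVec j) - g x)) - ∑' x, openInd ω x j * (ψ x - ψ (x + basisVec j)) *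
        (av ℓ lam j * g (x + basisVec j) - (av ℓ lam j)⁻¹ * g x) =
      ∑' x, cv ℓ lam j * (openInd ω (x - basisVec j) j - openInd ω x j) * (ψ x * g x) := by
    intro j
    rw [← Summable.tsum_sub (hS j _ fun x h h' => by rw [h, h']; ring)
      (hS j _ fun x h h' => by rw [h, h']; ring)]
    have h2 : ∀ x, openInd ω x j * (av ℓ lam j * ψ x - (av ℓ lam j)⁻¹ * ψ (x + basisVec j))
        * (g (x + basisVec j) - g x) - openInd ω x j * (ψ x - ψ (x + basisVec j)) *
        (av ℓ lam j * g (x + basisVec j) - (av ℓ lam j)⁻¹ * g x) =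
        openInd ω x j * cv ℓ lam j * (ψ (x + basisVec j) * g (x + basisVec j))
          - openInd ω x j * cv ℓ lam j * (ψ x * g x) := by
      intro x
      unfold cv
      ring
    simp_rw [h2]
    rw [Summable.tsum_sub (hS j _ fun x h h' => by rw [h']; ring)
      (hS j _ fun x h h' => by rw [h]; ring)]
    have h3 := tsum_shift j (fun x => openInd ω (x - basisVec j) j * cv ℓ lam j * (ψ x * g x))
    simp only [add_sub_cancel_right] at h3
    rw [h3, ← Summable.tsum_sub (hS j _ fun x h h' => by rw [h]; ring)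
      (hS j _ fun x h h' => by rw [h]; ring)]
    refine tsum_congr fun x => ?_
    ring
  rw [Finset.sum_congr rfl fun j _ => h1 j, ← Summable.tsum_finsetSum fun j _ =>
    hS j _ fun x h h' => by rw [h]; ring]
  refine tsum_congr fun x => ?_
  rw [← Finset.sum_mul]

/-- The lower bound for the left hand side of `balance_gen`. -/
lemma balance_low {δ ε : ℝ} (hδ : 0 < δ) (hδ1 : δ ≤ 1) (hlam : 0 < lam) (hℓ1 : ∀ j, |ℓ j| ≤ 1)
    (hε0 : 0 ≤ ε) (hε : ∀ j, |ℓ j - δ * sg ℓ j| ≤ ε) (N : ℕ) :
    (Real.exp (lam * δ) - (Real.exp (lam * δ))⁻¹) * unbPsi ℓ lam ω N ≤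
      ∑' x, (∑ j, cv ℓ lam j * (openInd ω (x - basisVec j) j - openInd ω x j)) *
        (psi ℓ lam ω N x * gf ℓ ω x) +
      d * (2 * lam * Real.exp lam * ε) * (Real.exp lam * N) := by
  classical
  set c := Real.exp (lam * δ) - (Real.exp (lam * δ))⁻¹ with hc
  have hA1 : 1 < Real.exp (lam * δ) := Real.one_lt_exp_iff.2 (mul_pos hlam hδ)
  have hAinv : (Real.exp (lam * δ))⁻¹ < 1 := inv_lt_one_of_one_lt₀ hA1
  have hc0 : 0 < c := by rw [hc]; linarith
  set R := 2 * lam * Real.exp lam * ε with hR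
  have hR0 : 0 ≤ R := by positivity
  set ψ := psi ℓ lam ω N with hψ
  have hf : HasFiniteSupport ψ := hasFiniteSupport_psi ℓ lam ω N
  have hψ0 : ∀ x, 0 ≤ ψ x := fun x => psi_nonneg ..
  have hsum : ∀ G : Vtx d → ℝ, (∀ x, ψ x = 0 → G x = 0) → Summable G := fun G hG =>
    summable_of_hasFiniteSupport (hasFiniteSupport_of_mul hf hG)
  have hpt : ∀ x, c * (unb ℓ ω x * ψ x) ≤
      (∑ j, cv ℓ lam j * (openInd ω (x - basisVec j) j - openInd ω x j)) * (ψ x * gf ℓ ω x)
        + d * R * ψ x := by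
    intro x
    set g := gf ℓ ω x with hg
    have hg1 : |g| ≤ 1 := by rw [hg, abs_gf]; exact unb_le_one ..
    have h1 : (∑ j, cv ℓ lam j * (openInd ω (x - basisVec j) j - openInd ω x j)) * (ψ x * g) =
        c * |(beta ℓ ω x : ℝ)| * ψ x +
        (∑ j, (cv ℓ lam j - c * sg ℓ j) * (openInd ω (x - basisVec j) j - openInd ω x j)) *
          (ψ x * g) := by
      have h2 : ∑ j, cv ℓ lam j * (openInd ω (x - basisVec j) j - openInd ω x j) =
          -c * (beta ℓ ω x : ℝ) +
          ∑ j, (cv ℓ lam j - c * sg ℓ j) * (openInd ω (x - basisVec j) j - openInd ω x j) := by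
        unfold beta
        push_cast
        rw [Finset.mul_sum, ← Finset.sum_add_distrib]
        refine Finset.sum_congr rfl fun j _ => ?_
        rw [openZ_cast, openZ_cast]
        ring
      have h5 := gf_mul_beta ℓ ω x
      rw [← hg] at h5
      have h6 : -c * (beta ℓ ω x : ℝ) * (ψ x * g) = c * |(beta ℓ ω x : ℝ)| * ψ x := by
        calc -c * (beta ℓ ω x : ℝ) * (ψ x * g) = -c * ψ x * (g * (beta ℓ ω x : ℝ)) := by ring
          _ = _ := by rw [h5]; ring
      rw [h2, add_mul, h6]
    have h3 : |(∑ j, (cv ℓ lam j - c * sg ℓ j) *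
        (openInd ω (x - basisVec j) j - openInd ω x j))| ≤ d * R := by
      refine (Finset.abs_sum_le_sum_abs _ _).trans ?_
      have h4 : ∀ j ∈ (Finset.univ : Finset (Fin d)), |(cv ℓ lam j - c * sg ℓ j) *
          (openInd ω (x - basisVec j) j - openInd ω x j)| ≤ R := by
        intro j _
        rw [abs_mul]
        have a1 := cv_near ℓ lam hδ hδ1 hlam hℓ1 hε j
        rw [← hc, ← hR] at a1
        have a2 : |openInd ω (x - basisVec j) j - openInd ω x j| ≤ 1 := by
          rw [abs_le]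
          have b1 := openInd_nonneg ω x j
          have b2 := openInd_le_one ω x j
          have b3 := openInd_nonneg ω (x - basisVec j) j
          have b4 := openInd_le_one ω (x - basisVec j) j
          constructor <;> linarith
        calc _ ≤ R * 1 := mul_le_mul a1 a2 (abs_nonneg _) hR0
          _ = R := mul_one R
      refine (Finset.sum_le_sum h4).trans (le_of_eq ?_)
      rw [Finset.sum_const, Finset.card_univ, Fintype.card_fin, nsmul_eq_mul]
    have h4 : -(d * R * ψ x) ≤ (∑ j, (cv ℓ lam j - c * sg ℓ j) *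
        (openInd ω (x - basisVec j) j - openInd ω x j)) * (ψ x * g) := by
      have h5 : |(∑ j, (cv ℓ lam j - c * sg ℓ j) *
        (openInd ω (x - basisVec j) j - openInd ω x j)) * (ψ x * g)| ≤ d * R * (ψ x * 1) := by
        rw [abs_mul, abs_mul, abs_of_nonneg (hψ0 x)]
        exact mul_le_mul h3 (mul_le_mul_of_nonneg_left hg1 (hψ0 x))
          (mul_nonneg (hψ0 x) (abs_nonneg _)) (by positivity)
      rw [mul_one] at h5
      exact (abs_le.1 h5).1
    have h5 : c * (unb ℓ ω x * ψ x) ≤ c * |(beta ℓ ω x : ℝ)| * ψ x := by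
      have := mul_le_mul_of_nonneg_right (unb_le_abs ℓ ω x) (hψ0 x)
      have := mul_le_mul_of_nonneg_left this hc0.le
      linarith
    rw [h1]
    linarith
  have h1 : c * unbPsi ℓ lam ω N ≤
      ∑' x, ((∑ j, cv ℓ lam j * (openInd ω (x - basisVec j) j - openInd ω x j)) *
        (ψ x * gf ℓ ω x) + d * R * ψ x) := by
    unfold unbPsi
    rw [← tsum_mul_left]
    refine Summable.tsum_le_tsum hpt ?_ ?_
    · exact hsum _ fun x hx => by rw [← hψ, hx]; ring
    · exact hsum _ fun x hx => by rw [hx]; ring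
  rw [Summable.tsum_add (hsum _ fun x hx => by rw [hx]; ring)
    (hsum _ fun x hx => by rw [hx]; ring), tsum_mul_left] at h1
  have h2 := tsum_psi_le ℓ lam ω hlam hℓ1 N
  have h3 := mul_le_mul_of_nonneg_left h2 (show (0 : ℝ) ≤ d * R by positivity)
  linarith

/-- The upper bound for the left hand side of `balance_gen`. -/
lemma balance_up (hlam : 0 < lam) (hℓ1 : ∀ j, |ℓ j| ≤ 1) (N : ℕ)
    {e η : ℝ} (he : 0 < e) (hη : 0 < η) (hη' : η ≤ 1 / 2) :
    ∑' x, (∑ j, cv ℓ lam j * (openInd ω (x - basisVec j) j - openInd ω x j)) *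
        (psi ℓ lam ω N x * gf ℓ ω x) ≤
      2 + Real.exp lam * (4 * η * d * unbPsi ℓ lam ω N
        + 4 * η * e * d * (box d (N + 1)).card
        + (η * (Real.exp lam)⁻¹)⁻¹ * totalProd ℓ lam ω N e) := by
  classical
  set A := Real.exp lam with hA
  have hA0 : 0 < A := Real.exp_pos _
  set ψ := psi ℓ lam ω N with hψ
  set g := gf ℓ ω with hg
  set t := A⁻¹ with ht
  have ht0 : 0 < t := inv_pos.2 hA0
  have hf : HasFiniteSupport ψ := hasFiniteSupport_psi ℓ lam ω N
  have hf' : ∀ j, HasFiniteSupport (fun x => ψ (x + basisVec j)) := fun j =>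
    hasFiniteSupport_shift hf _
  have hψ0 : ∀ x, 0 ≤ ψ x := fun x => psi_nonneg ..
  have hout : ∀ (j : Fin d) (x : Vtx d), x ∉ box d (N + 1) →
      ψ x = 0 ∧ ψ (x + basisVec j) = 0 := fun j x hx =>
    ⟨psi_eq_zero ℓ lam ω fun h => hx (box_mono (Nat.le_succ N) h),
      psi_eq_zero ℓ lam ω (add_basisVec_notMem_box hx j)⟩
  have hunbsum : Summable fun x => unb ℓ ω x * ψ x :=
    summable_of_hasFiniteSupport (hasFiniteSupport_of_mul hf fun x hx => by simp [hx])
  have hunbsum' : ∀ j, Summable fun x => unb ℓ ω (x + basisVec j) * ψ (x + basisVec j) := fun j =>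
    summable_of_hasFiniteSupport (hasFiniteSupport_of_mul (hf' j) fun x hx => by simp [hx])
  rw [balance_gen ℓ lam ω N]
  -- step 2: the boundary terms
  have hgle : ∀ x, |g x| ≤ 1 := fun x => by
    rw [hg, abs_gf]; exact unb_le_one ..
  have h2 : ∫ x, g x ∂(lawAt ℓ lam ω N) - g 0 ≤ 2 := by
    have h3 : ∫ x, g x ∂(lawAt ℓ lam ω N) ≤ 1 := by
      have h4 : ∫ _, (1 : ℝ) ∂(lawAt ℓ lam ω N) = 1 := by simp
      rw [← h4]
      exact integral_mono (integrable_lawAt ..) (integrable_const _)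
        fun x => le_trans (le_abs_self _) (hgle x)
    have h5 : -1 ≤ g 0 := by linarith [neg_abs_le (g 0), hgle 0]
    linarith
  -- step 3: each direction
  have h3 : ∀ j, - ∑' x, openInd ω x j * (ψ x - ψ (x + basisVec j)) *
        (av ℓ lam j * g (x + basisVec j) - (av ℓ lam j)⁻¹ * g x) ≤
      A * (4 * η * unbPsi ℓ lam ω N + 4 * η * e * (box d (N + 1)).card
        + (η * t)⁻¹ * ∑ x ∈ box d (N + 1), openInd ω x j *
          prodn (av ℓ lam j) (ψ x + e) (ψ (x + basisVec j) + e)) := by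
    intro j
    obtain ⟨b1, b2, b3, b4⟩ := av_bounds_one ℓ lam hlam hℓ1 j
    rw [← hA] at b1 b2 b3 b4
    rw [tsum_eq_sum (s := box d (N + 1)) fun x hx => by simp [hout j x hx],
      ← Finset.sum_neg_distrib]
    have h4 : ∀ x ∈ box d (N + 1), -(openInd ω x j * (ψ x - ψ (x + basisVec j)) *
        (av ℓ lam j * g (x + basisVec j) - (av ℓ lam j)⁻¹ * g x)) ≤
        A * (2 * η * (unb ℓ ω (x + basisVec j) * ψ (x + basisVec j))
          + 2 * η * (unb ℓ ω x * ψ x) + 4 * η * e
          + (η * t)⁻¹ * (openInd ω x j *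
            prodn (av ℓ lam j) (ψ x + e) (ψ (x + basisVec j) + e))) := by
      intro x _
      set D := prodn (av ℓ lam j) (ψ x + e) (ψ (x + basisVec j) + e) with hD
      have hu : 0 < ψ x + e := by linarith [hψ0 x]
      have hv : 0 < ψ (x + basisVec j) + e := by linarith [hψ0 (x + basisVec j)]
      have hD0 : 0 ≤ D := prodn_nonneg (av_pos ℓ lam j) hu hv
      have hU0 := unb_nonneg ℓ ω x
      have hU1 := unb_le_one ℓ ω x
      have hV0 := unb_nonneg ℓ ω (x + basisVec j)
      have hV1 := unb_le_one ℓ ω (x + basisVec j)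
      have hηt : 0 < (η * t)⁻¹ := by positivity
      rcases openInd_eq ω x j with h | h
      · rw [h]
        have e1 : 0 ≤ unb ℓ ω (x + basisVec j) * ψ (x + basisVec j) :=
          mul_nonneg hV0 (hψ0 _)
        have e2 : 0 ≤ unb ℓ ω x * ψ x := mul_nonneg hU0 (hψ0 _)
        have : 0 ≤ A * (2 * η * (unb ℓ ω (x + basisVec j) * ψ (x + basisVec j))
          + 2 * η * (unb ℓ ω x * ψ x) + 4 * η * e
          + (η * t)⁻¹ * (0 * D)) := by positivity
        simpa using this
      · rw [h, one_mul, one_mul]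
        obtain ⟨k1, k2⟩ := abs_sub_le (η := η) (t := t) b3 b4 ht0 hu hv hη hη'
        rw [← hD] at k1 k2
        have e0 : (ψ x + e) - (ψ (x + basisVec j) + e) = ψ x - ψ (x + basisVec j) := by ring
        rw [e0] at k1 k2
        set Δ := ψ x - ψ (x + basisVec j) with hΔ
        have hK : 0 ≤ (2 * η * t)⁻¹ * D := by positivity
        have m1 : |Δ| * |g x| ≤ 2 * η * (unb ℓ ω x * ψ x) + 2 * η * e + (2 * η * t)⁻¹ * D := by
          rw [hg, abs_gf]
          calc |Δ| * unb ℓ ω x ≤ (2 * η * (ψ x + e) + (2 * η * t)⁻¹ * D) * unb ℓ ω x :=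
                mul_le_mul_of_nonneg_right k1 hU0
            _ = 2 * η * (unb ℓ ω x * ψ x) + (2 * η * e + (2 * η * t)⁻¹ * D) * unb ℓ ω x := by
                ring
            _ ≤ 2 * η * (unb ℓ ω x * ψ x) + (2 * η * e + (2 * η * t)⁻¹ * D) * 1 := by
                have : 0 ≤ 2 * η * e + (2 * η * t)⁻¹ * D := by positivity
                have := mul_le_mul_of_nonneg_left hU1 this
                linarith
            _ = _ := by ring
        have m2 : |Δ| * |g (x + basisVec j)| ≤
            2 * η * (unb ℓ ω (x + basisVec j) * ψ (x + basisVec j)) + 2 * η * e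
              + (2 * η * t)⁻¹ * D := by
          rw [hg, abs_gf]
          calc |Δ| * unb ℓ ω (x + basisVec j)
              ≤ (2 * η * (ψ (x + basisVec j) + e) + (2 * η * t)⁻¹ * D)
                * unb ℓ ω (x + basisVec j) := mul_le_mul_of_nonneg_right k2 hV0
            _ = 2 * η * (unb ℓ ω (x + basisVec j) * ψ (x + basisVec j))
                + (2 * η * e + (2 * η * t)⁻¹ * D) * unb ℓ ω (x + basisVec j) := by
                ring
            _ ≤ 2 * η * (unb ℓ ω (x + basisVec j) * ψ (x + basisVec j))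
                + (2 * η * e + (2 * η * t)⁻¹ * D) * 1 := by
                have : 0 ≤ 2 * η * e + (2 * η * t)⁻¹ * D := by positivity
                have := mul_le_mul_of_nonneg_left hV1 this
                linarith
            _ = _ := by ring
        have m3 : -(Δ * (av ℓ lam j * g (x + basisVec j) - (av ℓ lam j)⁻¹ * g x)) ≤
            A * (|Δ| * |g (x + basisVec j)| + |Δ| * |g x|) := by
          have n1 : -(Δ * (av ℓ lam j * g (x + basisVec j) - (av ℓ lam j)⁻¹ * g x)) =
              av ℓ lam j * (-(Δ * g (x + basisVec j))) + (av ℓ lam j)⁻¹ * (Δ * g x) := by ring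
          have n2 : -(Δ * g (x + basisVec j)) ≤ |Δ| * |g (x + basisVec j)| := by
            rw [← abs_mul]; exact neg_le_abs _
          have n3 : Δ * g x ≤ |Δ| * |g x| := by
            rw [← abs_mul]; exact le_abs_self _
          have q1 : 0 ≤ |Δ| * |g (x + basisVec j)| := by positivity
          have q2 : 0 ≤ |Δ| * |g x| := by positivity
          have n4 : av ℓ lam j * (-(Δ * g (x + basisVec j))) ≤
              A * (|Δ| * |g (x + basisVec j)|) :=
            (mul_le_mul_of_nonneg_left n2 (av_pos ℓ lam j).le).trans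
              (mul_le_mul_of_nonneg_right b1 q1)
          have n5 : (av ℓ lam j)⁻¹ * (Δ * g x) ≤ A * (|Δ| * |g x|) :=
            (mul_le_mul_of_nonneg_left n3 (inv_pos.2 (av_pos ℓ lam j)).le).trans
              (mul_le_mul_of_nonneg_right b2 q2)
          rw [n1]
          linarith
        refine m3.trans (mul_le_mul_of_nonneg_left ?_ hA0.le)
        have hinv : (2 * η * t)⁻¹ * D + (2 * η * t)⁻¹ * D = (η * t)⁻¹ * (1 * D) := by
          field_simp
          ring
        linarith
    refine (Finset.sum_le_sum h4).trans ?_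
    rw [← Finset.mul_sum]
    refine mul_le_mul_of_nonneg_left ?_ hA0.le
    rw [Finset.sum_add_distrib, Finset.sum_add_distrib, Finset.sum_add_distrib, Finset.sum_const,
      nsmul_eq_mul, ← Finset.mul_sum, ← Finset.mul_sum, ← Finset.mul_sum]
    have s1 : ∑ x ∈ box d (N + 1), unb ℓ ω x * ψ x ≤ unbPsi ℓ lam ω N :=
      hunbsum.sum_le_tsum _ fun x _ => mul_nonneg (unb_nonneg ..) (hψ0 x)
    have s2 : ∑ x ∈ box d (N + 1), unb ℓ ω (x + basisVec j) * ψ (x + basisVec j) ≤
        unbPsi ℓ lam ω N := by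
      have := (hunbsum' j).sum_le_tsum (box d (N + 1)) fun x _ =>
        mul_nonneg (unb_nonneg ..) (hψ0 _)
      refine this.trans (le_of_eq ?_)
      exact tsum_shift j fun x => unb ℓ ω x * ψ x
    have s1' := mul_le_mul_of_nonneg_left s1 (show 0 ≤ 2 * η by positivity)
    have s2' := mul_le_mul_of_nonneg_left s2 (show 0 ≤ 2 * η by positivity)
    linarith
  have h4 := Finset.sum_le_sum (s := Finset.univ) fun j _ => h3 j
  rw [Finset.sum_neg_distrib] at h4
  have h5 : ∑ j : Fin d, A * (4 * η * unbPsi ℓ lam ω N + 4 * η * e * (box d (N + 1)).card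
        + (η * t)⁻¹ * ∑ x ∈ box d (N + 1), openInd ω x j *
          prodn (av ℓ lam j) (ψ x + e) (ψ (x + basisVec j) + e)) =
      A * (4 * η * d * unbPsi ℓ lam ω N + 4 * η * e * d * (box d (N + 1)).card
        + (η * t)⁻¹ * totalProd ℓ lam ω N e) := by
    rw [← Finset.mul_sum, Finset.sum_add_distrib, Finset.sum_const, Finset.card_univ,
      Fintype.card_fin, nsmul_eq_mul, ← Finset.mul_sum]
    unfold totalProd
    ring
  rw [h5] at h4
  linarith

/-- The unbalanced vertices are controlled by the entropy production, with an error. -/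
lemma unbPsi_near {δ ε : ℝ} (hδ : 0 < δ) (hδ1 : δ ≤ 1) (hlam : 0 < lam)
    (hℓ1 : ∀ j, |ℓ j| ≤ 1) (hε0 : 0 ≤ ε) (hε : ∀ j, |ℓ j - δ * sg ℓ j| ≤ ε) (N : ℕ)
    {e η : ℝ} (he : 0 < e) (hη : 0 < η) (hη' : η ≤ 1 / 2) :
    (Real.exp (lam * δ) - (Real.exp (lam * δ))⁻¹) * unbPsi ℓ lam ω N ≤
      2 + d * (2 * lam * Real.exp lam * ε) * (Real.exp lam * N) +
      Real.exp lam * (4 * η * d * unbPsi ℓ lam ω N
        + 4 * η * e * d * (box d (N + 1)).card
        + (η * (Real.exp lam)⁻¹)⁻¹ * totalProd ℓ lam ω N e) := by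
  have h1 := balance_low ℓ lam ω hδ hδ1 hlam hℓ1 hε0 hε N
  have h2 := balance_up ℓ lam ω hlam hℓ1 N he hη hη'
  linarith

end Pool.Agent.P2ec0f3
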