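import Pool.Agent.Lib.P2ec0f3n.Fwd

/-!
# The net flow along an edge is at most the probability of a visit of its starting point
-/

open MeasureTheory ProbabilityTheory Filter Topology Function
open scoped unitInterval ENNReal

namespace Pool.Agent.P2ec0f3

variable {d : ℕ} (ℓ : Fin d → ℝ) (lam : ℝ) (ω : Set (Edge d))

/-- The reversible weight of the translation by `z`. -/
noncomputable def ew (z : Vtx d) : ℝ := Real.exp (2 * lam * height ℓ z)

lemma ew_pos (z : Vtx d) : 0 < ew ℓ lam z := Real.exp_pos _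

lemma ew_add (z : Vtx d) (j : Fin d) :
    ew ℓ lam (z + basisVec j) = ew ℓ lam z * (av ℓ lam j) ^ 2 := by
  unfold ew av
  have := height_add ℓ z j
  have e : height ℓ (z + basisVec j) = height ℓ z + ℓ j := by linarith
  rw [e, sq, ← Real.exp_add, ← Real.exp_add]
  congr 1
  ring

/-- The net flow along the edge `(z, j)` upwards. -/
noncomputable def net (N : ℕ) (z : Vtx d) (j : Fin d) : ℝ :=
  av ℓ lam j * psi ℓ lam ω N z - (av ℓ lam j)⁻¹ * psi ℓ lam ω N (z + basisVec j)

lemma net_eq (N : ℕ) (z : Vtx d) (j : Fin d) :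
    net ℓ lam ω N z j = av ℓ lam j * ew ℓ lam z *
      (psi ℓ lam ω N z / ew ℓ lam z
        - psi ℓ lam ω N (z + basisVec j) / ew ℓ lam (z + basisVec j)) := by
  unfold net
  rw [ew_add]
  have h1 := (ew_pos ℓ lam z).ne'
  have h2 := (av_pos ℓ lam j).ne'
  field_simp

/-- The cut inequality: the net flow along each edge that starts or ends at the starting point is
at most one in absolute value. -/
lemma cut_le (N : ℕ) (j : Fin d) :
    openInd ω 0 j * net ℓ lam ω N 0 j ≤ 1 ∧
    -(openInd ω (0 - basisVec j) j * net ℓ lam ω N (0 - basisVec j) j) ≤ 1 := by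
  classical
  set f : Vtx d → ℝ := fun z => psi ℓ lam ω N z / ew ℓ lam z with hf
  set g : Vtx d → ℝ := fun z => if f 0 ≤ f z then 1 else 0 with hg
  have hg01 : ∀ z, g z = 0 ∨ g z = 1 := fun z => by
    simp only [hg]; split_ifs <;> simp
  have hterm : ∀ z i, openInd ω z i * net ℓ lam ω N z i * (g (z + basisVec i) - g z) ≤ 0 := by
    intro z i
    have h0 := openInd_nonneg ω z i
    rw [net_eq]
    have hw : 0 < av ℓ lam i * ew ℓ lam z := mul_pos (av_pos ..) (ew_pos ..)
    change openInd ω z i * (av ℓ lam i * ew ℓ lam z * (f z - f (z + basisVec i))) *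
      (g (z + basisVec i) - g z) ≤ 0
    have key : (f z - f (z + basisVec i)) * (g (z + basisVec i) - g z) ≤ 0 := by
      simp only [hg]
      split_ifs with h1 h2 h2
      · simp
      · push Not at h2
        nlinarith
      · push Not at h1
        nlinarith
      · simp
    have : openInd ω z i * (av ℓ lam i * ew ℓ lam z * (f z - f (z + basisVec i))) *
      (g (z + basisVec i) - g z) = (openInd ω z i * (av ℓ lam i * ew ℓ lam z)) *
      ((f z - f (z + basisVec i)) * (g (z + basisVec i) - g z)) := by ring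
    rw [this]
    exact mul_nonpos_of_nonneg_of_nonpos (mul_nonneg h0 hw.le) key
  have hid := integral_lawAt_eq ℓ lam ω N g
  have hg0 : g 0 = 1 := by simp [hg]
  have hnn : 0 ≤ ∫ x, g x ∂(lawAt ℓ lam ω N) := integral_nonneg fun x => by
    rcases hg01 x with h | h <;> rw [h]
    · exact le_rfl
    · exact zero_le_one
  set T : Fin d → Vtx d → ℝ := fun i z =>
    openInd ω z i * (av ℓ lam i * psi ℓ lam ω N z
        - (av ℓ lam i)⁻¹ * psi ℓ lam ω N (z + basisVec i)) * (g (z + basisVec i) - g z) with hT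
  have hT0 : ∀ i z, T i z ≤ 0 := fun i z => hterm z i
  have hψ : HasFiniteSupport (psi ℓ lam ω N) := hasFiniteSupport_psi ℓ lam ω N
  have hTs : ∀ i, Summable (T i) := by
    intro i
    apply summable_of_hasFiniteSupport
    refine Set.Finite.subset (Set.Finite.union hψ (hasFiniteSupport_shift hψ (basisVec i)))
      fun x hx => ?_
    by_contra hcon
    rw [Set.mem_union, not_or] at hcon
    have e1 : psi ℓ lam ω N x = 0 := by simpa using hcon.1
    have e2 : psi ℓ lam ω N (x + basisVec i) = 0 := by simpa using hcon.2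
    apply hx
    simp only [hT]
    rw [e1, e2]
    ring
  have hsum : -1 ≤ ∑ i, ∑' z, T i z := by
    rw [hid, hg0] at hnn
    linarith
  -- each single term is at least `-1`
  have hsingle : ∀ i z, -1 ≤ T i z := by
    intro i z
    have h1 : ∑' y, T i y ≤ T i z := by
      have h2 := (hTs i).neg.sum_le_tsum {z} fun y _ => by
        have := hT0 i y
        linarith
      rw [Finset.sum_singleton, tsum_neg] at h2
      linarith
    have h3 : ∑ i', ∑' y, T i' y ≤ ∑' y, T i y := by
      rw [← Finset.add_sum_erase Finset.univ (fun i' => ∑' y, T i' y) (Finset.mem_univ i)]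
      have : ∑ i' ∈ Finset.univ.erase i, ∑' y, T i' y ≤ 0 :=
        Finset.sum_nonpos fun i' _ => tsum_nonpos fun y => hT0 i' y
      linarith
    linarith
  constructor
  · by_cases h : f 0 ≤ f (0 + basisVec j)
    · have h1 : net ℓ lam ω N 0 j ≤ 0 := by
        rw [net_eq]
        refine mul_nonpos_of_nonneg_of_nonpos (mul_pos (av_pos ..) (ew_pos ..)).le ?_
        change f 0 - f (0 + basisVec j) ≤ 0
        linarith
      have := mul_nonpos_of_nonneg_of_nonpos (openInd_nonneg ω 0 j) h1
      linarith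
    · have h1 := hsingle j 0
      have h2 : g (0 + basisVec j) = 0 := by simp only [hg]; rw [if_neg h]
      simp only [hT] at h1
      rw [h2, hg0] at h1
      unfold net
      linarith
  · set y : Vtx d := 0 - basisVec j with hy
    have hy0 : y + basisVec j = 0 := by rw [hy]; abel
    by_cases h : f 0 ≤ f y
    · have h1 : 0 ≤ net ℓ lam ω N y j := by
        rw [net_eq]
        refine mul_nonneg (mul_pos (av_pos ..) (ew_pos ..)).le ?_
        change 0 ≤ f y - f (y + basisVec j)
        rw [hy0]
        linarith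
      have := mul_nonneg (openInd_nonneg ω y j) h1
      linarith
    · have h1 := hsingle j y
      have h2 : g y = 0 := by simp only [hg]; rw [if_neg h]
      simp only [hT] at h1
      rw [hy0, h2, hg0] at h1
      unfold net
      rw [hy0]
      linarith

/-- The environment seen from `x`. -/
def shiftEnv (x : Vtx d) : Set (Edge d) := {e | (e.1 + x, e.2) ∈ ω}

lemma openInd_shift (x z : Vtx d) (j : Fin d) :
    openInd (shiftEnv ω x) z j = openInd ω (z + x) j := rfl

lemma weight_shift (x z : Vtx d) (D : Fin d × Bool) :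
    weight ℓ lam (shiftEnv ω x) z D = weight ℓ lam ω (z + x) D := by
  obtain ⟨j, b⟩ := D
  cases b
  · rw [weight_down, weight_down, openInd_shift]
    congr 2
    abel
  · rw [weight_up, weight_up, openInd_shift]

lemma total_shift (x z : Vtx d) :
    total ℓ lam (shiftEnv ω x) z = total ℓ lam ω (z + x) := by
  unfold total
  exact Finset.sum_congr rfl fun D _ => weight_shift ..

lemma fwd_shift (x : Vtx d) (f : Vtx d → ℝ) (w : Vtx d) :
    fwd ℓ lam ω (fun z => f (z - x)) w = fwd ℓ lam (shiftEnv ω x) f (w - x) := by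
  unfold fwd
  have h1 : ∀ D, nbr (w - x) (rv D) = nbr w (rv D) - x := by
    intro D
    have := nbr_add w (-x) (rv D)
    rwa [← sub_eq_add_neg, ← sub_eq_add_neg] at this
  congr 1
  · refine Finset.sum_congr rfl fun D _ => ?_
    rw [weight_shift, total_shift, h1, sub_add_cancel]
  · rw [total_shift, sub_add_cancel]

/-- The decomposition of the law at the first visit of `x`. -/
lemma pr_first (x : Vtx d) (n : ℕ) (w : Vtx d) :
    pr ℓ lam ω n w = ∑ k ∈ Finset.range (n + 1), qk ℓ lam ω {x} k x *
        pr ℓ lam (shiftEnv ω x) (n - k) (w - x) +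
      (if w ∈ ({x} : Finset (Vtx d)) then 0 else qk ℓ lam ω {x} n w) := by
  classical
  induction n generalizing w with
  | zero =>
    simp only [zero_add, Finset.range_one, Finset.sum_singleton, Nat.sub_zero,
      Finset.mem_singleton]
    rw [pr_zero, pr_zero]
    unfold qk
    by_cases hw : w = x
    · subst hw; simp
    · rw [if_neg hw]
      have : w - x ≠ 0 := sub_ne_zero.2 hw
      rw [if_neg this]
      ring
  | succ n ih =>
    rw [pr_succ]
    have h1 : pr ℓ lam ω n = fun w => (∑ k ∈ Finset.range (n + 1), qk ℓ lam ω {x} k x *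
        pr ℓ lam (shiftEnv ω x) (n - k) (w - x)) +
      (if w ∈ ({x} : Finset (Vtx d)) then 0 else qk ℓ lam ω {x} n w) := funext fun w => ih w
    rw [h1, fwd_add, fwd_sum ℓ lam ω (Finset.range (n + 1)) (fun k => qk ℓ lam ω {x} k x)
      (fun k w => pr ℓ lam (shiftEnv ω x) (n - k) (w - x))]
    have h2 : ∀ k ∈ Finset.range (n + 1), qk ℓ lam ω {x} k x *
        fwd ℓ lam ω (fun w => pr ℓ lam (shiftEnv ω x) (n - k) (w - x)) w =
        qk ℓ lam ω {x} k x * pr ℓ lam (shiftEnv ω x) (n + 1 - k) (w - x) := by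
      intro k hk
      rw [fwd_shift, ← pr_succ]
      have : n - k + 1 = n + 1 - k := by
        have := Finset.mem_range.1 hk
        omega
      rw [this]
    rw [Finset.sum_congr rfl h2]
    have h3 : fwd ℓ lam ω (fun w => if w ∈ ({x} : Finset (Vtx d)) then 0
        else qk ℓ lam ω {x} n w) w = qk ℓ lam ω {x} (n + 1) w := by
      conv_rhs => unfold qk
    rw [h3, Finset.sum_range_succ _ (n + 1), Nat.sub_self, pr_zero]
    by_cases hw : w = x
    · subst hw; simp
    · have hw' : w ∉ ({x} : Finset (Vtx d)) := by simpa using hw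
      have : w - x ≠ 0 := sub_ne_zero.2 hw
      rw [if_neg hw', if_neg this]
      ring

lemma sum_conv (F g : ℕ → ℝ) (N : ℕ) :
    ∑ n ∈ Finset.range N, ∑ k ∈ Finset.range (n + 1), F k * g (n - k) =
      ∑ k ∈ Finset.range N, F k * ∑ m ∈ Finset.range (N - k), g m := by
  have h1 : ∑ n ∈ Finset.range N, ∑ k ∈ Finset.range (n + 1), F k * g (n - k) =
      ∑ k ∈ Finset.range N, ∑ n ∈ Finset.Ico k N, F k * g (n - k) := by
    refine Finset.sum_comm' fun n k => ?_
    simp only [Finset.mem_range, Finset.mem_Ico]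
    omega
  rw [h1]
  refine Finset.sum_congr rfl fun k _ => ?_
  rw [Finset.sum_Ico_eq_sum_range, Finset.mul_sum]
  refine Finset.sum_congr rfl fun m _ => ?_
  rw [Nat.add_sub_cancel_left]

lemma occ_first (x : Vtx d) (N : ℕ) :
    occ ℓ lam ω N x = ∑ k ∈ Finset.range N, qk ℓ lam ω {x} k x *
      occ ℓ lam (shiftEnv ω x) (N - k) 0 := by
  have h1 : occ ℓ lam ω N x = ∑ n ∈ Finset.range N, ∑ k ∈ Finset.range (n + 1),
      qk ℓ lam ω {x} k x * pr ℓ lam (shiftEnv ω x) (n - k) 0 := by
    unfold occ
    refine Finset.sum_congr rfl fun n _ => ?_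
    rw [pr_first ℓ lam ω x n x]
    simp
  rw [h1, sum_conv (fun k => qk ℓ lam ω {x} k x) (fun m => pr ℓ lam (shiftEnv ω x) m 0)]
  rfl

lemma occ_first_ge (x w : Vtx d) (N : ℕ) :
    ∑ k ∈ Finset.range N, qk ℓ lam ω {x} k x *
      occ ℓ lam (shiftEnv ω x) (N - k) (w - x) ≤ occ ℓ lam ω N w := by
  have h1 : ∑ n ∈ Finset.range N, ∑ k ∈ Finset.range (n + 1),
      qk ℓ lam ω {x} k x * pr ℓ lam (shiftEnv ω x) (n - k) (w - x) ≤ occ ℓ lam ω N w := by
    unfold occ
    refine Finset.sum_le_sum fun n _ => ?_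
    rw [pr_first ℓ lam ω x n w]
    have : 0 ≤ (if w ∈ ({x} : Finset (Vtx d)) then 0 else qk ℓ lam ω {x} n w) := by
      split_ifs
      · exact le_rfl
      · exact qk_nonneg ..
    linarith
  rw [sum_conv (fun k => qk ℓ lam ω {x} k x)
    (fun m => pr ℓ lam (shiftEnv ω x) m (w - x))] at h1
  exact h1

lemma psi_first (x : Vtx d) (N : ℕ) :
    psi ℓ lam ω N x = ∑ k ∈ Finset.range N, qk ℓ lam ω {x} k x *
      psi ℓ lam (shiftEnv ω x) (N - k) 0 := by
  unfold psi
  rw [occ_first, Finset.sum_div]
  refine Finset.sum_congr rfl fun k _ => ?_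
  rw [total_shift, zero_add]
  ring

lemma psi_first_ge (x w : Vtx d) (N : ℕ) :
    ∑ k ∈ Finset.range N, qk ℓ lam ω {x} k x *
      psi ℓ lam (shiftEnv ω x) (N - k) (w - x) ≤ psi ℓ lam ω N w := by
  unfold psi
  refine le_trans (le_of_eq ?_) (div_le_div_of_nonneg_right (occ_first_ge ℓ lam ω x w N)
    (total_nonneg ℓ lam ω w))
  rw [Finset.sum_div]
  refine Finset.sum_congr rfl fun k _ => ?_
  rw [total_shift, sub_add_cancel]
  ring

/-- The net flow upwards along an open edge is at most the probability of a visit of its lower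
end. -/
lemma net_le_hit (N : ℕ) (x : Vtx d) (j : Fin d) (h : openInd ω x j = 1) :
    av ℓ lam j * psi ℓ lam ω N x - (av ℓ lam j)⁻¹ * psi ℓ lam ω N (x + basisVec j) ≤
      hit ℓ lam ω N x := by
  have ha := av_pos ℓ lam j
  have h1 := psi_first ℓ lam ω x N
  have h2 := psi_first_ge ℓ lam ω x (x + basisVec j) N
  have h3 : x + basisVec j - x = 0 + basisVec j := by abel
  rw [h3] at h2
  have h4 := mul_le_mul_of_nonneg_left h2 (inv_pos.2 ha).le
  have h5 : av ℓ lam j * psi ℓ lam ω N x - (av ℓ lam j)⁻¹ *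
      ∑ k ∈ Finset.range N, qk ℓ lam ω {x} k x *
        psi ℓ lam (shiftEnv ω x) (N - k) (0 + basisVec j) =
      ∑ k ∈ Finset.range N, qk ℓ lam ω {x} k x * net ℓ lam (shiftEnv ω x) (N - k) 0 j := by
    rw [h1, Finset.mul_sum, Finset.mul_sum, ← Finset.sum_sub_distrib]
    refine Finset.sum_congr rfl fun k _ => ?_
    unfold net
    ring
  have h6 : ∑ k ∈ Finset.range N, qk ℓ lam ω {x} k x *
      net ℓ lam (shiftEnv ω x) (N - k) 0 j ≤ hit ℓ lam ω N x := by
    unfold hit
    refine Finset.sum_le_sum fun k _ => ?_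
    have h7 := (cut_le ℓ lam (shiftEnv ω x) (N - k) j).1
    rw [openInd_shift, zero_add, h, one_mul] at h7
    have := mul_le_mul_of_nonneg_left h7 (qk_nonneg ℓ lam ω {x} k x)
    linarith
  linarith

/-- The net flow downwards along an open edge is at most the probability of a visit of its upper
end. -/
lemma net_le_hit' (N : ℕ) (x : Vtx d) (j : Fin d) (h : openInd ω (x - basisVec j) j = 1) :
    (av ℓ lam j)⁻¹ * psi ℓ lam ω N x - av ℓ lam j * psi ℓ lam ω N (x - basisVec j) ≤
      hit ℓ lam ω N x := by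
  have ha := av_pos ℓ lam j
  have h1 := psi_first ℓ lam ω x N
  have h2 := psi_first_ge ℓ lam ω x (x - basisVec j) N
  have h3 : x - basisVec j - x = 0 - basisVec j := by abel
  rw [h3] at h2
  have h4 := mul_le_mul_of_nonneg_left h2 ha.le
  have h5 : (av ℓ lam j)⁻¹ * psi ℓ lam ω N x - av ℓ lam j *
      ∑ k ∈ Finset.range N, qk ℓ lam ω {x} k x *
        psi ℓ lam (shiftEnv ω x) (N - k) (0 - basisVec j) =
      ∑ k ∈ Finset.range N, qk ℓ lam ω {x} k x *
        -net ℓ lam (shiftEnv ω x) (N - k) (0 - basisVec j) j := by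
    rw [h1, Finset.mul_sum, Finset.mul_sum, ← Finset.sum_sub_distrib]
    refine Finset.sum_congr rfl fun k _ => ?_
    unfold net
    have : (0 : Vtx d) - basisVec j + basisVec j = 0 := by abel
    rw [this]
    ring
  have h6 : ∑ k ∈ Finset.range N, qk ℓ lam ω {x} k x *
      -net ℓ lam (shiftEnv ω x) (N - k) (0 - basisVec j) j ≤ hit ℓ lam ω N x := by
    unfold hit
    refine Finset.sum_le_sum fun k _ => ?_
    have h7 := (cut_le ℓ lam (shiftEnv ω x) (N - k) j).2
    have h8 : (0 : Vtx d) - basisVec j + x = x - basisVec j := by abel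
    rw [openInd_shift, h8, h, one_mul] at h7
    have := mul_le_mul_of_nonneg_left h7 (qk_nonneg ℓ lam ω {x} k x)
    linarith
  linarith

end Pool.Agent.P2ec0f3
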