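import Pool.Agent.Lib.P2ec0f3n.Unif

/-!
# Decoupling at the first visit: the expected number of visited defective vertices
-/

open MeasureTheory ProbabilityTheory Filter Topology Function
open scoped unitInterval ENNReal

namespace Pool.Agent.P2ec0f3

variable {d : ℕ} (ℓ : Fin d → ℝ) (lam : ℝ)

/-- The killed walk depends only on the edges at the vertices outside `A`. -/
lemma qk_congr {ω ω' : Set (Edge d)} (A : Finset (Vtx d)) (N : ℕ)
    (h : ∀ z ∈ box d N, z ∉ A → ∀ D, (edgeTo z D ∈ ω ↔ edgeTo z D ∈ ω')) (n : ℕ)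
    (hn : n ≤ N + 1) (w : Vtx d) : qk ℓ lam ω A n w = qk ℓ lam ω' A n w := by
  classical
  induction n generalizing w with
  | zero => unfold qk; rfl
  | succ n ih =>
    have hn' : n ≤ N := by omega
    set f : Vtx d → ℝ := fun z => if z ∈ A then 0 else qk ℓ lam ω A n z with hf
    set f' : Vtx d → ℝ := fun z => if z ∈ A then 0 else qk ℓ lam ω' A n z with hf'
    have hff : f = f' := by
      funext z
      simp only [hf, hf', ih (by omega) z]
    have hkey : ∀ z, f z = 0 ∨ ((∀ D, weight ℓ lam ω z D = weight ℓ lam ω' z D) ∧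
        total ℓ lam ω z = total ℓ lam ω' z) := by
      intro z
      by_cases hzA : z ∈ A
      · left; simp only [hf]; rw [if_pos hzA]
      · by_cases hzb : z ∈ box d n
        · right
          have h1 : ∀ D, weight ℓ lam ω z D = weight ℓ lam ω' z D := fun D =>
            weight_congr ℓ lam (h z (box_mono hn' hzb) hzA D)
          exact ⟨h1, Finset.sum_congr rfl fun D _ => h1 D⟩
        · left
          simp only [hf]
          rw [if_neg hzA]
          exact qk_eq_zero ℓ lam ω A hzb
    have e1 : qk ℓ lam ω A (n + 1) w = fwd ℓ lam ω f w := by unfold qk; rfl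
    have e2 : qk ℓ lam ω' A (n + 1) w = fwd ℓ lam ω' f' w := by unfold qk; rfl
    rw [e1, e2, ← hff]
    unfold fwd
    congr 1
    · refine Finset.sum_congr rfl fun D _ => ?_
      rcases hkey (nbr w (rv D)) with h0 | ⟨h1, h2⟩
      · rw [h0, zero_mul, zero_mul]
      · rw [h1, h2]
    · rcases hkey w with h0 | ⟨h1, h2⟩
      · rw [h0]; split_ifs <;> rfl
      · rw [h2]

lemma edgeTo_mem_box {n : ℕ} {z : Vtx d} (hz : z ∈ box d n) (D : Fin d × Bool) :
    (edgeTo z D).1 ∈ box d (n + 1) := by
  obtain ⟨j, b⟩ := D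
  cases b
  · have := nbr_mem_box hz (j, false)
    simpa [nbr, edgeTo] using this
  · simpa [edgeTo] using box_mono (Nat.le_succ n) hz

lemma edgeTo_eq {x z : Vtx d} {D D' : Fin d × Bool} (h : edgeTo z D' = edgeTo x D) :
    z = x ∨ z = nbr x D := by
  obtain ⟨j, b⟩ := D
  obtain ⟨j', b'⟩ := D'
  cases b <;> cases b' <;> simp only [edgeTo, nbr, Bool.false_eq_true, if_false, if_true,
    Prod.mk.injEq] at h ⊢ <;> obtain ⟨h1, rfl⟩ := h
  · left; exact sub_left_injective h1
  · right; exact h1
  · right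
    rw [← h1, sub_add_cancel]
  · left; exact h1

/-- All edges whose lower end is in the box. -/
noncomputable def boxEdges (d n : ℕ) : Finset (Edge d) := box d n ×ˢ Finset.univ

lemma mem_boxEdges {n : ℕ} {e : Edge d} : e ∈ boxEdges d n ↔ e.1 ∈ box d n := by
  unfold boxEdges
  simp [Finset.mem_product]

lemma hitA_depOn (x : Vtx d) (D : Fin d × Bool) (N : ℕ) :
    DepOn ((boxEdges d (N + 1)).erase (edgeTo x D))
      (fun ω => hitA ℓ lam ω {x, nbr x D} N) := by
  classical
  intro ω ω' h
  unfold hitA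
  refine Finset.sum_congr rfl fun n hn => Finset.sum_congr rfl fun z _ => ?_
  refine qk_congr ℓ lam {x, nbr x D} N (fun y hy hyA D' => ?_) n
    (by have := Finset.mem_range.1 hn; omega) z
  refine h _ (Finset.mem_erase.2 ⟨fun hcon => ?_, mem_boxEdges.2 (edgeTo_mem_box hy D')⟩)
  apply hyA
  rcases edgeTo_eq hcon with h1 | h1 <;> simp [h1]

lemma hit_depOn (x : Vtx d) (N : ℕ) :
    DepOn (boxEdges d (N + 1)) (fun ω => hit ℓ lam ω N x) := by
  classical
  intro ω ω' h
  unfold hit
  refine Finset.sum_congr rfl fun n hn => ?_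
  refine qk_congr ℓ lam {x} N (fun y hy _ D' => ?_) n
    (by have := Finset.mem_range.1 hn; omega) x
  exact h _ (mem_boxEdges.2 (edgeTo_mem_box hy D'))

open Classical in
/-- The indicator of a closed edge. -/
noncomputable def clo (e : Edge d) (ω : Set (Edge d)) : ℝ := if e ∈ ω then 0 else 1

lemma clo_nonneg (e : Edge d) (ω : Set (Edge d)) : 0 ≤ clo e ω := by
  unfold clo; split_ifs <;> norm_num

lemma clo_depOn (e : Edge d) : DepOn {e} (clo e) := by
  intro ω ω' h
  have := h e (Finset.mem_singleton_self e)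
  unfold clo
  by_cases h1 : e ∈ ω
  · rw [if_pos h1, if_pos (this.1 h1)]
  · rw [if_neg h1, if_neg fun h2 => h1 (this.2 h2)]

lemma DepOn.mul {S T U : Finset (Edge d)} {f g : Set (Edge d) → ℝ} (hf : DepOn S f)
    (hg : DepOn T g) (hS : S ⊆ U) (hT : T ⊆ U) : DepOn U (fun ω => f ω * g ω) := by
  intro ω ω' h
  have h1 := hf ω ω' fun e he => h e (hS he)
  have h2 := hg ω ω' fun e he => h e (hT he)
  simp only [h1, h2]

/-- A closed edge is independent of everything that does not look at it. -/
lemma integral_clo_mul (p : I) (e : Edge d) {T : Finset (Edge d)} {f : Set (Edge d) → ℝ}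
    (hf : DepOn (T.erase e) f) :
    ∫ ω, clo e ω * f ω ∂(percolation d p) = (1 - (p : ℝ)) * ∫ ω, f ω ∂(percolation d p) := by
  classical
  have hdis : Disjoint (T.erase e) {e} := by
    rw [Finset.disjoint_singleton_right]
    exact Finset.notMem_erase e T
  have h1 := setIntegral_pat hdis ∅ p hf
  have h2 : wt p {e} ∅ = 1 - (p : ℝ) := by
    unfold wt
    simp
  rw [h2] at h1
  rw [← h1, ← integral_indicator (measurableSet_pat _ _)]
  refine integral_congr_ae (ae_of_all _ fun ω => ?_)
  dsimp only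
  by_cases h : e ∈ ω
  · have : ω ∉ pat {e} ∅ := by
      intro hcon
      have := hcon e (Finset.mem_singleton_self e)
      exact (this.1 h)
    rw [Set.indicator_of_notMem this]
    unfold clo
    rw [if_pos h, zero_mul]
  · have : ω ∈ pat {e} ∅ := by
      intro e' he'
      rw [Finset.mem_singleton] at he'
      subst he'
      simp [h]
    rw [Set.indicator_of_mem this]
    unfold clo
    rw [if_neg h, one_mul]

/-- The expected number of visited vertices. -/
noncomputable def sumHit (ω : Set (Edge d)) (N : ℕ) : ℝ := ∑ x ∈ box d N, hit ℓ lam ω N x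

lemma sumHit_nonneg (ω : Set (Edge d)) (N : ℕ) : 0 ≤ sumHit ℓ lam ω N :=
  Finset.sum_nonneg fun x _ => hit_nonneg ..

lemma sumHit_le (ω : Set (Edge d)) (N : ℕ) : sumHit ℓ lam ω N ≤ N := sum_hit_le ..

lemma sumHit_depOn (N : ℕ) : DepOn (boxEdges d (N + 1)) (fun ω => sumHit ℓ lam ω N) := by
  intro ω ω' h
  unfold sumHit
  exact Finset.sum_congr rfl fun x _ => hit_depOn ℓ lam x N ω ω' h

lemma dfc_le_sum (ω : Set (Edge d)) (x : Vtx d) : dfc ω x ≤ ∑ D, clo (edgeTo x D) ω := by
  classical
  unfold dfc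
  split_ifs with h
  · exact Finset.sum_nonneg fun D _ => clo_nonneg ..
  · push Not at h
    obtain ⟨j, hj⟩ := h
    by_cases h1 : (x, j) ∈ ω
    · have h2 := hj h1
      have h3 : clo (edgeTo x (j, false)) ω = 1 := by
        unfold clo
        rw [if_neg]
        simpa [edgeTo] using h2
      rw [← h3]
      exact Finset.single_le_sum (f := fun D => clo (edgeTo x D) ω)
        (fun D _ => clo_nonneg ..) (Finset.mem_univ _)
    · have h3 : clo (edgeTo x (j, true)) ω = 1 := by
        unfold clo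
        rw [if_neg]
        simpa [edgeTo] using h1
      rw [← h3]
      exact Finset.single_le_sum (f := fun D => clo (edgeTo x D) ω)
        (fun D _ => clo_nonneg ..) (Finset.mem_univ _)

lemma dfc_depOn (x : Vtx d) (n : ℕ) (hx : x ∈ box d n) :
    DepOn (boxEdges d (n + 1)) (fun ω => dfc ω x) := by
  classical
  intro ω ω' h
  have h1 : ∀ j, (x, j) ∈ ω ↔ (x, j) ∈ ω' := fun j =>
    h _ (mem_boxEdges.2 (by simpa using box_mono (Nat.le_succ n) hx))
  have h2 : ∀ j, (x - basisVec j, j) ∈ ω ↔ (x - basisVec j, j) ∈ ω' := fun j =>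
    h _ (mem_boxEdges.2 (by
      have := nbr_mem_box hx (j, false)
      simpa [nbr] using this))
  simp only [dfc, h1, h2]

lemma dfcHit_depOn (N : ℕ) : DepOn (boxEdges d (N + 1)) (fun ω => dfcHit ℓ lam ω N) := by
  intro ω ω' h
  unfold dfcHit
  refine Finset.sum_congr rfl fun x hx => ?_
  have h1 := dfc_depOn x N hx ω ω' h
  have h2 := hit_depOn ℓ lam x N ω ω' h
  simp only at h1 h2
  rw [h1, h2]

/-- The annealed estimate: the visited defective vertices are a proportion at most
`4 d (1 - p)` of the visited vertices. -/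
lemma integral_dfcHit_le (p : I) (N : ℕ) :
    ∫ ω, dfcHit ℓ lam ω N ∂(percolation d p) ≤
      4 * d * (1 - (p : ℝ)) * ∫ ω, sumHit ℓ lam ω N ∂(percolation d p) := by
  classical
  set P := percolation d p with hP
  have hp0 : 0 ≤ 1 - (p : ℝ) := by linarith [p.2.2]
  have iH : ∀ x, Integrable (fun ω => hit ℓ lam ω N x) P := fun x =>
    (hit_depOn ℓ lam x N).integrable P
  have iA : ∀ x D, Integrable (fun ω => hitA ℓ lam ω {x, nbr x D} N) P := fun x D =>
    (hitA_depOn ℓ lam x D N).integrable P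
  have iC : ∀ x D, Integrable (fun ω => clo (edgeTo x D) ω * hitA ℓ lam ω {x, nbr x D} N) P :=
    fun x D => (DepOn.mul (clo_depOn (edgeTo x D)) (hitA_depOn ℓ lam x D N)
      (U := insert (edgeTo x D) (boxEdges d (N + 1)))
      (by simp) (by
        intro e he
        exact Finset.mem_insert_of_mem (Finset.mem_of_mem_erase he))).integrable P
  -- the pointwise bound
  have h1 : ∀ ω, dfcHit ℓ lam ω N ≤
      ∑ x ∈ box d N, ∑ D, clo (edgeTo x D) ω * hitA ℓ lam ω {x, nbr x D} N := by
    intro ω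
    unfold dfcHit
    refine Finset.sum_le_sum fun x _ => ?_
    calc dfc ω x * hit ℓ lam ω N x ≤ (∑ D, clo (edgeTo x D) ω) * hit ℓ lam ω N x :=
          mul_le_mul_of_nonneg_right (dfc_le_sum ω x) (hit_nonneg ..)
      _ = ∑ D, clo (edgeTo x D) ω * hit ℓ lam ω N x := by rw [Finset.sum_mul]
      _ ≤ _ := by
          refine Finset.sum_le_sum fun D _ => mul_le_mul_of_nonneg_left ?_ (clo_nonneg ..)
          rw [hit_eq]
          exact hitA_mono ℓ lam ω (by simp) N
  have h2 : ∫ ω, dfcHit ℓ lam ω N ∂P ≤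
      ∫ ω, ∑ x ∈ box d N, ∑ D, clo (edgeTo x D) ω * hitA ℓ lam ω {x, nbr x D} N ∂P :=
    integral_mono ((dfcHit_depOn ℓ lam N).integrable P)
      (integrable_finsetSum _ fun x _ => integrable_finsetSum _ fun D _ => iC x D) h1
  refine h2.trans ?_
  rw [integral_finsetSum _ fun x _ => integrable_finsetSum _ fun D _ => iC x D]
  have h3 : ∀ x ∈ box d N, ∫ ω, ∑ D, clo (edgeTo x D) ω * hitA ℓ lam ω {x, nbr x D} N ∂P ≤
      ∑ D : Fin d × Bool, (1 - (p : ℝ)) * (∫ ω, hit ℓ lam ω N x ∂P +
        ∫ ω, hit ℓ lam ω N (nbr x D) ∂P) := by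
    intro x _
    rw [integral_finsetSum _ fun D _ => iC x D]
    refine Finset.sum_le_sum fun D _ => ?_
    rw [integral_clo_mul p (edgeTo x D) (hitA_depOn ℓ lam x D N)]
    refine mul_le_mul_of_nonneg_left ?_ hp0
    rw [← integral_add (iH x) (iH (nbr x D))]
    refine integral_mono (iA x D) ((iH x).add (iH (nbr x D))) fun ω => ?_
    refine (hitA_le ℓ lam ω {x, nbr x D} N).trans ?_
    by_cases hne : x = nbr x D
    · rw [← hne]
      simp [hit_nonneg]
    · rw [Finset.sum_pair hne]
  refine (Finset.sum_le_sum h3).trans ?_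
  have h4 : ∑ x ∈ box d N, ∫ ω, hit ℓ lam ω N x ∂P = ∫ ω, sumHit ℓ lam ω N ∂P := by
    unfold sumHit
    rw [integral_finsetSum _ fun x _ => iH x]
  have h5 : ∀ D, ∑ x ∈ box d N, ∫ ω, hit ℓ lam ω N (nbr x D) ∂P ≤
      ∫ ω, sumHit ℓ lam ω N ∂P := by
    intro D
    rw [← integral_finsetSum _ fun x _ => iH (nbr x D)]
    refine integral_mono (integrable_finsetSum _ fun x _ => iH (nbr x D))
      ((sumHit_depOn ℓ lam N).integrable P) fun ω => ?_
    unfold sumHit
    have e1 : ∑ x ∈ box d N, hit ℓ lam ω N (nbr x D) =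
        ∑ y ∈ (box d N).image (fun x => nbr x D), hit ℓ lam ω N y := by
      rw [Finset.sum_image]
      intro a _ b _ hab
      exact (nbrEquiv D).injective hab
    dsimp only
    rw [e1]
    have e2 : ∑ y ∈ (box d N).image (fun x => nbr x D), hit ℓ lam ω N y ≤
        ∑ y ∈ (box d N).image (fun x => nbr x D) ∪ box d N, hit ℓ lam ω N y :=
      Finset.sum_le_sum_of_subset_of_nonneg Finset.subset_union_left
        fun y _ _ => hit_nonneg ..
    refine e2.trans (le_of_eq ?_)
    symm
    refine Finset.sum_subset Finset.subset_union_right fun y _ hy => hit_eq_zero ℓ lam ω hy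
  rw [Finset.sum_comm]
  have h6 : ∀ D ∈ (Finset.univ : Finset (Fin d × Bool)), ∑ x ∈ box d N, (1 - (p : ℝ)) *
      (∫ ω, hit ℓ lam ω N x ∂P + ∫ ω, hit ℓ lam ω N (nbr x D) ∂P) ≤
      (1 - (p : ℝ)) * (2 * ∫ ω, sumHit ℓ lam ω N ∂P) := by
    intro D _
    rw [← Finset.mul_sum, Finset.sum_add_distrib]
    refine mul_le_mul_of_nonneg_left ?_ hp0
    have := h5 D
    linarith
  refine (Finset.sum_le_sum h6).trans (le_of_eq ?_)
  rw [Finset.sum_const, Finset.card_univ, Fintype.card_prod, Fintype.card_fin,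
    Fintype.card_bool, nsmul_eq_mul]
  push_cast
  ring

/-- In an environment where the cluster of `0` is finite, the number of visited vertices is
bounded. -/
lemma sumHit_le_ncard {ω : Set (Edge d)} (hfin : {x | (openGraph ω).Reachable 0 x}.Finite)
    (N : ℕ) : sumHit ℓ lam ω N ≤ ({x | (openGraph ω).Reachable 0 x}.ncard : ℝ) := by
  classical
  have h0 : ∀ᵐ X ∂(quenched ℓ lam ω), ∀ n, X n ∈ {x | (openGraph ω).Reachable 0 x} := by
    filter_upwards [ae_step ℓ lam ω, ae_start ℓ lam ω] with X hX h0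
    intro n
    induction n with
    | zero => rw [h0]
    | succ n ih =>
      rcases hX n with h | ⟨D, hD, h⟩
      · rw [h]; exact ih
      · rw [h]
        exact SimpleGraph.Reachable.trans ih (adj_of_edgeTo ω hD).reachable
  have h1 : ∀ x, ¬ (openGraph ω).Reachable 0 x → ∀ n, pr ℓ lam ω n x = 0 := by
    intro x hx n
    unfold pr lawAt
    rw [measureReal_eq_zero_iff, Measure.map_apply (measurable_pi_apply n)
      (MeasurableSet.singleton x)]
    refine measure_mono_null (t := {X | ¬ ∀ n, X n ∈ {x | (openGraph ω).Reachable 0 x}}) ?_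
      (ae_iff.1 h0)
    intro X hX hcon
    apply hx
    have := hcon n
    rw [Set.mem_preimage, Set.mem_singleton_iff] at hX
    rwa [hX] at this
  have h2 : ∀ x, ¬ (openGraph ω).Reachable 0 x → hit ℓ lam ω N x = 0 := by
    intro x hx
    refine le_antisymm ((hit_le_occ ..).trans (le_of_eq ?_)) (hit_nonneg ..)
    unfold occ
    exact Finset.sum_eq_zero fun n _ => h1 x hx n
  unfold sumHit
  have h3 : ∑ x ∈ box d N, hit ℓ lam ω N x ≤ ∑ x ∈ hfin.toFinset, hit ℓ lam ω N x := by
    have e1 : ∑ x ∈ box d N, hit ℓ lam ω N x ≤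
        ∑ x ∈ box d N ∪ hfin.toFinset, hit ℓ lam ω N x :=
      Finset.sum_le_sum_of_subset_of_nonneg Finset.subset_union_left fun y _ _ => hit_nonneg ..
    refine e1.trans (le_of_eq ?_)
    symm
    refine Finset.sum_subset Finset.subset_union_right fun y _ hy => h2 y ?_
    simpa using hy
  refine h3.trans ?_
  refine (Finset.sum_le_sum fun x _ => hit_le_one ℓ lam ω N x).trans (le_of_eq ?_)
  rw [Finset.sum_const, nsmul_eq_mul, mul_one, Set.ncard_eq_toFinset_card _ hfin]

end Pool.Agent.P2ec0f3
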