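import Pool.Agent.Lib.P2ec0f3.Final

/-!
# Bias directions near a diagonal: the identity on an edge with an error
-/

open MeasureTheory ProbabilityTheory Filter Topology Function
open scoped unitInterval

namespace Pool.Agent.P2ec0f3

lemma exp_sub_le {M x y : ℝ} (hx : x ≤ M) (hy : y ≤ M) :
    |Real.exp x - Real.exp y| ≤ Real.exp M * |x - y| := by
  have key : ∀ x y : ℝ, x ≤ M → y ≤ x → |Real.exp x - Real.exp y| ≤ Real.exp M * |x - y| := by
    intro x y hx hyx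
    have h1 := Real.add_one_le_exp (y - x)
    have h2 : Real.exp y = Real.exp x * Real.exp (y - x) := by
      rw [← Real.exp_add]; congr 1; ring
    have h3 : 0 ≤ Real.exp x - Real.exp y := by
      linarith [Real.exp_le_exp.2 hyx]
    have h4 : 0 ≤ x - y := by linarith
    rw [abs_of_nonneg h3, abs_of_nonneg h4]
    have h5 : Real.exp x - Real.exp y ≤ Real.exp x * (x - y) := by
      rw [h2]
      nlinarith [Real.exp_pos x]
    exact h5.trans (mul_le_mul_of_nonneg_right (Real.exp_le_exp.2 hx) h4)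
  rcases le_total y x with h | h
  · exact key x y hx h
  · rw [abs_sub_comm, abs_sub_comm x y]
    exact key y x hy h

/-- The constant of the error on an edge. -/
noncomputable def edgeC (lam δ : ℝ) : ℝ := 1 + 2 * lam * multiplier lam δ * Real.exp (2 * lam)

lemma multiplier_pos {lam δ : ℝ} (hδ : 0 < δ) (hlam : 0 < lam) : 0 < multiplier lam δ := by
  have hA1 : 1 < Real.exp (lam * δ) := Real.one_lt_exp_iff.2 (mul_pos hlam hδ)
  have hAinv : (Real.exp (lam * δ))⁻¹ < 1 := inv_lt_one_of_one_lt₀ hA1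
  unfold multiplier
  apply div_pos (by linarith)
  apply mul_pos (by positivity)
  linarith

lemma edgeC_pos {lam δ : ℝ} (hδ : 0 < δ) (hlam : 0 < lam) : 0 < edgeC lam δ := by
  have := multiplier_pos hδ hlam
  unfold edgeC
  positivity

lemma fullSpeed_pos {lam δ : ℝ} (hδ : 0 < δ) (hlam : 0 < lam) : 0 < fullSpeed lam δ := by
  have hA1 : 1 < Real.exp (lam * δ) := Real.one_lt_exp_iff.2 (mul_pos hlam hδ)
  have hAinv : (Real.exp (lam * δ))⁻¹ < 1 := inv_lt_one_of_one_lt₀ hA1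
  unfold fullSpeed
  apply div_pos
  · apply mul_pos hδ; linarith
  · positivity

lemma exact_pos {lam δ : ℝ} (hδ : 0 < δ) (hlam : 0 < lam) :
    δ - fullSpeed lam δ = multiplier lam δ * (1 - Real.exp (-(2 * lam * δ))) ∧
    δ + fullSpeed lam δ = multiplier lam δ * (Real.exp (2 * lam * δ) - 1) := by
  have hA : 1 < Real.exp (lam * δ) := Real.one_lt_exp_iff.2 (mul_pos hlam hδ)
  have e1 : Real.exp (2 * lam * δ) = Real.exp (lam * δ) ^ 2 := by
    rw [sq, ← Real.exp_add]; congr 1; ring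
  have e2 : Real.exp (-(2 * lam * δ)) = (Real.exp (lam * δ) ^ 2)⁻¹ := by
    rw [Real.exp_neg, e1]
  rw [e1, e2]
  unfold fullSpeed multiplier
  set A := Real.exp (lam * δ) with hAdef
  have hA0 : 0 < A := Real.exp_pos _
  have h1 : A + A⁻¹ ≠ 0 := by positivity
  have h2 : A - A⁻¹ ≠ 0 := by
    have : A⁻¹ < 1 := inv_lt_one_of_one_lt₀ hA
    linarith
  have h3 : A ^ 2 + 1 ≠ 0 := by positivity
  have h4 : A ^ 2 - 1 ≠ 0 := by nlinarith
  constructor
  · field_simp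
    ring
  · field_simp
    ring

/-- The two identities at `s = δ` and at `s = -δ`. -/
lemma exact_sign {lam δ s : ℝ} (hδ : 0 < δ) (hlam : 0 < lam) (hs : s = δ ∨ s = -δ) :
    s - fullSpeed lam δ = multiplier lam δ * (1 - Real.exp (-(2 * lam * s))) ∧
    -s - fullSpeed lam δ = -(multiplier lam δ * (Real.exp (2 * lam * s) - 1)) := by
  obtain ⟨h1, h2⟩ := exact_pos hδ hlam
  rcases hs with rfl | rfl
  · exact ⟨h1, by linarith⟩
  · have e1 : -(2 * lam * -δ) = 2 * lam * δ := by ring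
    have e2 : 2 * lam * -δ = -(2 * lam * δ) := by ring
    rw [e1, e2]
    exact ⟨by linarith, by linarith⟩

variable {d : ℕ} (ℓ : Fin d → ℝ) (lam : ℝ) (ω : Set (Edge d))

lemma sg_cases {δ : ℝ} (j : Fin d) : δ * (sg ℓ j : ℝ) = δ ∨ δ * (sg ℓ j : ℝ) = -δ := by
  unfold sg
  split_ifs
  · left; simp
  · right; simp

/-- The identity on each edge, with an error. -/
lemma edge_near {δ ε : ℝ} (hδ : 0 < δ) (hδ1 : δ ≤ 1) (hlam : 0 < lam) (hℓ1 : ∀ j, |ℓ j| ≤ 1)
    (hε : ∀ j, |ℓ j - δ * sg ℓ j| ≤ ε) (j : Fin d) {u v : ℝ} (hu : 0 ≤ u) (hv : 0 ≤ v) :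
    |ℓ j * (av ℓ lam j * u - (av ℓ lam j)⁻¹ * v)
        - fullSpeed lam δ * (av ℓ lam j * u + (av ℓ lam j)⁻¹ * v)
        - multiplier lam δ * (cv ℓ lam j * (u - v))| ≤
      edgeC lam δ * ε * (av ℓ lam j * u + (av ℓ lam j)⁻¹ * v) := by
  set s := δ * (sg ℓ j : ℝ) with hs
  have hs' : s = δ ∨ s = -δ := sg_cases ℓ j
  obtain ⟨f1, f2⟩ := exact_sign hδ hlam hs'
  set μ := multiplier lam δ with hμ
  set θ := fullSpeed lam δ with hθ
  have hμ0 : 0 < μ := multiplier_pos hδ hlam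
  have ha : 0 < av ℓ lam j := av_pos ℓ lam j
  have hs1 : |s| ≤ 1 := by
    rcases hs' with h | h <;> rw [h]
    · rw [abs_of_pos hδ]; exact hδ1
    · rw [abs_neg, abs_of_pos hδ]; exact hδ1
  obtain ⟨s1, s2⟩ := abs_le.1 hs1
  obtain ⟨l1, l2⟩ := abs_le.1 (hℓ1 j)
  have e1 : (av ℓ lam j) ^ 2 = Real.exp (2 * lam * ℓ j) := by
    unfold av
    rw [sq, ← Real.exp_add]; congr 1; ring
  have e2 : ((av ℓ lam j) ^ 2)⁻¹ = Real.exp (-(2 * lam * ℓ j)) := by
    rw [e1, Real.exp_neg]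
  set P := (ℓ j - s) + μ * (Real.exp (-(2 * lam * ℓ j)) - Real.exp (-(2 * lam * s))) with hP
  set Q := -(ℓ j - s) + μ * (Real.exp (2 * lam * ℓ j) - Real.exp (2 * lam * s)) with hQ
  have hid : ℓ j * (av ℓ lam j * u - (av ℓ lam j)⁻¹ * v)
        - θ * (av ℓ lam j * u + (av ℓ lam j)⁻¹ * v)
        - μ * (cv ℓ lam j * (u - v)) = av ℓ lam j * u * P + (av ℓ lam j)⁻¹ * v * Q := by
    have p1 : P = ℓ j - θ - μ * (1 - ((av ℓ lam j) ^ 2)⁻¹) := by
      rw [hP, e2]; linarith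
    have q1 : Q = -ℓ j - θ + μ * ((av ℓ lam j) ^ 2 - 1) := by
      rw [hQ, e1]; linarith
    rw [p1, q1]
    unfold cv
    field_simp
    ring
  rw [hid]
  have hb : 2 * lam * |ℓ j - s| ≤ 2 * lam * ε :=
    mul_le_mul_of_nonneg_left (hε j) (by positivity)
  have x1 : |Real.exp (-(2 * lam * ℓ j)) - Real.exp (-(2 * lam * s))| ≤
      Real.exp (2 * lam) * (2 * lam * ε) := by
    refine (exp_sub_le (M := 2 * lam) (by nlinarith) (by nlinarith)).trans ?_
    refine mul_le_mul_of_nonneg_left ?_ (Real.exp_pos _).le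
    have : -(2 * lam * ℓ j) - -(2 * lam * s) = -(2 * lam * (ℓ j - s)) := by ring
    rw [this, abs_neg, abs_mul, abs_of_pos (by positivity : 0 < 2 * lam)]
    exact hb
  have x2 : |Real.exp (2 * lam * ℓ j) - Real.exp (2 * lam * s)| ≤
      Real.exp (2 * lam) * (2 * lam * ε) := by
    refine (exp_sub_le (M := 2 * lam) (by nlinarith) (by nlinarith)).trans ?_
    refine mul_le_mul_of_nonneg_left ?_ (Real.exp_pos _).le
    have : 2 * lam * ℓ j - 2 * lam * s = 2 * lam * (ℓ j - s) := by ring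
    rw [this, abs_mul, abs_of_pos (by positivity : 0 < 2 * lam)]
    exact hb
  have hPb : |P| ≤ edgeC lam δ * ε := by
    have h1 : |P| ≤ |ℓ j - s| + |μ * (Real.exp (-(2 * lam * ℓ j)) - Real.exp (-(2 * lam * s)))| :=
      abs_add_le _ _
    rw [abs_mul, abs_of_pos hμ0] at h1
    have h2 := mul_le_mul_of_nonneg_left x1 hμ0.le
    have h3 := hε j
    have : edgeC lam δ * ε = ε + μ * (Real.exp (2 * lam) * (2 * lam * ε)) := by
      unfold edgeC; rw [← hμ]; ring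
    rw [this]
    linarith
  have hQb : |Q| ≤ edgeC lam δ * ε := by
    have h1 : |Q| ≤ |-(ℓ j - s)| + |μ * (Real.exp (2 * lam * ℓ j) - Real.exp (2 * lam * s))| :=
      abs_add_le _ _
    rw [abs_mul, abs_of_pos hμ0, abs_neg] at h1
    have h2 := mul_le_mul_of_nonneg_left x2 hμ0.le
    have h3 := hε j
    have : edgeC lam δ * ε = ε + μ * (Real.exp (2 * lam) * (2 * lam * ε)) := by
      unfold edgeC; rw [← hμ]; ring
    rw [this]
    linarith
  have w1 : 0 ≤ av ℓ lam j * u := mul_nonneg ha.le hu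
  have w2 : 0 ≤ (av ℓ lam j)⁻¹ * v := mul_nonneg (inv_pos.2 ha).le hv
  calc |av ℓ lam j * u * P + (av ℓ lam j)⁻¹ * v * Q|
      ≤ |av ℓ lam j * u * P| + |(av ℓ lam j)⁻¹ * v * Q| := abs_add_le _ _
    _ = av ℓ lam j * u * |P| + (av ℓ lam j)⁻¹ * v * |Q| := by
        rw [abs_mul _ P, abs_mul _ Q, abs_of_nonneg w1, abs_of_nonneg w2]
    _ ≤ av ℓ lam j * u * (edgeC lam δ * ε) + (av ℓ lam j)⁻¹ * v * (edgeC lam δ * ε) :=
        add_le_add (mul_le_mul_of_nonneg_left hPb w1) (mul_le_mul_of_nonneg_left hQb w2)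
    _ = _ := by ring

/-- The bounds for the weights. -/
lemma av_bounds_one (hlam : 0 < lam) (hℓ1 : ∀ j, |ℓ j| ≤ 1) (j : Fin d) :
    av ℓ lam j ≤ Real.exp lam ∧ (av ℓ lam j)⁻¹ ≤ Real.exp lam ∧
    (Real.exp lam)⁻¹ ≤ av ℓ lam j ∧ (Real.exp lam)⁻¹ ≤ (av ℓ lam j)⁻¹ := by
  obtain ⟨l1, l2⟩ := abs_le.1 (hℓ1 j)
  unfold av
  rw [← Real.exp_neg, ← Real.exp_neg]
  refine ⟨Real.exp_le_exp.2 ?_, Real.exp_le_exp.2 ?_, Real.exp_le_exp.2 ?_,
    Real.exp_le_exp.2 ?_⟩ <;> nlinarith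

lemma cv_near {δ ε : ℝ} (hδ : 0 < δ) (hδ1 : δ ≤ 1) (hlam : 0 < lam) (hℓ1 : ∀ j, |ℓ j| ≤ 1)
    (hε : ∀ j, |ℓ j - δ * sg ℓ j| ≤ ε) (j : Fin d) :
    |cv ℓ lam j - (Real.exp (lam * δ) - (Real.exp (lam * δ))⁻¹) * sg ℓ j| ≤
      2 * lam * Real.exp lam * ε := by
  set s := δ * (sg ℓ j : ℝ) with hs
  have hs' : s = δ ∨ s = -δ := sg_cases ℓ j
  have hs1 : |s| ≤ 1 := by
    rcases hs' with h | h <;> rw [h]
    · rw [abs_of_pos hδ]; exact hδ1
    · rw [abs_neg, abs_of_pos hδ]; exact hδ1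
  obtain ⟨s1, s2⟩ := abs_le.1 hs1
  obtain ⟨l1, l2⟩ := abs_le.1 (hℓ1 j)
  have h1 : (Real.exp (lam * δ) - (Real.exp (lam * δ))⁻¹) * (sg ℓ j : ℝ) =
      Real.exp (lam * s) - Real.exp (-(lam * s)) := by
    rw [hs]
    unfold sg
    split_ifs
    · push_cast
      rw [mul_one, mul_one, Real.exp_neg]
    · push_cast
      rw [mul_neg_one, mul_neg_one, mul_neg, neg_neg, Real.exp_neg]
      ring
  have h2 : cv ℓ lam j = Real.exp (lam * ℓ j) - Real.exp (-(lam * ℓ j)) := by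
    unfold cv av
    rw [Real.exp_neg]
  rw [h1, h2]
  have hb : lam * |ℓ j - s| ≤ lam * ε := mul_le_mul_of_nonneg_left (hε j) hlam.le
  have x1 : |Real.exp (-(lam * ℓ j)) - Real.exp (-(lam * s))| ≤ Real.exp lam * (lam * ε) := by
    refine (exp_sub_le (M := lam) (by nlinarith) (by nlinarith)).trans ?_
    refine mul_le_mul_of_nonneg_left ?_ (Real.exp_pos _).le
    have : -(lam * ℓ j) - -(lam * s) = -(lam * (ℓ j - s)) := by ring
    rw [this, abs_neg, abs_mul, abs_of_pos hlam]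
    exact hb
  have x2 : |Real.exp (lam * ℓ j) - Real.exp (lam * s)| ≤ Real.exp lam * (lam * ε) := by
    refine (exp_sub_le (M := lam) (by nlinarith) (by nlinarith)).trans ?_
    refine mul_le_mul_of_nonneg_left ?_ (Real.exp_pos _).le
    have : lam * ℓ j - lam * s = lam * (ℓ j - s) := by ring
    rw [this, abs_mul, abs_of_pos hlam]
    exact hb
  have e : Real.exp (lam * ℓ j) - Real.exp (-(lam * ℓ j)) -
      (Real.exp (lam * s) - Real.exp (-(lam * s))) =
      (Real.exp (lam * ℓ j) - Real.exp (lam * s)) -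
      (Real.exp (-(lam * ℓ j)) - Real.exp (-(lam * s))) := by ring
  rw [e]
  refine (abs_sub _ _).trans ?_
  linarith

lemma total_ge_one (hlam : 0 < lam) (hℓ1 : ∀ j, |ℓ j| ≤ 1) {x : Vtx d}
    (hx : total ℓ lam ω x ≠ 0) : (Real.exp lam)⁻¹ ≤ total ℓ lam ω x := by
  classical
  obtain ⟨D, -, hD⟩ := Finset.exists_ne_zero_of_sum_ne_zero hx
  refine le_trans ?_ (Finset.single_le_sum (fun D _ => weight_nonneg ℓ lam ω x D)
    (Finset.mem_univ D))
  obtain ⟨j, b⟩ := D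
  obtain ⟨-, -, b3, b4⟩ := av_bounds_one ℓ lam hlam hℓ1 j
  cases b
  · rw [weight_down] at hD ⊢
    rcases openInd_eq ω (x - basisVec j) j with h | h
    · rw [h, zero_mul] at hD; exact absurd rfl hD
    · rw [h, one_mul]; exact b4
  · rw [weight_up] at hD ⊢
    rcases openInd_eq ω x j with h | h
    · rw [h, zero_mul] at hD; exact absurd rfl hD
    · rw [h, one_mul]; exact b3

lemma tsum_occ (N : ℕ) : ∑' x, occ ℓ lam ω N x = N := by
  unfold occ
  rw [Summable.tsum_finsetSum fun n _ =>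
    summable_of_hasFiniteSupport (hasFiniteSupport_pr ℓ lam ω n)]
  simp [sum_pr]

lemma tsum_psi_le (hlam : 0 < lam) (hℓ1 : ∀ j, |ℓ j| ≤ 1) (N : ℕ) :
    ∑' x, psi ℓ lam ω N x ≤ Real.exp lam * N := by
  rw [← tsum_occ ℓ lam ω N, ← tsum_mul_left]
  refine Summable.tsum_le_tsum (fun x => ?_)
    (summable_of_hasFiniteSupport (hasFiniteSupport_psi ℓ lam ω N)) ?_
  · by_cases h : total ℓ lam ω x = 0
    · unfold psi
      rw [h, div_zero]
      exact mul_nonneg (Real.exp_pos _).le (occ_nonneg ..)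
    · have h1 := total_ge_one ℓ lam ω hlam hℓ1 h
      have h2 : 0 < total ℓ lam ω x := lt_of_lt_of_le (inv_pos.2 (Real.exp_pos _)) h1
      unfold psi
      rw [div_le_iff₀ h2]
      have h3 : 1 ≤ Real.exp lam * total ℓ lam ω x := by
        have := mul_le_mul_of_nonneg_left h1 (Real.exp_pos lam).le
        rwa [mul_inv_cancel₀ (Real.exp_pos lam).ne'] at this
      have h4 := occ_nonneg ℓ lam ω N x
      nlinarith
  · exact summable_of_hasFiniteSupport (hasFiniteSupport_of_mul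
      (hasFiniteSupport_occ ℓ lam ω N) fun x hx => by simp [hx])

end Pool.Agent.P2ec0f3
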