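import Pool.Agent.Lib.P2ec0f3n.Que
import Mathlib.Analysis.SpecialFunctions.Trigonometric.DerivHyp

/-!
# Bias directions near a diagonal: the comparison of the speeds
-/

open MeasureTheory ProbabilityTheory Filter Topology Function
open scoped unitInterval ENNReal

namespace Pool.Agent.P2ec0f3

variable {d : ℕ} (ℓ : Fin d → ℝ) (lam : ℝ)

lemma height_le_lev {δ ε : ℝ} (hε : ∀ j, |ℓ j - δ * sg ℓ j| ≤ ε) {n : ℕ} {x : Vtx d}
    (hx : x ∈ box d n) : height ℓ x ≤ δ * lev ℓ x + d * ε * n := by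
  rw [mem_box] at hx
  have h1 : height ℓ x - δ * lev ℓ x = ∑ j, (ℓ j - δ * sg ℓ j) * (x j : ℝ) := by
    unfold height lev
    push_cast
    rw [Finset.mul_sum, ← Finset.sum_sub_distrib]
    exact Finset.sum_congr rfl fun j _ => by ring
  have h2 : ∀ j ∈ (Finset.univ : Finset (Fin d)), (ℓ j - δ * sg ℓ j) * (x j : ℝ) ≤ ε * n := by
    intro j _
    refine (le_abs_self _).trans ?_
    rw [abs_mul]
    have h3 : |(x j : ℝ)| ≤ n := by
      rw [abs_le]
      obtain ⟨h1, h2⟩ := hx j
      constructor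
      · have : ((-(n : ℤ) : ℤ) : ℝ) ≤ (x j : ℝ) := by exact_mod_cast h1
        push_cast at this
        exact this
      · exact_mod_cast h2
    exact mul_le_mul (hε j) h3 (abs_nonneg _) ((abs_nonneg _).trans (hε j))
  have h3 := Finset.sum_le_sum h2
  rw [← h1, Finset.sum_const, Finset.card_univ, Fintype.card_fin, nsmul_eq_mul] at h3
  linarith

/-- The comparison with a gain, for the constants of the quenched bound. -/
theorem speed_near (hd : 0 < d) {δ D : ℝ} (hδ : 0 < δ)
    (hlev : ∀ (n : ℕ) (x : Vtx d), x ∈ box d n → height ℓ x ≤ δ * lev ℓ x + D * n)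
    {κ Θ M C : ℝ} (hκ : 0 < κ) (hq : ∀ (ω : Set (Edge d)) (N : ℕ),
      ∫ x, height ℓ x ∂(lawAt ℓ lam ω N) + κ * visits ℓ lam ω N ≤
        Θ * N + M * errBound ℓ lam N + C)
    {p : I} (hp : criticalParam d < p) {v : Fin d → ℝ} (hv : IsVelocity ℓ lam p v) :
    (1 + κ * ((1 / 2) ^ d * (1 - (p : ℝ))) / δ) * ∑ j, v j * ℓ j ≤
      Θ + κ * ((1 / 2) ^ d * (1 - (p : ℝ))) / δ * D := by
  classical
  set P := percolation d p with hP
  set S := zeroInfinite d with hS
  set V := ∑ j, v j * ℓ j with hV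
  set cp := (1 / 2 : ℝ) ^ d * (1 - (p : ℝ)) with hcp
  have hcp0 : 0 ≤ cp := mul_nonneg (by positivity) (by linarith [p.2.2])
  have hSm : MeasurableSet S := measurableSet_zeroInfinite
  set s := P.real S with hs
  have hs0 : 0 < s := by
    rw [hs, measureReal_def]
    exact ENNReal.toReal_pos (percolation_ne_zero hp) (measure_ne_top _ _)
  -- the expected heights on the event `S`
  set F : ℕ → ℝ := fun n => ∫ ω in S, eh ℓ lam n ω ∂P with hF
  have hFlim : Tendsto (fun n : ℕ => F n / n) atTop (𝓝 (V * s)) := by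
    have h1 : ∀ n : ℕ, F n / n = ∫ ω in S, eh ℓ lam n ω / n ∂P := fun n => by
      rw [integral_div]
    simp_rw [h1]
    have h2 : V * s = ∫ _ω in S, V ∂P := by
      rw [setIntegral_const, smul_eq_mul, mul_comm]
    rw [h2]
    refine tendsto_integral_of_dominated_convergence (fun _ => ∑ j, |ℓ j|) ?_
      (integrable_const _) ?_ ?_
    · intro n
      exact ((eh_depOn ℓ lam n).measurable.div_const _).aestronglyMeasurable
    · intro n
      exact ae_of_all _ fun ω => by
        rw [Real.norm_eq_abs]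
        exact abs_eh_div_le ℓ lam n ω
    · filter_upwards [ae_of_isVelocity ℓ lam hv] with ω hω
      exact tendsto_integral_height ℓ lam ω hω
  -- the records on the complement of `S`
  set I3 : ℕ → ℝ := fun N => ∫ ω in Sᶜ, recSum ℓ lam ω N ∂P with hI3
  have hI3lim : Tendsto (fun N : ℕ => I3 N / (N + 1)) atTop (𝓝 0) := by
    have h1 : ∀ N : ℕ, I3 N / (N + 1) = ∫ ω in Sᶜ, recSum ℓ lam ω N / (N + 1) ∂P := fun N => by
      rw [integral_div]
    simp_rw [h1]
    have h2 : (0 : ℝ) = ∫ _ω in Sᶜ, (0 : ℝ) ∂P := by simp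
    rw [h2]
    refine tendsto_integral_of_dominated_convergence (fun _ => 1) ?_
      (integrable_const _) ?_ ?_
    · intro N
      obtain ⟨T, hT⟩ := recSum_depOn ℓ lam N
      exact (hT.measurable.div_const _).aestronglyMeasurable
    · intro N
      refine ae_of_all _ fun ω => ?_
      have hN : (0 : ℝ) < N + 1 := by positivity
      rw [Real.norm_eq_abs, abs_div, abs_of_pos hN, abs_of_nonneg (recSum_nonneg ..),
        div_le_one hN]
      linarith [recSum_le ℓ lam ω N]
    · filter_upwards [ae_restrict_mem hSm.compl] with ω hω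
      have hfin : {x | (openGraph ω).Reachable 0 x}.Finite := by
        by_contra h
        exact hω h
      set c : ℝ := (({x | (openGraph ω).Reachable 0 x}.ncard : ℕ) : ℝ) with hc
      have h3 : Tendsto (fun N : ℕ => c / (N + 1)) atTop (𝓝 0) :=
        tendsto_const_div_atTop_nhds_zero_nat c |>.comp (tendsto_add_atTop_nat 1) |>.congr
          fun N => by simp
      refine tendsto_of_tendsto_of_tendsto_of_le_of_le tendsto_const_nhds h3 ?_ ?_
      · intro N
        exact div_nonneg (recSum_nonneg ..) (by positivity)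
      · intro N
        exact div_le_div_of_nonneg_right (recSum_le_ncard ℓ lam ω hfin N) (by positivity)
  -- the inequality for each `N`
  set E : ℕ → ℝ := fun N => Θ * ((N + 1 : ℕ) : ℝ)
    + M * errBound ℓ lam (N + 1) + C with hE
  have hmain : ∀ N : ℕ, F (N + 1) + κ * cp / δ * (F N - D * N * s) - κ * I3 N ≤ E N * s := by
    intro N
    obtain ⟨T1, hT1⟩ := recSum_depOn ℓ lam N
    obtain ⟨T2, hT2⟩ := recUnb_depOn ℓ lam N
    have i1 : Integrable (fun ω => recSum ℓ lam ω N) P := hT1.integrable P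
    have i2 : Integrable (fun ω => recUnb ℓ lam ω N) P := hT2.integrable P
    have i3 : Integrable (fun ω => eh ℓ lam (N + 1) ω) P := (eh_depOn ℓ lam (N + 1)).integrable P
    have i4 : Integrable (fun ω => eh ℓ lam N ω) P := (eh_depOn ℓ lam N).integrable P
    have h1 : ∀ ω, eh ℓ lam (N + 1) ω + κ * recUnb ℓ lam ω N ≤ E N := by
      intro ω
      have := hq ω (N + 1)
      have h2 := mul_le_mul_of_nonneg_left (recUnb_le_visits ℓ lam ω N) hκ.le
      simp only [hE]
      unfold eh
      linarith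
    have h2 : F (N + 1) + κ * ∫ ω in S, recUnb ℓ lam ω N ∂P ≤ E N * s := by
      have h3 : ∫ ω in S, (eh ℓ lam (N + 1) ω + κ * recUnb ℓ lam ω N) ∂P ≤
          ∫ _ω in S, E N ∂P :=
        integral_mono ((i3.add (i2.const_mul κ)).restrict) (integrable_const _) h1
      rw [integral_add i3.restrict (i2.const_mul κ).restrict, integral_const_mul,
        setIntegral_const, smul_eq_mul] at h3
      linarith
    have h3 := integral_recUnb_ge ℓ lam hd p N
    have h4 : ∫ ω in S, recUnb ℓ lam ω N ∂P + ∫ ω in Sᶜ, recUnb ℓ lam ω N ∂P =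
        ∫ ω, recUnb ℓ lam ω N ∂P := integral_add_compl hSm i2
    have h5 : ∫ ω in S, recSum ℓ lam ω N ∂P + ∫ ω in Sᶜ, recSum ℓ lam ω N ∂P =
        ∫ ω, recSum ℓ lam ω N ∂P := integral_add_compl hSm i1
    have h6 : ∫ ω in Sᶜ, recUnb ℓ lam ω N ∂P ≤ I3 N :=
      integral_mono i2.restrict i1.restrict fun ω => recUnb_le_recSum ..
    have h7 : 0 ≤ ∫ ω in Sᶜ, recSum ℓ lam ω N ∂P :=
      integral_nonneg fun ω => recSum_nonneg ..
    have h8 : (F N - D * N * s) / δ ≤ ∫ ω in S, recSum ℓ lam ω N ∂P := by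
      have h9 : (F N - D * N * s) / δ = ∫ ω in S, (eh ℓ lam N ω - D * N) / δ ∂P := by
        rw [integral_div, integral_sub i4.restrict (integrable_const _), setIntegral_const,
          smul_eq_mul]
        congr 2
        ring
      rw [h9]
      refine integral_mono ((i4.restrict.sub (integrable_const _)).div_const _) i1.restrict
        fun ω => ?_
      refine le_trans ?_ (integral_lev_le ℓ lam ω N)
      simp only [eh]
      rw [div_le_iff₀ hδ, sub_le_iff_le_add]
      have h10 : ∫ x, height ℓ x ∂(lawAt ℓ lam ω N) ≤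
          ∫ x, (δ * (lev ℓ x : ℝ) + D * N) ∂(lawAt ℓ lam ω N) := by
        refine integral_mono_ae (integrable_lawAt ..) (integrable_lawAt ..) ?_
        filter_upwards [ae_lawAt ℓ lam ω N] with x hx
        exact hlev N x hx
      rw [integral_add (integrable_lawAt ..) (integrable_const _), integral_const_mul] at h10
      simp only [integral_const, probReal_univ, one_smul] at h10
      linarith
    have h9 : cp * ((F N - D * N * s) / δ) ≤ ∫ ω, recUnb ℓ lam ω N ∂P := by
      refine le_trans ?_ h3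
      rw [← hcp]
      refine mul_le_mul_of_nonneg_left ?_ hcp0
      linarith
    have h10 : cp * ((F N - D * N * s) / δ) - I3 N ≤ ∫ ω in S, recUnb ℓ lam ω N ∂P := by
      linarith
    have h11 := mul_le_mul_of_nonneg_left h10 hκ.le
    have h12 : κ * (cp * ((F N - D * N * s) / δ) - I3 N) =
        κ * cp / δ * (F N - D * N * s) - κ * I3 N := by ring
    linarith
  -- the limits
  have t1 : Tendsto (fun N : ℕ => F (N + 1) / (N + 1)) atTop (𝓝 (V * s)) := by
    have := hFlim.comp (tendsto_add_atTop_nat 1)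
    refine this.congr fun N => ?_
    simp
  have t0 : Tendsto (fun N : ℕ => (N : ℝ) / (N + 1)) atTop (𝓝 1) :=
    tendsto_natCast_div_add_atTop (1 : ℝ)
  have t2 : Tendsto (fun N : ℕ => F N / (N + 1)) atTop (𝓝 (V * s)) := by
    have h1 : Tendsto (fun N : ℕ => F N / N * ((N : ℝ) / (N + 1))) atTop (𝓝 (V * s * 1)) :=
      hFlim.mul t0
    rw [mul_one] at h1
    refine h1.congr' ?_
    filter_upwards [eventually_ge_atTop 1] with N hN
    have : (N : ℝ) ≠ 0 := by positivity
    field_simp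
  have t3 : Tendsto (fun N : ℕ => E N / (N + 1)) atTop (𝓝 Θ) := by
    have h1 := (tendsto_errBound ℓ lam).comp (tendsto_add_atTop_nat 1)
    have h2 : Tendsto (fun N : ℕ => C / ((N : ℝ) + 1)) atTop (𝓝 0) :=
      tendsto_const_div_atTop_nhds_zero_nat C |>.comp (tendsto_add_atTop_nat 1) |>.congr
        fun N => by simp
    have h3 : Tendsto (fun N : ℕ => Θ + M *
        (errBound ℓ lam (N + 1) / ((N : ℝ) + 1)) + C / ((N : ℝ) + 1)) atTop
        (𝓝 (Θ + M * 0 + 0)) := by
      refine ((Tendsto.const_mul _ (h1.congr fun N => ?_)).const_add _).add h2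
      simp
    rw [mul_zero, add_zero, add_zero] at h3
    refine h3.congr fun N => ?_
    simp only [hE]
    have : (N : ℝ) + 1 ≠ 0 := by positivity
    push_cast
    field_simp
  have hlim : V * s + κ * cp / δ * (V * s - D * s * 1) - κ * 0 ≤ Θ * s := by
    refine le_of_tendsto_of_tendsto' ((t1.add ((t2.sub (t0.const_mul (D * s))).const_mul
      (κ * cp / δ))).sub (hI3lim.const_mul κ)) (t3.mul_const s) fun N => ?_
    have hN : (0 : ℝ) < N + 1 := by positivity
    have := div_le_div_of_nonneg_right (hmain N) hN.le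
    refine le_trans (le_of_eq ?_) (this.trans (le_of_eq ?_))
    · field_simp
    · field_simp
  have hfin : ((1 + κ * cp / δ) * V) * s ≤ (Θ + κ * cp / δ * D) * s := by linarith
  exact le_of_mul_le_mul_right hfin hs0

/-- The sum of the weights on the full lattice. -/
noncomputable def fullTotal : ℝ := ∑ j, (av ℓ lam j + (av ℓ lam j)⁻¹)

/-- The speed on the full lattice. -/
noncomputable def fullVel : ℝ := (∑ j, ℓ j * (av ℓ lam j - (av ℓ lam j)⁻¹)) / fullTotal ℓ lam

lemma fullTotal_pos (hd : 0 < d) : 0 < fullTotal ℓ lam := by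
  have : Nonempty (Fin d) := ⟨⟨0, hd⟩⟩
  refine Finset.sum_pos (fun j _ => ?_) Finset.univ_nonempty
  have := av_pos ℓ lam j
  positivity

/-- On the full lattice the drift of the height is constant. -/
lemma drift_height_full (x : Vtx d) :
    drift ℓ lam Set.univ (height ℓ) x = fullVel ℓ lam := by
  have htot : total ℓ lam Set.univ x = fullTotal ℓ lam := by
    unfold total fullTotal
    rw [Fintype.sum_prod_type]
    simp only [Fintype.sum_bool, weight_up, weight_down, openInd_univ, one_mul]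
  unfold drift fullVel
  rw [htot, Fintype.sum_prod_type]
  simp only [Fintype.sum_bool, weight_up, weight_down, openInd_univ, one_mul, nbr, if_true,
    Bool.false_eq_true, if_false]
  have h1 : ∀ j, height ℓ (x - basisVec j) - height ℓ x = - ℓ j := by
    intro j
    have := height_add ℓ (x - basisVec j) j
    rw [sub_add_cancel] at this
    linarith
  simp_rw [height_add, h1]
  rw [Finset.sum_div]
  refine Finset.sum_congr rfl fun j _ => ?_
  ring

/-- The velocity on the full lattice. -/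
lemma velocity_full {v : Fin d → ℝ}
    (hv : ∀ᵐ X ∂(quenched ℓ lam Set.univ), ∀ j,
      Tendsto (fun n : ℕ => (X n j : ℝ) / n) atTop (𝓝 (v j))) :
    ∑ j, v j * ℓ j = fullVel ℓ lam := by
  have h1 := tendsto_integral_height ℓ lam Set.univ hv
  have h2 : ∀ n : ℕ, ∫ x, height ℓ x ∂(lawAt ℓ lam Set.univ n) = n * fullVel ℓ lam := by
    intro n
    induction n with
    | zero => simp [lawAt_zero, integral_dirac, height_zero]
    | succ n ih =>
      rw [integral_lawAt_succ, ih]
      simp_rw [drift_height_full ℓ lam]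
      rw [tsum_mul_right, sum_pr]
      push_cast
      ring
  refine tendsto_nhds_unique h1 ?_
  refine (tendsto_const_nhds (x := fullVel ℓ lam)).congr' ?_
  filter_upwards [eventually_ge_atTop 1] with n hn
  have hn0 : (n : ℝ) ≠ 0 := by positivity
  rw [h2]
  field_simp

lemma speed_full (hp1 : criticalParam d < 1) {v₁ : Fin d → ℝ} (hv₁ : IsVelocity ℓ lam 1 v₁) :
    ∑ j, v₁ j * ℓ j = fullVel ℓ lam := by
  have hp1' : criticalParam d < ((1 : I) : ℝ) := hp1
  have : NeBot (ae (ProbabilityTheory.cond (percolation d 1) (zeroInfinite d))) :=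
    ae_neBot.2 (cond_ne_zero hp1')
  have h3 : ∀ᵐ ω ∂(ProbabilityTheory.cond (percolation d 1) (zeroInfinite d)),
      ω = Set.univ := by
    have h4 : ∀ᵐ ω ∂(percolation d 1), ω = Set.univ := by
      unfold percolation
      rw [setBernoulli_one, ae_dirac_eq]
      rfl
    unfold ProbabilityTheory.cond
    exact Measure.ae_smul_measure (ae_restrict_of_ae h4) _
  obtain ⟨ω, hω, rfl⟩ := (hv₁.and h3).exists
  exact velocity_full ℓ lam hω

/-- The speed on the full lattice is bounded below, uniformly in the direction. -/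
lemma fullVel_ge (hd : 0 < d) (hlam : 0 < lam) (hunit : ∑ j, ℓ j ^ 2 = 1)
    (hℓ1 : ∀ j, |ℓ j| ≤ 1) : lam / (d * Real.exp lam) ≤ fullVel ℓ lam := by
  have hd0 : (0 : ℝ) < d := by exact_mod_cast hd
  have hA0 : 0 < Real.exp lam := Real.exp_pos _
  unfold fullVel
  rw [div_le_div_iff₀ (by positivity) (fullTotal_pos ℓ lam hd)]
  have h1 : fullTotal ℓ lam ≤ 2 * d * Real.exp lam := by
    unfold fullTotal
    have : ∀ j ∈ (Finset.univ : Finset (Fin d)), av ℓ lam j + (av ℓ lam j)⁻¹ ≤
        2 * Real.exp lam := by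
      intro j _
      obtain ⟨b1, b2, -, -⟩ := av_bounds_one ℓ lam hlam hℓ1 j
      linarith
    refine (Finset.sum_le_sum this).trans (le_of_eq ?_)
    rw [Finset.sum_const, Finset.card_univ, Fintype.card_fin, nsmul_eq_mul]
    ring
  have h2 : 2 * lam ≤ ∑ j, ℓ j * (av ℓ lam j - (av ℓ lam j)⁻¹) := by
    have h3 : ∀ j ∈ (Finset.univ : Finset (Fin d)), 2 * lam * ℓ j ^ 2 ≤
        ℓ j * (av ℓ lam j - (av ℓ lam j)⁻¹) := by
      intro j _
      have h4 : av ℓ lam j - (av ℓ lam j)⁻¹ = 2 * Real.sinh (lam * ℓ j) := by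
        unfold av
        rw [Real.sinh_eq, Real.exp_neg]
        ring
      rw [h4]
      rcases le_total 0 (ℓ j) with h | h
      · have h5 : lam * ℓ j ≤ Real.sinh (lam * ℓ j) :=
          Real.self_le_sinh_iff.2 (mul_nonneg hlam.le h)
        nlinarith
      · have h5 : Real.sinh (lam * ℓ j) ≤ lam * ℓ j :=
          Real.sinh_le_self_iff.2 (mul_nonpos_of_nonneg_of_nonpos hlam.le h)
        nlinarith
    have h4 := Finset.sum_le_sum h3
    rw [← Finset.mul_sum, hunit, mul_one] at h4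
    exact h4
  have h5 := mul_le_mul_of_nonneg_left h1 hlam.le
  have h6 := mul_le_mul_of_nonneg_right h2 (show 0 ≤ d * Real.exp lam by positivity)
  linarith

/-- The speed on the full lattice is at least the one of the diagonal direction, up to an
error. -/
lemma fullVel_near (hd : 0 < d) {δ ε : ℝ} (hδ : 0 < δ) (hδ1 : δ ≤ 1) (hlam : 0 < lam)
    (hℓ1 : ∀ j, |ℓ j| ≤ 1) (hε : ∀ j, |ℓ j - δ * sg ℓ j| ≤ ε) :
    fullSpeed lam δ ≤ fullVel ℓ lam + edgeC lam δ * ε := by
  have hT := fullTotal_pos ℓ lam hd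
  have h1 : (fullSpeed lam δ - edgeC lam δ * ε) * fullTotal ℓ lam ≤
      ∑ j, ℓ j * (av ℓ lam j - (av ℓ lam j)⁻¹) := by
    unfold fullTotal
    rw [Finset.mul_sum]
    refine Finset.sum_le_sum fun j _ => ?_
    have := (abs_le.1 (edge_near ℓ lam hδ hδ1 hlam hℓ1 hε j zero_le_one zero_le_one)).1
    simp only [mul_one, sub_self, mul_zero, sub_zero] at this
    linarith
  have h2 : fullSpeed lam δ - edgeC lam δ * ε ≤ fullVel ℓ lam := by
    unfold fullVel
    rwa [le_div_iff₀ hT]
  linarith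

/-- The coordinates of a unit vector are close to the ones of a diagonal vector, if their
absolute values are close to each other. -/
lemma near_of_osc (hd : 0 < d) (hunit : ∑ j, ℓ j ^ 2 = 1) {ε : ℝ}
    (hosc : ∀ i j, |ℓ i| - |ℓ j| ≤ ε) (j : Fin d) :
    |ℓ j - (1 / Real.sqrt d) * sg ℓ j| ≤ ε := by
  set δ := 1 / Real.sqrt d with hδ
  have hd0 : (0 : ℝ) < d := by exact_mod_cast hd
  have hs : 0 < Real.sqrt d := Real.sqrt_pos.2 hd0
  have hδ0 : 0 < δ := by positivity
  have hδ2 : (d : ℝ) * δ ^ 2 = 1 := by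
    rw [hδ, div_pow, Real.sq_sqrt hd0.le]
    field_simp
  have : Nonempty (Fin d) := ⟨⟨0, hd⟩⟩
  have hup : ∃ i, δ ≤ |ℓ i| := by
    by_contra hcon
    push Not at hcon
    have : ∑ j, ℓ j ^ 2 < ∑ _j : Fin d, δ ^ 2 := by
      refine Finset.sum_lt_sum_of_nonempty Finset.univ_nonempty fun i _ => ?_
      rw [← sq_abs]
      exact pow_lt_pow_left₀ (hcon i) (abs_nonneg _) two_ne_zero
    rw [hunit, Finset.sum_const, Finset.card_univ, Fintype.card_fin, nsmul_eq_mul, hδ2] at this
    exact lt_irrefl _ this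
  have hlow : ∃ i, |ℓ i| ≤ δ := by
    by_contra hcon
    push Not at hcon
    have : ∑ _j : Fin d, δ ^ 2 < ∑ j, ℓ j ^ 2 := by
      refine Finset.sum_lt_sum_of_nonempty Finset.univ_nonempty fun i _ => ?_
      rw [← sq_abs (ℓ i)]
      exact pow_lt_pow_left₀ (hcon i) hδ0.le two_ne_zero
    rw [hunit, Finset.sum_const, Finset.card_univ, Fintype.card_fin, nsmul_eq_mul, hδ2] at this
    exact lt_irrefl _ this
  obtain ⟨i₁, h1⟩ := hup
  obtain ⟨i₂, h2⟩ := hlow
  have h3 := hosc i₁ j
  have h4 := hosc j i₂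
  have h5 : |ℓ j - δ * sg ℓ j| = |(|ℓ j|) - δ| := by
    unfold sg
    split_ifs with h
    · rw [abs_of_pos h]; simp
    · rw [abs_of_nonpos (not_lt.1 h)]
      push_cast
      rw [mul_neg_one, sub_neg_eq_add, ← abs_neg]
      congr 1
      ring
  rw [h5, abs_le]
  constructor <;> linarith

/-- The comparison of the speeds at `p` and at `1` for all directions, with an error that is
linear in the distance to the diagonal directions. -/
theorem near_diagonal_speed (hd : 0 < d) {lam : ℝ} (hlam : 0 < lam) :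
    ∃ κ > 0, ∃ C > 0, ∃ c > 0, ∀ (ℓ : Fin d → ℝ), ∑ j, ℓ j ^ 2 = 1 →
      ∀ ε : ℝ, (∀ i j, |ℓ i| - |ℓ j| ≤ ε) →
      ∀ (p : I), criticalParam d < p → ∀ v v₁ : Fin d → ℝ,
      IsVelocity ℓ lam p v → IsVelocity ℓ lam 1 v₁ →
        0 < ∑ j, v₁ j * ℓ j ∧
        (1 + κ * (1 - (p : ℝ))) * ∑ j, v j * ℓ j ≤ ∑ j, v₁ j * ℓ j + C * ε ∧
        (ε < c * (1 - (p : ℝ)) → ∑ j, v j * ℓ j < ∑ j, v₁ j * ℓ j) := by
  have hd0 : (0 : ℝ) < d := by exact_mod_cast hd
  have hd1 : (1 : ℝ) ≤ d := by exact_mod_cast hd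
  have hs : 0 < Real.sqrt d := Real.sqrt_pos.2 hd0
  set δ := 1 / Real.sqrt d with hδdef
  have hδ : 0 < δ := by positivity
  have hδ1 : δ ≤ 1 := by
    rw [hδdef, div_le_one hs]
    exact Real.one_le_sqrt.2 hd1
  obtain ⟨κ, hκ, C₁, hC₁, C, hq⟩ := quenched_near hd hδ hδ1 hlam
  have hL := edgeC_pos hδ hlam
  set κ' := κ * (1 / 2) ^ d / δ with hκ'
  have hκ'0 : 0 < κ' := by positivity
  set C' := edgeC lam δ + C₁ + κ' * d with hC'
  have hC'0 : 0 < C' := by positivity
  set m := lam / (d * Real.exp lam) with hm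
  have hm0 : 0 < m := by positivity
  refine ⟨κ', hκ'0, C', hC'0, κ' * m / C', by positivity,
    fun ℓ hunit ε hosc p hp v v₁ hv hv₁ => ?_⟩
  have hp1 : criticalParam d < 1 := lt_of_lt_of_le hp p.2.2
  have hp0 : 0 ≤ 1 - (p : ℝ) := by linarith [p.2.2]
  have hp2 : 1 - (p : ℝ) ≤ 1 := by linarith [p.2.1]
  have hℓ1 : ∀ j, |ℓ j| ≤ 1 := by
    intro j
    rw [← sq_le_one_iff_abs_le_one, ← hunit]
    exact Finset.single_le_sum (f := fun j => ℓ j ^ 2) (fun i _ => sq_nonneg _)
      (Finset.mem_univ j)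
  have hε0 : 0 ≤ ε := by
    have := hosc ⟨0, hd⟩ ⟨0, hd⟩
    linarith
  have hε := near_of_osc ℓ hd hunit hosc
  rw [← hδdef] at hε
  rw [speed_full ℓ lam hp1 hv₁]
  have hm1 : m ≤ fullVel ℓ lam := fullVel_ge ℓ lam hd hlam hunit hℓ1
  have h1 := speed_near ℓ lam hd hδ (D := d * ε)
    (fun n x hx => height_le_lev ℓ hε hx) hκ (hq ℓ hℓ1 ε hε0 hε) hp hv
  have h2 : κ * ((1 / 2) ^ d * (1 - (p : ℝ))) / δ = κ' * (1 - (p : ℝ)) := by
    rw [hκ']; ring
  rw [h2] at h1
  have h3 := fullVel_near ℓ lam hd hδ hδ1 hlam hℓ1 hε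
  have h4 : κ' * (1 - (p : ℝ)) * (d * ε) ≤ κ' * d * ε := by
    have : κ' * (1 - (p : ℝ)) * (d * ε) = κ' * d * ε * (1 - (p : ℝ)) := by ring
    rw [this]
    have h5 : 0 ≤ κ' * d * ε := by positivity
    nlinarith
  have hmain : (1 + κ' * (1 - (p : ℝ))) * ∑ j, v j * ℓ j ≤ fullVel ℓ lam + C' * ε := by
    have : C' * ε = edgeC lam δ * ε + C₁ * ε + κ' * d * ε := by rw [hC']; ring
    rw [this]
    linarith
  refine ⟨lt_of_lt_of_le hm0 hm1, hmain, fun hlt => ?_⟩
  have h5 : C' * ε < κ' * m * (1 - (p : ℝ)) := by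
    have h6 := mul_lt_mul_of_pos_left hlt hC'0
    have h7 : C' * (κ' * m / C' * (1 - (p : ℝ))) = κ' * m * (1 - (p : ℝ)) := by
      field_simp
    rwa [h7] at h6
  have h6 : κ' * m * (1 - (p : ℝ)) ≤ κ' * (1 - (p : ℝ)) * fullVel ℓ lam := by
    have := mul_le_mul_of_nonneg_left hm1 (mul_nonneg hκ'0.le hp0)
    linarith
  have h7 : 0 < 1 + κ' * (1 - (p : ℝ)) := by
    have := mul_nonneg hκ'0.le hp0
    linarith
  have h8 : (1 + κ' * (1 - (p : ℝ))) * ∑ j, v j * ℓ j <
      (1 + κ' * (1 - (p : ℝ))) * fullVel ℓ lam := by linarith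
  exact lt_of_mul_lt_mul_left h8 h7.le

end Pool.Agent.P2ec0f3
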