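import Pool.Agent.Lib.P2ec0f3n.Dec

/-!
# Bias directions near a diagonal: the comparison of the speeds for all parameters
-/

open MeasureTheory ProbabilityTheory Filter Topology Function
open scoped unitInterval ENNReal

namespace Pool.Agent.P2ec0f3

variable {d : ℕ} (ℓ : Fin d → ℝ) (lam : ℝ)

/-- The comparison with a gain at the records and a loss at the first visits of defective
vertices. -/
theorem speed_unif (hd : 0 < d) {δ D : ℝ} (hδ : 0 < δ)
    (hlev : ∀ (n : ℕ) (x : Vtx d), x ∈ box d n → height ℓ x ≤ δ * lev ℓ x + D * n)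
    {κ Θ B M C : ℝ} (hκ : 0 < κ) (hB : 0 ≤ B) (hq : ∀ (ω : Set (Edge d)) (N : ℕ),
      ∫ x, height ℓ x ∂(lawAt ℓ lam ω N) + κ * visits ℓ lam ω N ≤
        Θ * N + B * dfcHit ℓ lam ω N + M * errBound ℓ lam N + C)
    {p : I} (hp : criticalParam d < p) {v : Fin d → ℝ} (hv : IsVelocity ℓ lam p v) :
    (1 + κ * ((1 / 2) ^ d * (1 - (p : ℝ))) / δ) * ∑ j, v j * ℓ j ≤
      Θ + κ * ((1 / 2) ^ d * (1 - (p : ℝ))) / δ * D + B * (4 * d * (1 - (p : ℝ))) := by
  classical
  set P := percolation d p with hP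
  set S := zeroInfinite d with hS
  set V := ∑ j, v j * ℓ j with hV
  set cp := (1 / 2 : ℝ) ^ d * (1 - (p : ℝ)) with hcp
  set cq := 4 * d * (1 - (p : ℝ)) with hcq
  have hp0 : 0 ≤ 1 - (p : ℝ) := by linarith [p.2.2]
  have hcp0 : 0 ≤ cp := mul_nonneg (by positivity) hp0
  have hcq0 : 0 ≤ cq := mul_nonneg (by positivity) hp0
  have hSm : MeasurableSet S := measurableSet_zeroInfinite
  set s := P.real S with hs
  have hs0 : 0 < s := by
    rw [hs, measureReal_def]
    exact ENNReal.toReal_pos (percolation_ne_zero hp) (measure_ne_top _ _)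
  -- the expected heights on the event `S`
  set F : ℕ → ℝ := fun n => ∫ ω in S, eh ℓ lam n ω ∂P with hF
  have hFlim : Tendsto (fun n : ℕ => F n / n) atTop (𝓝 (V * s)) := by
    have h1 : ∀ n : ℕ, F n / n = ∫ ω in S, eh ℓ lam n ω / n ∂P := fun n => by
      rw [integral_div]
    simp_rw [h1]
    have h2 : V * s = ∫ _ω in S, V ∂P := by
      rw [setIntegral_const, smul_eq_mul, mul_comm]
    rw [h2]
    refine tendsto_integral_of_dominated_convergence (fun _ => ∑ j, |ℓ j|) ?_
      (integrable_const _) ?_ ?_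
    · intro n
      exact ((eh_depOn ℓ lam n).measurable.div_const _).aestronglyMeasurable
    · intro n
      exact ae_of_all _ fun ω => by
        rw [Real.norm_eq_abs]
        exact abs_eh_div_le ℓ lam n ω
    · filter_upwards [ae_of_isVelocity ℓ lam hv] with ω hω
      exact tendsto_integral_height ℓ lam ω hω
  -- the records on the complement of `S`
  set I3 : ℕ → ℝ := fun N => ∫ ω in Sᶜ, recSum ℓ lam ω N ∂P with hI3
  have hI3lim : Tendsto (fun N : ℕ => I3 N / (N + 1)) atTop (𝓝 0) := by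
    have h1 : ∀ N : ℕ, I3 N / (N + 1) = ∫ ω in Sᶜ, recSum ℓ lam ω N / (N + 1) ∂P := fun N => by
      rw [integral_div]
    simp_rw [h1]
    have h2 : (0 : ℝ) = ∫ _ω in Sᶜ, (0 : ℝ) ∂P := by simp
    rw [h2]
    refine tendsto_integral_of_dominated_convergence (fun _ => 1) ?_
      (integrable_const _) ?_ ?_
    · intro N
      obtain ⟨T, hT⟩ := recSum_depOn ℓ lam N
      exact (hT.measurable.div_const _).aestronglyMeasurable
    · intro N
      refine ae_of_all _ fun ω => ?_
      have hN : (0 : ℝ) < N + 1 := by positivity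
      rw [Real.norm_eq_abs, abs_div, abs_of_pos hN, abs_of_nonneg (recSum_nonneg ..),
        div_le_one hN]
      linarith [recSum_le ℓ lam ω N]
    · filter_upwards [ae_restrict_mem hSm.compl] with ω hω
      have hfin : {x | (openGraph ω).Reachable 0 x}.Finite := by
        by_contra h
        exact hω h
      set c : ℝ := (({x | (openGraph ω).Reachable 0 x}.ncard : ℕ) : ℝ) with hc
      have h3 : Tendsto (fun N : ℕ => c / (N + 1)) atTop (𝓝 0) :=
        tendsto_const_div_atTop_nhds_zero_nat c |>.comp (tendsto_add_atTop_nat 1) |>.congr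
          fun N => by simp
      refine tendsto_of_tendsto_of_tendsto_of_le_of_le tendsto_const_nhds h3 ?_ ?_
      · intro N
        exact div_nonneg (recSum_nonneg ..) (by positivity)
      · intro N
        exact div_le_div_of_nonneg_right (recSum_le_ncard ℓ lam ω hfin N) (by positivity)
  -- the visited vertices on the complement of `S`
  set I4 : ℕ → ℝ := fun N => ∫ ω in Sᶜ, sumHit ℓ lam ω (N + 1) ∂P with hI4
  have hI4lim : Tendsto (fun N : ℕ => I4 N / (N + 1)) atTop (𝓝 0) := by
    have h1 : ∀ N : ℕ, I4 N / (N + 1) = ∫ ω in Sᶜ, sumHit ℓ lam ω (N + 1) / (N + 1) ∂P :=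
      fun N => by rw [integral_div]
    simp_rw [h1]
    have h2 : (0 : ℝ) = ∫ _ω in Sᶜ, (0 : ℝ) ∂P := by simp
    rw [h2]
    refine tendsto_integral_of_dominated_convergence (fun _ => 1) ?_
      (integrable_const _) ?_ ?_
    · intro N
      exact ((sumHit_depOn ℓ lam (N + 1)).measurable.div_const _).aestronglyMeasurable
    · intro N
      refine ae_of_all _ fun ω => ?_
      have hN : (0 : ℝ) < N + 1 := by positivity
      rw [Real.norm_eq_abs, abs_div, abs_of_pos hN, abs_of_nonneg (sumHit_nonneg ..),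
        div_le_one hN]
      have := sumHit_le ℓ lam ω (N + 1)
      push_cast at this
      exact this
    · filter_upwards [ae_restrict_mem hSm.compl] with ω hω
      have hfin : {x | (openGraph ω).Reachable 0 x}.Finite := by
        by_contra h
        exact hω h
      set c : ℝ := (({x | (openGraph ω).Reachable 0 x}.ncard : ℕ) : ℝ) with hc
      have h3 : Tendsto (fun N : ℕ => c / (N + 1)) atTop (𝓝 0) :=
        tendsto_const_div_atTop_nhds_zero_nat c |>.comp (tendsto_add_atTop_nat 1) |>.congr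
          fun N => by simp
      refine tendsto_of_tendsto_of_tendsto_of_le_of_le tendsto_const_nhds h3 ?_ ?_
      · intro N
        exact div_nonneg (sumHit_nonneg ..) (by positivity)
      · intro N
        exact div_le_div_of_nonneg_right (sumHit_le_ncard ℓ lam hfin (N + 1)) (by positivity)
  -- the inequality for each `N`
  set E : ℕ → ℝ := fun N => Θ * ((N + 1 : ℕ) : ℝ)
    + M * errBound ℓ lam (N + 1) + C with hE
  have hmain : ∀ N : ℕ, F (N + 1) + κ * cp / δ * (F N - D * N * s) - κ * I3 N ≤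
      E N * s + B * cq * ((N + 1) * s + I4 N) := by
    intro N
    obtain ⟨T1, hT1⟩ := recSum_depOn ℓ lam N
    obtain ⟨T2, hT2⟩ := recUnb_depOn ℓ lam N
    have i1 : Integrable (fun ω => recSum ℓ lam ω N) P := hT1.integrable P
    have i2 : Integrable (fun ω => recUnb ℓ lam ω N) P := hT2.integrable P
    have i3 : Integrable (fun ω => eh ℓ lam (N + 1) ω) P := (eh_depOn ℓ lam (N + 1)).integrable P
    have i4 : Integrable (fun ω => eh ℓ lam N ω) P := (eh_depOn ℓ lam N).integrable P
    have i5 : Integrable (fun ω => dfcHit ℓ lam ω (N + 1)) P :=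
      (dfcHit_depOn ℓ lam (N + 1)).integrable P
    have i6 : Integrable (fun ω => sumHit ℓ lam ω (N + 1)) P :=
      (sumHit_depOn ℓ lam (N + 1)).integrable P
    have h1 : ∀ ω, eh ℓ lam (N + 1) ω + κ * recUnb ℓ lam ω N ≤
        E N + B * dfcHit ℓ lam ω (N + 1) := by
      intro ω
      have := hq ω (N + 1)
      have h2 := mul_le_mul_of_nonneg_left (recUnb_le_visits ℓ lam ω N) hκ.le
      simp only [hE]
      unfold eh
      linarith
    -- the loss
    have h0 : ∫ ω in S, dfcHit ℓ lam ω (N + 1) ∂P ≤ cq * ((N + 1) * s + I4 N) := by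
      have e1 : ∫ ω in S, dfcHit ℓ lam ω (N + 1) ∂P ≤ ∫ ω, dfcHit ℓ lam ω (N + 1) ∂P :=
        setIntegral_le_integral i5 (ae_of_all _ fun ω => dfcHit_nonneg ..)
      have e2 := integral_dfcHit_le ℓ lam p (N + 1)
      rw [← hP, ← hcq] at e2
      have e3 : ∫ ω in S, sumHit ℓ lam ω (N + 1) ∂P + ∫ ω in Sᶜ, sumHit ℓ lam ω (N + 1) ∂P =
        ∫ ω, sumHit ℓ lam ω (N + 1) ∂P := integral_add_compl hSm i6
      have e4 : ∫ ω in S, sumHit ℓ lam ω (N + 1) ∂P ≤ (N + 1) * s := by
        have e5 : ∫ ω in S, sumHit ℓ lam ω (N + 1) ∂P ≤ ∫ _ω in S, ((N : ℝ) + 1) ∂P := by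
          refine integral_mono i6.restrict (integrable_const _) fun ω => ?_
          have := sumHit_le ℓ lam ω (N + 1)
          push_cast at this
          exact this
        rw [setIntegral_const, smul_eq_mul] at e5
        linarith
      refine e1.trans (e2.trans (mul_le_mul_of_nonneg_left ?_ hcq0))
      rw [← e3]
      simp only [hI4]
      linarith
    have h2 : F (N + 1) + κ * ∫ ω in S, recUnb ℓ lam ω N ∂P ≤
        E N * s + B * (cq * ((N + 1) * s + I4 N)) := by
      have h3 : ∫ ω in S, (eh ℓ lam (N + 1) ω + κ * recUnb ℓ lam ω N) ∂P ≤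
          ∫ ω in S, (E N + B * dfcHit ℓ lam ω (N + 1)) ∂P :=
        integral_mono ((i3.add (i2.const_mul κ)).restrict)
          ((integrable_const _).add (i5.const_mul B).restrict) h1
      rw [integral_add i3.restrict (i2.const_mul κ).restrict, integral_const_mul,
        integral_add (integrable_const _) (i5.const_mul B).restrict, integral_const_mul,
        setIntegral_const, smul_eq_mul] at h3
      have h4 := mul_le_mul_of_nonneg_left h0 hB
      linarith
    have h3 := integral_recUnb_ge ℓ lam hd p N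
    have h4 : ∫ ω in S, recUnb ℓ lam ω N ∂P + ∫ ω in Sᶜ, recUnb ℓ lam ω N ∂P =
        ∫ ω, recUnb ℓ lam ω N ∂P := integral_add_compl hSm i2
    have h5 : ∫ ω in S, recSum ℓ lam ω N ∂P + ∫ ω in Sᶜ, recSum ℓ lam ω N ∂P =
        ∫ ω, recSum ℓ lam ω N ∂P := integral_add_compl hSm i1
    have h6 : ∫ ω in Sᶜ, recUnb ℓ lam ω N ∂P ≤ I3 N :=
      integral_mono i2.restrict i1.restrict fun ω => recUnb_le_recSum ..
    have h7 : 0 ≤ ∫ ω in Sᶜ, recSum ℓ lam ω N ∂P :=
      integral_nonneg fun ω => recSum_nonneg ..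
    have h8 : (F N - D * N * s) / δ ≤ ∫ ω in S, recSum ℓ lam ω N ∂P := by
      have h9 : (F N - D * N * s) / δ = ∫ ω in S, (eh ℓ lam N ω - D * N) / δ ∂P := by
        rw [integral_div, integral_sub i4.restrict (integrable_const _), setIntegral_const,
          smul_eq_mul]
        congr 2
        ring
      rw [h9]
      refine integral_mono ((i4.restrict.sub (integrable_const _)).div_const _) i1.restrict
        fun ω => ?_
      refine le_trans ?_ (integral_lev_le ℓ lam ω N)
      simp only [eh]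
      rw [div_le_iff₀ hδ, sub_le_iff_le_add]
      have h10 : ∫ x, height ℓ x ∂(lawAt ℓ lam ω N) ≤
          ∫ x, (δ * (lev ℓ x : ℝ) + D * N) ∂(lawAt ℓ lam ω N) := by
        refine integral_mono_ae (integrable_lawAt ..) (integrable_lawAt ..) ?_
        filter_upwards [ae_lawAt ℓ lam ω N] with x hx
        exact hlev N x hx
      rw [integral_add (integrable_lawAt ..) (integrable_const _), integral_const_mul] at h10
      simp only [integral_const, probReal_univ, one_smul] at h10
      linarith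
    have h9 : cp * ((F N - D * N * s) / δ) ≤ ∫ ω, recUnb ℓ lam ω N ∂P := by
      refine le_trans ?_ h3
      rw [← hcp]
      refine mul_le_mul_of_nonneg_left ?_ hcp0
      linarith
    have h10 : cp * ((F N - D * N * s) / δ) - I3 N ≤ ∫ ω in S, recUnb ℓ lam ω N ∂P := by
      linarith
    have h11 := mul_le_mul_of_nonneg_left h10 hκ.le
    have h12 : κ * (cp * ((F N - D * N * s) / δ) - I3 N) =
        κ * cp / δ * (F N - D * N * s) - κ * I3 N := by ring
    linarith
  -- the limits
  have t1 : Tendsto (fun N : ℕ => F (N + 1) / (N + 1)) atTop (𝓝 (V * s)) := by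
    have := hFlim.comp (tendsto_add_atTop_nat 1)
    refine this.congr fun N => ?_
    simp
  have t0 : Tendsto (fun N : ℕ => (N : ℝ) / (N + 1)) atTop (𝓝 1) :=
    tendsto_natCast_div_add_atTop (1 : ℝ)
  have t2 : Tendsto (fun N : ℕ => F N / (N + 1)) atTop (𝓝 (V * s)) := by
    have h1 : Tendsto (fun N : ℕ => F N / N * ((N : ℝ) / (N + 1))) atTop (𝓝 (V * s * 1)) :=
      hFlim.mul t0
    rw [mul_one] at h1
    refine h1.congr' ?_
    filter_upwards [eventually_ge_atTop 1] with N hN
    have : (N : ℝ) ≠ 0 := by positivity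
    field_simp
  have t3 : Tendsto (fun N : ℕ => E N / (N + 1)) atTop (𝓝 Θ) := by
    have h1 := (tendsto_errBound ℓ lam).comp (tendsto_add_atTop_nat 1)
    have h2 : Tendsto (fun N : ℕ => C / ((N : ℝ) + 1)) atTop (𝓝 0) :=
      tendsto_const_div_atTop_nhds_zero_nat C |>.comp (tendsto_add_atTop_nat 1) |>.congr
        fun N => by simp
    have h3 : Tendsto (fun N : ℕ => Θ + M *
        (errBound ℓ lam (N + 1) / ((N : ℝ) + 1)) + C / ((N : ℝ) + 1)) atTop
        (𝓝 (Θ + M * 0 + 0)) := by
      refine ((Tendsto.const_mul _ (h1.congr fun N => ?_)).const_add _).add h2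
      simp
    rw [mul_zero, add_zero, add_zero] at h3
    refine h3.congr fun N => ?_
    simp only [hE]
    have : (N : ℝ) + 1 ≠ 0 := by positivity
    push_cast
    field_simp
  have hlim : V * s + κ * cp / δ * (V * s - D * s * 1) - κ * 0 ≤
      Θ * s + B * cq * (s + 0) := by
    refine le_of_tendsto_of_tendsto' ((t1.add ((t2.sub (t0.const_mul (D * s))).const_mul
      (κ * cp / δ))).sub (hI3lim.const_mul κ))
      ((t3.mul_const s).add ((hI4lim.const_add s).const_mul (B * cq))) fun N => ?_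
    have hN : (0 : ℝ) < N + 1 := by positivity
    have := div_le_div_of_nonneg_right (hmain N) hN.le
    refine le_trans (le_of_eq ?_) (this.trans (le_of_eq ?_))
    · field_simp
    · field_simp
  have hfin : ((1 + κ * cp / δ) * V) * s ≤ (Θ + κ * cp / δ * D + B * cq) * s := by linarith
  exact le_of_mul_le_mul_right hfin hs0

/-- The comparison of the speeds at `p` and at `1` for all directions near the diagonal
directions. -/
theorem unif_diagonal_speed (hd : 0 < d) {lam : ℝ} (hlam : 0 < lam) :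
    ∃ ε₀ > 0, ∃ κ > 0, ∀ (ℓ : Fin d → ℝ), ∑ j, ℓ j ^ 2 = 1 →
      (∀ i j, |ℓ i| - |ℓ j| ≤ ε₀) →
      ∀ (p : I), criticalParam d < p → ∀ v v₁ : Fin d → ℝ,
      IsVelocity ℓ lam p v → IsVelocity ℓ lam 1 v₁ →
        0 < ∑ j, v₁ j * ℓ j ∧
        (1 + κ * (1 - (p : ℝ))) * ∑ j, v j * ℓ j ≤ ∑ j, v₁ j * ℓ j := by
  have hd0 : (0 : ℝ) < d := by exact_mod_cast hd
  have hd1 : (1 : ℝ) ≤ d := by exact_mod_cast hd
  have hs : 0 < Real.sqrt d := Real.sqrt_pos.2 hd0
  set δ := 1 / Real.sqrt d with hδdef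
  have hδ : 0 < δ := by positivity
  have hδ1 : δ ≤ 1 := by
    rw [hδdef, div_le_one hs]
    exact Real.one_le_sqrt.2 hd1
  obtain ⟨ε₁, hε₁, κ, hκ, C₁, hC₁, C, hq⟩ := quenched_unif hd hδ hδ1 hlam
  set κ' := κ * (1 / 2) ^ d / δ with hκ'
  have hκ'0 : 0 < κ' := by positivity
  set C' := κ' * d + C₁ * (4 * d) with hC'
  have hC'0 : 0 < C' := by positivity
  set m := lam / (d * Real.exp lam) with hm
  have hm0 : 0 < m := by positivity
  set ε₀ := min ε₁ (κ' * m / (2 * C')) with hε₀
  have hε₀0 : 0 < ε₀ := lt_min hε₁ (by positivity)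
  refine ⟨ε₀, hε₀0, κ' / (2 + κ'), by positivity, fun ℓ hunit hosc p hp v v₁ hv hv₁ => ?_⟩
  have hp1 : criticalParam d < 1 := lt_of_lt_of_le hp p.2.2
  set q := 1 - (p : ℝ) with hqdef
  have hq0 : 0 ≤ q := by rw [hqdef]; linarith [p.2.2]
  have hq1 : q ≤ 1 := by rw [hqdef]; linarith [p.2.1]
  have hℓ1 : ∀ j, |ℓ j| ≤ 1 := by
    intro j
    rw [← sq_le_one_iff_abs_le_one, ← hunit]
    exact Finset.single_le_sum (f := fun j => ℓ j ^ 2) (fun i _ => sq_nonneg _)
      (Finset.mem_univ j)
  have hε := near_of_osc ℓ hd hunit hosc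
  rw [← hδdef] at hε
  rw [speed_full ℓ lam hp1 hv₁]
  have hm1 : m ≤ fullVel ℓ lam := fullVel_ge ℓ lam hd hlam hunit hℓ1
  have h1 := speed_unif ℓ lam hd hδ (D := d * ε₀)
    (fun n x hx => height_le_lev ℓ hε hx) hκ (by positivity : 0 ≤ C₁ * ε₀)
    (hq ℓ hℓ1 ε₀ hε₀0.le (min_le_left _ _) hε) hp hv
  rw [← hqdef] at h1
  have h2 : κ * ((1 / 2) ^ d * q) / δ = κ' * q := by
    rw [hκ']; ring
  rw [h2] at h1
  set W := fullVel ℓ lam with hW
  set V := ∑ j, v j * ℓ j with hV
  have hW0 : 0 < W := lt_of_lt_of_le hm0 hm1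
  refine ⟨hW0, ?_⟩
  have h3 : (1 + κ' * q) * V ≤ W + C' * ε₀ * q := by
    have : C' * ε₀ * q = κ' * q * (d * ε₀) + C₁ * ε₀ * (4 * d * q) := by rw [hC']; ring
    rw [this]
    linarith
  have h4 : C' * ε₀ ≤ κ' / 2 * m := by
    have h5 : ε₀ ≤ κ' * m / (2 * C') := min_le_right _ _
    refine (mul_le_mul_of_nonneg_left h5 hC'0.le).trans (le_of_eq ?_)
    field_simp
  have h5 : C' * ε₀ * q ≤ κ' / 2 * q * W := by
    have e1 := mul_le_mul_of_nonneg_right h4 hq0
    have e2 := mul_le_mul_of_nonneg_left hm1 (show 0 ≤ κ' / 2 * q by positivity)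
    linarith
  have h6 : (1 + κ' * q) * V ≤ (1 + κ' / 2 * q) * W := by linarith
  -- the factor
  have h7 : (1 + κ' / (2 + κ') * q) * (1 + κ' / 2 * q) ≤ 1 + κ' * q := by
    have e1 : (1 + κ' / (2 + κ') * q) * (1 + κ' / 2 * q) =
      1 + κ' * q - κ' * q * (κ' * (1 - q) / (2 * (2 + κ'))) := by
      field_simp
      ring
    rw [e1]
    have e2 : 0 ≤ κ' * q * (κ' * (1 - q) / (2 * (2 + κ'))) := by
      have : 0 ≤ 1 - q := by linarith
      positivity
    linarith
  have h8 : 0 < 1 + κ' * q := by positivity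
  have h9 : (1 + κ' * q) * ((1 + κ' / (2 + κ') * q) * V) ≤ (1 + κ' * q) * W := by
    calc (1 + κ' * q) * ((1 + κ' / (2 + κ') * q) * V)
        = (1 + κ' / (2 + κ') * q) * ((1 + κ' * q) * V) := by ring
      _ ≤ (1 + κ' / (2 + κ') * q) * ((1 + κ' / 2 * q) * W) :=
          mul_le_mul_of_nonneg_left h6 (by positivity)
      _ = ((1 + κ' / (2 + κ') * q) * (1 + κ' / 2 * q)) * W := by ring
      _ ≤ (1 + κ' * q) * W := mul_le_mul_of_nonneg_right h7 hW0.le
  exact le_of_mul_le_mul_left h9 h8

end Pool.Agent.P2ec0f3
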