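import Pool.Agent.Lib.P2ec0f3n.Fin

/-!
# The forward equation, walks killed on a set of vertices, and first visits
-/

open MeasureTheory ProbabilityTheory Filter Topology Function
open scoped unitInterval ENNReal

namespace Pool.Agent.P2ec0f3

variable {d : ℕ}

/-- The opposite jump. -/
def rv (D : Fin d × Bool) : Fin d × Bool := (D.1, !D.2)

lemma rv_rv (D : Fin d × Bool) : rv (rv D) = D := by
  obtain ⟨j, b⟩ := D
  simp [rv]

lemma nbr_rv (x : Vtx d) (D : Fin d × Bool) : nbr (nbr x D) (rv D) = x := by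
  obtain ⟨j, b⟩ := D
  cases b <;> simp [nbr, rv]

lemma nbr_rv' (x : Vtx d) (D : Fin d × Bool) : nbr (nbr x (rv D)) D = x := by
  have := nbr_rv x (rv D)
  rwa [rv_rv] at this

lemma nbr_add (x y : Vtx d) (D : Fin d × Bool) : nbr (x + y) D = nbr x D + y := by
  obtain ⟨j, b⟩ := D
  cases b
  · simp only [nbr, Bool.false_eq_true, if_false]; abel
  · simp only [nbr, if_true]; abel

/-- The jump as a permutation of the vertices. -/
def nbrEquiv (D : Fin d × Bool) : Vtx d ≃ Vtx d where
  toFun x := nbr x D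
  invFun x := nbr x (rv D)
  left_inv x := nbr_rv x D
  right_inv x := nbr_rv' x D

lemma tsum_nbr (D : Fin d × Bool) (f : Vtx d → ℝ) : ∑' x, f (nbr x D) = ∑' x, f x :=
  (nbrEquiv D).tsum_eq f

lemma hasFiniteSupport_nbr {f : Vtx d → ℝ} (hf : HasFiniteSupport f) (D : Fin d × Bool) :
    HasFiniteSupport fun x => f (nbr x D) := by
  have : (support fun x => f (nbr x D)) = (nbrEquiv D) ⁻¹' support f := rfl
  unfold HasFiniteSupport
  rw [this]
  exact Set.Finite.preimage (nbrEquiv D).injective.injOn hf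

variable (ℓ : Fin d → ℝ) (lam : ℝ) (ω : Set (Edge d))

open Classical in
/-- One step of the walk, acting on the mass functions. -/
noncomputable def fwd (f : Vtx d → ℝ) (w : Vtx d) : ℝ :=
  ∑ D, f (nbr w (rv D)) * (weight ℓ lam ω (nbr w (rv D)) D / total ℓ lam ω (nbr w (rv D)))
    + if total ℓ lam ω w = 0 then f w else 0

lemma fwd_nonneg {f : Vtx d → ℝ} (hf : ∀ x, 0 ≤ f x) (w : Vtx d) : 0 ≤ fwd ℓ lam ω f w := by
  unfold fwd
  refine add_nonneg (Finset.sum_nonneg fun D _ => mul_nonneg (hf _)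
    (div_nonneg (weight_nonneg ..) (total_nonneg ..))) ?_
  split_ifs
  · exact hf w
  · exact le_rfl

lemma fwd_mono {f g : Vtx d → ℝ} (h : ∀ x, f x ≤ g x) (w : Vtx d) :
    fwd ℓ lam ω f w ≤ fwd ℓ lam ω g w := by
  unfold fwd
  refine add_le_add (Finset.sum_le_sum fun D _ => mul_le_mul_of_nonneg_right (h _)
    (div_nonneg (weight_nonneg ..) (total_nonneg ..))) ?_
  split_ifs
  · exact h w
  · exact le_rfl

lemma fwd_add (f g : Vtx d → ℝ) (w : Vtx d) :
    fwd ℓ lam ω (fun x => f x + g x) w = fwd ℓ lam ω f w + fwd ℓ lam ω g w := by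
  unfold fwd
  have : ∀ D, (f (nbr w (rv D)) + g (nbr w (rv D))) *
      (weight ℓ lam ω (nbr w (rv D)) D / total ℓ lam ω (nbr w (rv D))) =
      f (nbr w (rv D)) * (weight ℓ lam ω (nbr w (rv D)) D / total ℓ lam ω (nbr w (rv D))) +
      g (nbr w (rv D)) * (weight ℓ lam ω (nbr w (rv D)) D / total ℓ lam ω (nbr w (rv D))) :=
    fun D => by ring
  simp only [this, Finset.sum_add_distrib]
  split_ifs <;> ring

lemma fwd_smul (c : ℝ) (f : Vtx d → ℝ) (w : Vtx d) :
    fwd ℓ lam ω (fun x => c * f x) w = c * fwd ℓ lam ω f w := by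
  unfold fwd
  rw [mul_add, Finset.mul_sum]
  congr 1
  · exact Finset.sum_congr rfl fun D _ => by ring
  · split_ifs <;> ring

lemma fwd_sum {ι : Type*} (s : Finset ι) (c : ι → ℝ) (f : ι → Vtx d → ℝ) (w : Vtx d) :
    fwd ℓ lam ω (fun x => ∑ i ∈ s, c i * f i x) w = ∑ i ∈ s, c i * fwd ℓ lam ω (f i) w := by
  classical
  induction s using Finset.induction_on with
  | empty =>
    simp only [Finset.sum_empty]
    unfold fwd
    simp
  | insert i s hi ih =>
    rw [Finset.sum_insert hi, ← ih, ← fwd_smul, ← fwd_add]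
    congr 1
    funext x
    rw [Finset.sum_insert hi]

lemma fwd_eq_zero {n : ℕ} {f : Vtx d → ℝ} (hf : ∀ x, x ∉ box d n → f x = 0) {w : Vtx d}
    (hw : w ∉ box d (n + 1)) : fwd ℓ lam ω f w = 0 := by
  unfold fwd
  have h1 : ∀ D, f (nbr w (rv D)) = 0 := by
    intro D
    apply hf
    intro h
    apply hw
    have := nbr_mem_box h D
    rwa [nbr_rv'] at this
  have h2 : f w = 0 := hf w fun h => hw (box_mono (Nat.le_succ n) h)
  simp [h1, h2]

lemma hasFiniteSupport_fwd {f : Vtx d → ℝ} (hf : HasFiniteSupport f) :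
    HasFiniteSupport (fwd ℓ lam ω f) := by
  have h1 : ∀ D : Fin d × Bool, (support fun x => f (nbr x (rv D))).Finite := fun D =>
    hasFiniteSupport_nbr hf (rv D)
  refine Set.Finite.subset ((Set.finite_iUnion h1).union hf) fun w hw => ?_
  by_contra hcon
  rw [Set.mem_union, not_or, Set.mem_iUnion, not_exists] at hcon
  apply hw
  unfold fwd
  have h2 : ∀ D, f (nbr w (rv D)) = 0 := fun D => by simpa using hcon.1 D
  have h3 : f w = 0 := by simpa using hcon.2
  simp [h2, h3]

/-- A step preserves the mass. -/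
lemma tsum_fwd {f : Vtx d → ℝ} (hf : HasFiniteSupport f) :
    ∑' w, fwd ℓ lam ω f w = ∑' w, f w := by
  classical
  unfold fwd
  set K : Fin d × Bool → Vtx d → ℝ := fun D z => f z * (weight ℓ lam ω z D / total ℓ lam ω z)
    with hK
  have hKs : ∀ D, HasFiniteSupport (K D) := fun D =>
    hasFiniteSupport_of_mul hf fun x hx => by simp [hK, hx]
  have hKs' : ∀ D, HasFiniteSupport fun w => K D (nbr w (rv D)) := fun D =>
    hasFiniteSupport_nbr (hKs D) (rv D)
  set L : Vtx d → ℝ := fun w => if total ℓ lam ω w = 0 then f w else 0 with hL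
  have hLs : HasFiniteSupport L := hasFiniteSupport_of_mul hf fun x hx => by simp [hL, hx]
  change ∑' w, (∑ D, K D (nbr w (rv D)) + L w) = ∑' w, f w
  rw [Summable.tsum_add (summable_sum fun D _ => summable_of_hasFiniteSupport (hKs' D))
    (summable_of_hasFiniteSupport hLs),
    Summable.tsum_finsetSum fun D _ => summable_of_hasFiniteSupport (hKs' D)]
  simp_rw [tsum_nbr]
  rw [← Summable.tsum_finsetSum fun D _ => summable_of_hasFiniteSupport (hKs D),
    ← Summable.tsum_add (summable_sum fun D _ => summable_of_hasFiniteSupport (hKs D))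
    (summable_of_hasFiniteSupport hLs)]
  refine tsum_congr fun z => ?_
  simp only [hK, hL]
  rw [← Finset.mul_sum, ← Finset.sum_div]
  change f z * (total ℓ lam ω z / total ℓ lam ω z) + _ = _
  split_ifs with h
  · rw [h]; simp
  · rw [div_self h]; simp

/-- The forward equation for the law of the walk. -/
lemma pr_succ (n : ℕ) (w : Vtx d) : pr ℓ lam ω (n + 1) w = fwd ℓ lam ω (pr ℓ lam ω n) w := by
  classical
  set g : Vtx d → ℝ := fun x => if x = w then 1 else 0 with hg
  have hint : ∀ m, ∫ x, g x ∂(lawAt ℓ lam ω m) = pr ℓ lam ω m w := by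
    intro m
    rw [integral_lawAt, tsum_eq_single w]
    · simp [hg]
    · intro x hx
      simp [hg, hx]
  have h := integral_lawAt_succ ℓ lam ω n g
  rw [hint, hint] at h
  rw [h]
  set P := pr ℓ lam ω n with hP
  have hPs : HasFiniteSupport P := hasFiniteSupport_pr ℓ lam ω n
  set K : Fin d × Bool → Vtx d → ℝ := fun D z => P z * (weight ℓ lam ω z D / total ℓ lam ω z)
    with hK
  have h1 : ∀ x, P x * drift ℓ lam ω g x =
      ∑ D, K D x * g (nbr x D) - P x * (total ℓ lam ω x / total ℓ lam ω x) * g x := by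
    intro x
    unfold drift
    have : total ℓ lam ω x / total ℓ lam ω x =
        ∑ D, weight ℓ lam ω x D / total ℓ lam ω x := by
      rw [← Finset.sum_div]
      rfl
    rw [this, Finset.mul_sum, Finset.mul_sum, Finset.sum_mul, ← Finset.sum_sub_distrib]
    refine Finset.sum_congr rfl fun D _ => ?_
    simp only [hK]
    ring
  simp_rw [h1]
  have s1 : ∀ D, HasFiniteSupport fun x => K D x * g (nbr x D) := fun D =>
    hasFiniteSupport_of_mul hPs fun x hx => by simp [hK, hx]
  have s2 : HasFiniteSupport fun x => P x * (total ℓ lam ω x / total ℓ lam ω x) * g x :=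
    hasFiniteSupport_of_mul hPs fun x hx => by simp [hx]
  rw [Summable.tsum_sub (summable_sum fun D _ => summable_of_hasFiniteSupport (s1 D))
    (summable_of_hasFiniteSupport s2),
    Summable.tsum_finsetSum fun D _ => summable_of_hasFiniteSupport (s1 D)]
  have h2 : ∀ D, ∑' x, K D x * g (nbr x D) = K D (nbr w (rv D)) := by
    intro D
    rw [tsum_eq_single (nbr w (rv D))]
    · simp [hg, nbr_rv']
    · intro x hx
      have : nbr x D ≠ w := by
        intro hcon
        apply hx
        rw [← hcon, nbr_rv]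
      simp [hg, this]
  have h3 : ∑' x, P x * (total ℓ lam ω x / total ℓ lam ω x) * g x =
      P w * (total ℓ lam ω w / total ℓ lam ω w) := by
    rw [tsum_eq_single w]
    · simp [hg]
    · intro x hx
      simp [hg, hx]
  rw [Finset.sum_congr rfl fun D _ => h2 D, h3]
  unfold fwd
  simp only [hK]
  split_ifs with h0
  · rw [h0]; simp; ring
  · rw [div_self h0]; ring

lemma pr_zero (w : Vtx d) : pr ℓ lam ω 0 w = if w = 0 then 1 else 0 := by
  classical
  unfold pr
  rw [lawAt_zero, measureReal_def, Measure.dirac_apply' _ (MeasurableSet.singleton w)]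
  by_cases h : w = 0
  · subst h; simp
  · rw [if_neg h, Set.indicator_of_notMem]
    · simp
    · simpa using fun h' => h h'.symm

open Classical in
/-- The mass function of the walk killed after its first visit of `A`. -/
noncomputable def qk (A : Finset (Vtx d)) : ℕ → Vtx d → ℝ
  | 0 => fun w => if w = 0 then 1 else 0
  | (n + 1) => fwd ℓ lam ω fun z => if z ∈ A then 0 else qk A n z

lemma qk_nonneg (A : Finset (Vtx d)) (n : ℕ) (w : Vtx d) : 0 ≤ qk ℓ lam ω A n w := by
  classical
  induction n generalizing w with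
  | zero => unfold qk; split_ifs <;> norm_num
  | succ n ih =>
    unfold qk
    refine fwd_nonneg ℓ lam ω (fun z => ?_) w
    split_ifs
    · exact le_rfl
    · exact ih z

lemma qk_anti {A B : Finset (Vtx d)} (h : A ⊆ B) (n : ℕ) (w : Vtx d) :
    qk ℓ lam ω B n w ≤ qk ℓ lam ω A n w := by
  classical
  induction n generalizing w with
  | zero => unfold qk; exact le_rfl
  | succ n ih =>
    unfold qk
    refine fwd_mono ℓ lam ω (fun z => ?_) w
    by_cases hA : z ∈ A
    · rw [if_pos hA, if_pos (h hA)]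
    · rw [if_neg hA]
      split_ifs
      · exact qk_nonneg ..
      · exact ih z

lemma qk_empty (n : ℕ) (w : Vtx d) : qk ℓ lam ω ∅ n w = pr ℓ lam ω n w := by
  classical
  induction n generalizing w with
  | zero => rw [pr_zero]; unfold qk; rfl
  | succ n ih =>
    rw [pr_succ]
    unfold qk
    congr 1
    funext z
    simp [ih]

lemma qk_le_pr (A : Finset (Vtx d)) (n : ℕ) (w : Vtx d) :
    qk ℓ lam ω A n w ≤ pr ℓ lam ω n w := by
  rw [← qk_empty]
  exact qk_anti ℓ lam ω (Finset.empty_subset A) n w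

lemma qk_eq_zero (A : Finset (Vtx d)) {n : ℕ} {w : Vtx d} (hw : w ∉ box d n) :
    qk ℓ lam ω A n w = 0 :=
  le_antisymm ((qk_le_pr ..).trans (pr_eq_zero ℓ lam ω hw).le) (qk_nonneg ..)

lemma hasFiniteSupport_qk (A : Finset (Vtx d)) (n : ℕ) : HasFiniteSupport (qk ℓ lam ω A n) :=
  Set.Finite.subset (box d n).finite_toSet fun x hx => by
    by_contra h
    exact hx (qk_eq_zero ℓ lam ω A h)

/-- The probability of a visit of `A` before time `N`. -/
noncomputable def hitA (A : Finset (Vtx d)) (N : ℕ) : ℝ :=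
  ∑ n ∈ Finset.range N, ∑ z ∈ A, qk ℓ lam ω A n z

/-- The probability of a visit of `x` before time `N`. -/
noncomputable def hit (N : ℕ) (x : Vtx d) : ℝ :=
  ∑ n ∈ Finset.range N, qk ℓ lam ω {x} n x

lemma hit_eq (N : ℕ) (x : Vtx d) : hit ℓ lam ω N x = hitA ℓ lam ω {x} N := by
  unfold hit hitA
  simp

lemma hit_nonneg (N : ℕ) (x : Vtx d) : 0 ≤ hit ℓ lam ω N x :=
  Finset.sum_nonneg fun _ _ => qk_nonneg ..

lemma hitA_add_mass (A : Finset (Vtx d)) (N : ℕ) :
    hitA ℓ lam ω A N + ∑' w, qk ℓ lam ω A N w = 1 := by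
  classical
  induction N with
  | zero =>
    unfold hitA qk
    simp [tsum_ite_eq]
  | succ N ih =>
    have h1 : ∑' w, qk ℓ lam ω A (N + 1) w =
        ∑' z, (if z ∈ A then 0 else qk ℓ lam ω A N z) := by
      conv_lhs => unfold qk
      refine tsum_fwd ℓ lam ω ?_
      exact hasFiniteSupport_of_mul (hasFiniteSupport_qk ℓ lam ω A N) fun x hx => by simp [hx]
    have h2 : ∑' z, (if z ∈ A then 0 else qk ℓ lam ω A N z) =
        ∑' z, qk ℓ lam ω A N z - ∑ z ∈ A, qk ℓ lam ω A N z := by
      have h3 : ∑ z ∈ A, qk ℓ lam ω A N z = ∑' z, (if z ∈ A then qk ℓ lam ω A N z else 0) := by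
        rw [tsum_eq_sum (s := A)]
        · exact Finset.sum_congr rfl fun z hz => by rw [if_pos hz]
        · intro z hz
          rw [if_neg hz]
      rw [h3, ← Summable.tsum_sub
        (summable_of_hasFiniteSupport (hasFiniteSupport_qk ℓ lam ω A N))
        (summable_of_hasFiniteSupport (hasFiniteSupport_of_mul
          (hasFiniteSupport_qk ℓ lam ω A N) fun x hx => by simp [hx]))]
      refine tsum_congr fun z => ?_
      split_ifs <;> ring
    have h3 : hitA ℓ lam ω A (N + 1) = hitA ℓ lam ω A N + ∑ z ∈ A, qk ℓ lam ω A N z := by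
      unfold hitA
      rw [Finset.sum_range_succ]
    rw [h1, h2, h3]
    linarith

lemma hitA_mono {A B : Finset (Vtx d)} (h : A ⊆ B) (N : ℕ) :
    hitA ℓ lam ω A N ≤ hitA ℓ lam ω B N := by
  have h1 := hitA_add_mass ℓ lam ω A N
  have h2 := hitA_add_mass ℓ lam ω B N
  have h3 : ∑' w, qk ℓ lam ω B N w ≤ ∑' w, qk ℓ lam ω A N w :=
    Summable.tsum_le_tsum (fun w => qk_anti ℓ lam ω h N w)
      (summable_of_hasFiniteSupport (hasFiniteSupport_qk ..))
      (summable_of_hasFiniteSupport (hasFiniteSupport_qk ..))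
  linarith

lemma hit_le_one (N : ℕ) (x : Vtx d) : hit ℓ lam ω N x ≤ 1 := by
  rw [hit_eq]
  have h1 := hitA_add_mass ℓ lam ω {x} N
  have h2 : 0 ≤ ∑' w, qk ℓ lam ω {x} N w := tsum_nonneg fun w => qk_nonneg ..
  linarith

lemma hitA_le (A : Finset (Vtx d)) (N : ℕ) :
    hitA ℓ lam ω A N ≤ ∑ z ∈ A, hit ℓ lam ω N z := by
  unfold hitA hit
  rw [Finset.sum_comm]
  refine Finset.sum_le_sum fun z hz => Finset.sum_le_sum fun n _ => ?_
  exact qk_anti ℓ lam ω (Finset.singleton_subset_iff.2 hz) n z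

lemma hit_le_occ (N : ℕ) (x : Vtx d) : hit ℓ lam ω N x ≤ occ ℓ lam ω N x :=
  Finset.sum_le_sum fun _ _ => qk_le_pr ..

/-- The expected number of visited vertices is at most the number of steps. -/
lemma sum_hit_le (N : ℕ) (s : Finset (Vtx d)) : ∑ x ∈ s, hit ℓ lam ω N x ≤ N := by
  refine (Finset.sum_le_sum fun x _ => hit_le_occ ℓ lam ω N x).trans ?_
  rw [← tsum_occ ℓ lam ω N]
  exact (summable_of_hasFiniteSupport (hasFiniteSupport_occ ℓ lam ω N)).sum_le_tsum _
    fun x _ => occ_nonneg ..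

lemma hit_eq_zero {N : ℕ} {x : Vtx d} (hx : x ∉ box d N) : hit ℓ lam ω N x = 0 :=
  le_antisymm ((hit_le_occ ..).trans (occ_eq_zero ℓ lam ω hx).le) (hit_nonneg ..)

end Pool.Agent.P2ec0f3
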