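import Pool.Agent.Lib.P2ec0f3n.Cut

/-!
# Visits of defective vertices: first visits, entropy production and unbalanced vertices
-/

open MeasureTheory ProbabilityTheory Filter Topology Function
open scoped unitInterval ENNReal

namespace Pool.Agent.P2ec0f3

variable {d : ℕ} (ℓ : Fin d → ℝ) (lam : ℝ) (ω : Set (Edge d))

open Classical in
/-- The indicator of the vertices with a closed edge. -/
noncomputable def dfc (x : Vtx d) : ℝ :=
  if ∀ j, (x, j) ∈ ω ∧ (x - basisVec j, j) ∈ ω then 0 else 1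

lemma dfc_nonneg (x : Vtx d) : 0 ≤ dfc ω x := by unfold dfc; split_ifs <;> norm_num

lemma dfc_le_one (x : Vtx d) : dfc ω x ≤ 1 := by unfold dfc; split_ifs <;> norm_num

/-- The elementary estimate: if the net flow is small then the variation is large. -/
lemma local_est {α A a₀ u w H e D η : ℝ} (hα : a₀ ≤ α) (hαA : α ≤ A) (ha₀ : 1 < a₀)
    (hu : 0 ≤ u) (hH : 0 ≤ H) (he : 0 ≤ e) (hD : 0 ≤ D)
    (hη : 0 < η) (hη1 : η ≤ 1 / 2) (hη2 : η ≤ (a₀ ^ 2 - 1) / 4)
    (hflow : α * u - α⁻¹ * w ≤ H)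
    (hvar : w - u ≤ 2 * η * (u + e) + (2 * η * A⁻¹)⁻¹ * D) :
    u ≤ 2 / (a₀ ^ 2 - 1) * (A + 1 + (2 * η * A⁻¹)⁻¹) * (H + e + D) := by
  have hα1 : 1 < α := by linarith
  have hα0 : 0 < α := by linarith
  have hA0 : 0 < A := by linarith
  have hb : 0 < a₀ ^ 2 - 1 := by nlinarith
  set K := (2 * η * A⁻¹)⁻¹ with hK
  have hK0 : 0 < K := by positivity
  have h1 : α ^ 2 * u - α * H ≤ w := by
    have h2 := mul_le_mul_of_nonneg_left hflow hα0.le
    have h3 : α * (α * u - α⁻¹ * w) = α ^ 2 * u - w := by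
      field_simp
    linarith
  have h2 : a₀ ^ 2 * u ≤ α ^ 2 * u := mul_le_mul_of_nonneg_right (by nlinarith) hu
  have h3 : α * H ≤ A * H := mul_le_mul_of_nonneg_right hαA hH
  have h4 : (a₀ ^ 2 - 1) / 2 * u ≤ A * H + 2 * η * e + K * D := by nlinarith
  have h5 : 2 * η * e ≤ 1 * e := mul_le_mul_of_nonneg_right (by linarith) he
  have h6 : A * H + 2 * η * e + K * D ≤ (A + 1 + K) * (H + e + D) := by
    have e1 : 0 ≤ A * e := by positivity
    have e2 : 0 ≤ A * D := by positivity
    have e3 : 0 ≤ K * H := by positivity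
    have e4 : 0 ≤ K * e := by positivity
    nlinarith
  have h7 : u = 2 / (a₀ ^ 2 - 1) * ((a₀ ^ 2 - 1) / 2 * u) := by
    field_simp
  rw [h7, mul_assoc]
  exact mul_le_mul_of_nonneg_left (h4.trans h6) (by positivity)

/-- The entropy production of an edge. -/
noncomputable def eprod (N : ℕ) (e : ℝ) (E : Edge d) : ℝ :=
  openInd ω E.1 E.2 *
    prodn (av ℓ lam E.2) (psi ℓ lam ω N E.1 + e) (psi ℓ lam ω N (E.1 + basisVec E.2) + e)

lemma eprod_nonneg (N : ℕ) {e : ℝ} (he : 0 < e) (E : Edge d) : 0 ≤ eprod ℓ lam ω N e E := by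
  unfold eprod
  refine mul_nonneg (openInd_nonneg ..) (prodn_nonneg (av_pos ..) ?_ ?_)
  · linarith [psi_nonneg ℓ lam ω N E.1]
  · linarith [psi_nonneg ℓ lam ω N (E.1 + basisVec E.2)]

lemma sum_eprod_le (N : ℕ) {e : ℝ} (he : 0 < e) :
    ∑ x ∈ box d N, ∑ j, eprod ℓ lam ω N e (upEdge ℓ x j) ≤ totalProd ℓ lam ω N e := by
  classical
  rw [Finset.sum_comm]
  unfold totalProd
  refine Finset.sum_le_sum fun j _ => ?_
  change _ ≤ ∑ x ∈ box d (N + 1), eprod ℓ lam ω N e (x, j)
  by_cases hj : 0 < ℓ j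
  · have h1 : ∀ x, upEdge ℓ x j = (x, j) := fun x => by unfold upEdge; rw [if_pos hj]
    simp_rw [h1]
    exact Finset.sum_le_sum_of_subset_of_nonneg (box_mono (Nat.le_succ N))
      fun x _ _ => eprod_nonneg ℓ lam ω N he _
  · have h1 : ∀ x, upEdge ℓ x j = (x - basisVec j, j) := fun x => by
      unfold upEdge; rw [if_neg hj]
    simp_rw [h1]
    have h2 : ∑ x ∈ box d N, eprod ℓ lam ω N e (x - basisVec j, j) =
        ∑ y ∈ (box d N).image (fun x => x - basisVec j), eprod ℓ lam ω N e (y, j) := by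
      rw [Finset.sum_image]
      intro a _ b _ hab
      exact sub_left_injective hab
    rw [h2]
    refine Finset.sum_le_sum_of_subset_of_nonneg ?_ fun x _ _ => eprod_nonneg ℓ lam ω N he _
    intro y hy
    obtain ⟨x, hx, rfl⟩ := Finset.mem_image.1 hy
    have := nbr_mem_box hx (j, false)
    simpa [nbr] using this

lemma unb_eq_one {x : Vtx d} (hup : ∀ j, upEdge ℓ x j ∉ ω) (ht : total ℓ lam ω x ≠ 0) :
    unb ℓ ω x = 1 := by
  classical
  obtain ⟨⟨j, b⟩, -, hD⟩ := Finset.exists_ne_zero_of_sum_ne_zero ht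
  have hmem : edgeTo x (j, b) ∈ ω := by
    by_contra h
    apply hD
    unfold weight
    rw [if_neg h]
  have hdn : dnEdge ℓ x j ∈ ω := by
    have hu := hup j
    unfold upEdge at hu
    unfold dnEdge
    cases b
    · simp only [edgeTo, Bool.false_eq_true, if_false] at hmem
      by_cases hj : 0 < ℓ j
      · rw [if_pos hj]; exact hmem
      · rw [if_neg hj] at hu; exact absurd hmem hu
    · simp only [edgeTo, if_true] at hmem
      by_cases hj : 0 < ℓ j
      · rw [if_pos hj] at hu; exact absurd hmem hu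
      · rw [if_neg hj]; exact hmem
  have h1 : upZ ℓ ω x = 0 := by
    unfold upZ
    simp [hup]
  have h2 := dnZ_ne_zero ℓ j hdn
  unfold unb
  rw [beta_eq, h1, if_neg]
  omega

/-- The local estimate at a defective vertex. -/
lemma dfc_psi_le {δ : ℝ} (hδ : 0 < δ) (hlam : 0 < lam) (hℓ1 : ∀ j, |ℓ j| ≤ 1)
    (hℓδ : ∀ j, δ / 2 ≤ |ℓ j|) {η : ℝ} (hη : 0 < η) (hη1 : η ≤ 1 / 2)
    (hη2 : η ≤ (Real.exp (lam * (δ / 2)) ^ 2 - 1) / 4) (N : ℕ) {e : ℝ} (he : 0 < e)
    (x : Vtx d) :
    dfc ω x * psi ℓ lam ω N x ≤ unb ℓ ω x * psi ℓ lam ω N x +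
      2 / (Real.exp (lam * (δ / 2)) ^ 2 - 1) *
        (Real.exp lam + 1 + (2 * η * (Real.exp lam)⁻¹)⁻¹) *
        (dfc ω x * hit ℓ lam ω N x + e + ∑ j, eprod ℓ lam ω N e (upEdge ℓ x j)) := by
  classical
  set a₀ := Real.exp (lam * (δ / 2)) with ha₀
  have ha₀1 : 1 < a₀ := Real.one_lt_exp_iff.2 (by positivity)
  have hb : 0 < a₀ ^ 2 - 1 := by nlinarith
  set A := Real.exp lam with hA
  have hA0 : 0 < A := Real.exp_pos _
  set C := 2 / (a₀ ^ 2 - 1) * (A + 1 + (2 * η * A⁻¹)⁻¹) with hC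
  have hC0 : 0 < C := by positivity
  have hψ0 := psi_nonneg ℓ lam ω N x
  have hP0 : ∀ j, 0 ≤ eprod ℓ lam ω N e (upEdge ℓ x j) := fun j => eprod_nonneg ℓ lam ω N he _
  have hP : 0 ≤ ∑ j, eprod ℓ lam ω N e (upEdge ℓ x j) := Finset.sum_nonneg fun j _ => hP0 j
  have hH := hit_nonneg ℓ lam ω N x
  have hdf := dfc_nonneg ω x
  have hU := unb_nonneg ℓ ω x
  have hR : 0 ≤ C * (dfc ω x * hit ℓ lam ω N x + e + ∑ j, eprod ℓ lam ω N e (upEdge ℓ x j)) := by
    have : 0 ≤ dfc ω x * hit ℓ lam ω N x := mul_nonneg hdf hH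
    positivity
  have hU' : 0 ≤ unb ℓ ω x * psi ℓ lam ω N x := mul_nonneg hU hψ0
  by_cases hfull : ∀ j, (x, j) ∈ ω ∧ (x - basisVec j, j) ∈ ω
  · have h0 : dfc ω x = 0 := by unfold dfc; rw [if_pos hfull]
    have : dfc ω x * psi ℓ lam ω N x = 0 := by rw [h0, zero_mul]
    rw [this]
    linarith
  · have h1 : dfc ω x = 1 := by unfold dfc; rw [if_neg hfull]
    by_cases ht : total ℓ lam ω x = 0
    · have : psi ℓ lam ω N x = 0 := by unfold psi; rw [ht, div_zero]
      have h2 : dfc ω x * psi ℓ lam ω N x = 0 := by rw [this, mul_zero]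
      rw [h2]
      linarith
    · by_cases hup : ∀ j, upEdge ℓ x j ∉ ω
      · have h2 := unb_eq_one ℓ lam ω hup ht
        have h3 : dfc ω x * psi ℓ lam ω N x = unb ℓ ω x * psi ℓ lam ω N x := by rw [h1, h2]
        rw [h3]
        linarith
      · push Not at hup
        obtain ⟨j, hj⟩ := hup
        have hmain : psi ℓ lam ω N x ≤
            C * (hit ℓ lam ω N x + e + eprod ℓ lam ω N e (upEdge ℓ x j)) := by
          obtain ⟨b1, b2, b3, b4⟩ := av_bounds_one ℓ lam hlam hℓ1 j
          rw [← hA] at b1 b2 b3 b4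
          have hAinv : 0 < A⁻¹ := inv_pos.2 hA0
          have hu : 0 < psi ℓ lam ω N x + e := by linarith
          by_cases hpos : 0 < ℓ j
          · have hue : upEdge ℓ x j = (x, j) := by unfold upEdge; rw [if_pos hpos]
            rw [hue] at hj ⊢
            have ho : openInd ω x j = 1 := by unfold openInd; rw [if_pos hj]
            have hv : 0 < psi ℓ lam ω N (x + basisVec j) + e := by
              linarith [psi_nonneg ℓ lam ω N (x + basisVec j)]
            have hflow := net_le_hit ℓ lam ω N x j ho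
            have hD : eprod ℓ lam ω N e (x, j) = prodn (av ℓ lam j) (psi ℓ lam ω N x + e)
                (psi ℓ lam ω N (x + basisVec j) + e) := by
              unfold eprod; dsimp only; rw [ho, one_mul]
            have hD0 := prodn_nonneg (av_pos ℓ lam j) hu hv
            rw [hD]
            have hα : a₀ ≤ av ℓ lam j := by
              rw [ha₀]
              unfold av
              refine Real.exp_le_exp.2 (mul_le_mul_of_nonneg_left ?_ hlam.le)
              have := hℓδ j
              rwa [abs_of_pos hpos] at this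
            have hvar := (abs_sub_le (η := η) (t := A⁻¹) b3 b4 hAinv hu hv hη hη1).1
            refine local_est hα b1 ha₀1 hψ0 hH he.le hD0 hη hη1 hη2 hflow ?_
            refine le_trans ?_ hvar
            have : psi ℓ lam ω N (x + basisVec j) - psi ℓ lam ω N x =
              -((psi ℓ lam ω N x + e) - (psi ℓ lam ω N (x + basisVec j) + e)) := by ring
            rw [this]
            exact neg_le_abs _
          · have hue : upEdge ℓ x j = (x - basisVec j, j) := by unfold upEdge; rw [if_neg hpos]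
            rw [hue] at hj ⊢
            have ho : openInd ω (x - basisVec j) j = 1 := by unfold openInd; rw [if_pos hj]
            have hv : 0 < psi ℓ lam ω N (x - basisVec j) + e := by
              linarith [psi_nonneg ℓ lam ω N (x - basisVec j)]
            have hflow := net_le_hit' ℓ lam ω N x j ho
            have hD : eprod ℓ lam ω N e (x - basisVec j, j) =
                prodn (av ℓ lam j) (psi ℓ lam ω N (x - basisVec j) + e)
                (psi ℓ lam ω N x + e) := by
              unfold eprod; dsimp only; rw [ho, one_mul, sub_add_cancel]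
            have hD0 := prodn_nonneg (av_pos ℓ lam j) hv hu
            rw [hD]
            have hα : a₀ ≤ (av ℓ lam j)⁻¹ := by
              rw [ha₀]
              unfold av
              rw [← Real.exp_neg]
              refine Real.exp_le_exp.2 ?_
              have := hℓδ j
              rw [abs_of_nonpos (not_lt.1 hpos)] at this
              nlinarith
            have hvar := (abs_sub_le (η := η) (t := A⁻¹) b3 b4 hAinv hv hu hη hη1).2
            have hflow' : (av ℓ lam j)⁻¹ * psi ℓ lam ω N x -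
                ((av ℓ lam j)⁻¹)⁻¹ * psi ℓ lam ω N (x - basisVec j) ≤ hit ℓ lam ω N x := by
              rw [inv_inv]; exact hflow
            refine local_est hα b2 ha₀1 hψ0 hH he.le hD0 hη hη1 hη2 hflow' ?_
            refine le_trans ?_ hvar
            have : psi ℓ lam ω N (x - basisVec j) - psi ℓ lam ω N x =
              ((psi ℓ lam ω N (x - basisVec j) + e) - (psi ℓ lam ω N x + e)) := by ring
            rw [this]
            exact le_abs_self _
        have h2 : eprod ℓ lam ω N e (upEdge ℓ x j) ≤ ∑ i, eprod ℓ lam ω N e (upEdge ℓ x i) :=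
          Finset.single_le_sum (f := fun i => eprod ℓ lam ω N e (upEdge ℓ x i))
            (fun i _ => hP0 i) (Finset.mem_univ j)
        rw [h1, one_mul, one_mul]
        have h3 : C * (hit ℓ lam ω N x + e + eprod ℓ lam ω N e (upEdge ℓ x j)) ≤
            C * (hit ℓ lam ω N x + e + ∑ i, eprod ℓ lam ω N e (upEdge ℓ x i)) :=
          mul_le_mul_of_nonneg_left (by linarith) hC0.le
        linarith

/-- The weight of the defective vertices. -/
noncomputable def dfcPsi (N : ℕ) : ℝ := ∑' x, dfc ω x * psi ℓ lam ω N x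

/-- The first visits of defective vertices. -/
noncomputable def dfcHit (N : ℕ) : ℝ := ∑ x ∈ box d N, dfc ω x * hit ℓ lam ω N x

lemma dfcHit_nonneg (N : ℕ) : 0 ≤ dfcHit ℓ lam ω N :=
  Finset.sum_nonneg fun x _ => mul_nonneg (dfc_nonneg ..) (hit_nonneg ..)

lemma dfcPsi_le {δ : ℝ} (hδ : 0 < δ) (hlam : 0 < lam) (hℓ1 : ∀ j, |ℓ j| ≤ 1)
    (hℓδ : ∀ j, δ / 2 ≤ |ℓ j|) {η : ℝ} (hη : 0 < η) (hη1 : η ≤ 1 / 2)
    (hη2 : η ≤ (Real.exp (lam * (δ / 2)) ^ 2 - 1) / 4) (N : ℕ) {e : ℝ} (he : 0 < e)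
    (hecard : e * (box d N).card ≤ 1) :
    dfcPsi ℓ lam ω N ≤ unbPsi ℓ lam ω N +
      2 / (Real.exp (lam * (δ / 2)) ^ 2 - 1) *
        (Real.exp lam + 1 + (2 * η * (Real.exp lam)⁻¹)⁻¹) *
        (dfcHit ℓ lam ω N + 1 + totalProd ℓ lam ω N e) := by
  set C := 2 / (Real.exp (lam * (δ / 2)) ^ 2 - 1) *
        (Real.exp lam + 1 + (2 * η * (Real.exp lam)⁻¹)⁻¹) with hC
  have ha₀1 : 1 < Real.exp (lam * (δ / 2)) := Real.one_lt_exp_iff.2 (by positivity)
  have hb : 0 < Real.exp (lam * (δ / 2)) ^ 2 - 1 := by nlinarith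
  have hC0 : 0 < C := by positivity
  have h1 : dfcPsi ℓ lam ω N = ∑ x ∈ box d N, dfc ω x * psi ℓ lam ω N x := by
    unfold dfcPsi
    rw [tsum_eq_sum]
    intro x hx
    rw [psi_eq_zero ℓ lam ω hx, mul_zero]
  have h2 : ∑ x ∈ box d N, unb ℓ ω x * psi ℓ lam ω N x ≤ unbPsi ℓ lam ω N := by
    unfold unbPsi
    refine Summable.sum_le_tsum _ (fun x _ => mul_nonneg (unb_nonneg ..) (psi_nonneg ..)) ?_
    exact summable_of_hasFiniteSupport (hasFiniteSupport_of_mul
      (hasFiniteSupport_psi ℓ lam ω N) fun x hx => by simp [hx])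
  rw [h1]
  refine (Finset.sum_le_sum fun x _ => dfc_psi_le ℓ lam ω hδ hlam hℓ1 hℓδ hη hη1 hη2 N he x).trans
    ?_
  rw [Finset.sum_add_distrib, ← Finset.mul_sum, ← hC, Finset.sum_add_distrib,
    Finset.sum_add_distrib, Finset.sum_const, nsmul_eq_mul]
  have h3 := sum_eprod_le ℓ lam ω N he
  have h4 : C * (∑ x ∈ box d N, dfc ω x * hit ℓ lam ω N x + (box d N).card * e +
      ∑ x ∈ box d N, ∑ j, eprod ℓ lam ω N e (upEdge ℓ x j)) ≤
      C * (dfcHit ℓ lam ω N + 1 + totalProd ℓ lam ω N e) := by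
    refine mul_le_mul_of_nonneg_left ?_ hC0.le
    unfold dfcHit
    linarith
  linarith

end Pool.Agent.P2ec0f3
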