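import Pool.Agent.Lib.P2ec0f3n.Bal

/-!
# Bias directions near a diagonal: the quenched bound
-/

open MeasureTheory ProbabilityTheory Filter Topology Function
open scoped unitInterval

namespace Pool.Agent.P2ec0f3

variable {d : ℕ} (ℓ : Fin d → ℝ) (lam : ℝ) (ω : Set (Edge d))

lemma total_le_one (hlam : 0 < lam) (hℓ1 : ∀ j, |ℓ j| ≤ 1) (x : Vtx d) :
    total ℓ lam ω x ≤ 2 * d * Real.exp lam := by
  unfold total
  rw [Fintype.sum_prod_type]
  have h : ∀ j, ∑ b, weight ℓ lam ω x (j, b) ≤ 2 * Real.exp lam := by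
    intro j
    rw [Fintype.sum_bool, weight_up, weight_down]
    obtain ⟨b1, b2, -, -⟩ := av_bounds_one ℓ lam hlam hℓ1 j
    have h1 : openInd ω x j * av ℓ lam j ≤ 1 * Real.exp lam :=
      mul_le_mul (openInd_le_one ..) b1 (av_pos ..).le zero_le_one
    have h2 : openInd ω (x - basisVec j) j * (av ℓ lam j)⁻¹ ≤ 1 * Real.exp lam :=
      mul_le_mul (openInd_le_one ..) b2 (inv_pos.2 (av_pos ..)).le zero_le_one
    linarith
  refine (Finset.sum_le_sum fun j _ => h j).trans (le_of_eq ?_)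
  rw [Finset.sum_const, Finset.card_univ, Fintype.card_fin, nsmul_eq_mul]
  ring

lemma visits_near (hlam : 0 < lam) (hℓ1 : ∀ j, |ℓ j| ≤ 1) (N : ℕ) :
    visits ℓ lam ω N ≤ 2 * d * Real.exp lam * unbPsi ℓ lam ω N := by
  unfold visits unbPsi
  rw [← tsum_mul_left]
  refine Summable.tsum_le_tsum (fun x => ?_) ?_ ?_
  · by_cases h : total ℓ lam ω x = 0
    · rw [unb_of_total_eq_zero ℓ lam ω h]; simp
    · have h1 : occ ℓ lam ω N x = total ℓ lam ω x * psi ℓ lam ω N x := by
        unfold psi; field_simp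
      rw [h1]
      have h2 := total_le_one ℓ lam ω hlam hℓ1 x
      have h3 : 0 ≤ unb ℓ ω x * psi ℓ lam ω N x := mul_nonneg (unb_nonneg ..) (psi_nonneg ..)
      have := mul_le_mul_of_nonneg_right h2 h3
      linarith
  · exact summable_of_hasFiniteSupport (hasFiniteSupport_of_mul
      (hasFiniteSupport_occ ℓ lam ω N) fun x hx => by simp [hx])
  · exact summable_of_hasFiniteSupport (hasFiniteSupport_of_mul
      (hasFiniteSupport_psi ℓ lam ω N) fun x hx => by simp [hx])

/-- The expected height and the total flow, with the error on each edge. -/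
lemma height_near {δ ε : ℝ} (hδ : 0 < δ) (hδ1 : δ ≤ 1) (hlam : 0 < lam)
    (hℓ1 : ∀ j, |ℓ j| ≤ 1) (hε : ∀ j, |ℓ j - δ * sg ℓ j| ≤ ε) (N : ℕ) :
    ∫ x, height ℓ x ∂(lawAt ℓ lam ω N) ≤ (fullSpeed lam δ + edgeC lam δ * ε) *
      (∑ j, ∑' x, openInd ω x j * (av ℓ lam j * psi ℓ lam ω N x
        + (av ℓ lam j)⁻¹ * psi ℓ lam ω N (x + basisVec j))) +
      multiplier lam δ * ∑ j, cv ℓ lam j * ∑' x, openInd ω x j *
        (psi ℓ lam ω N x - psi ℓ lam ω N (x + basisVec j)) := by
  have h1 := integral_lawAt_eq ℓ lam ω N (height ℓ)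
  have hf : HasFiniteSupport (psi ℓ lam ω N) := hasFiniteSupport_psi ℓ lam ω N
  have hf' : ∀ j, HasFiniteSupport (fun x => psi ℓ lam ω N (x + basisVec j)) := fun j =>
    hasFiniteSupport_shift hf _
  have hS : ∀ j (a b : ℝ), Summable fun x =>
      openInd ω x j * (a * psi ℓ lam ω N x + b * psi ℓ lam ω N (x + basisVec j)) := by
    intro j a b
    apply summable_of_hasFiniteSupport
    refine Set.Finite.subset (Set.Finite.union hf (hf' j)) fun x hx => ?_
    by_contra hcon
    rw [Set.mem_union, not_or] at hcon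
    have e1 : psi ℓ lam ω N x = 0 := by simpa using hcon.1
    have e2 : psi ℓ lam ω N (x + basisVec j) = 0 := by simpa using hcon.2
    apply hx
    simp [e1, e2]
  rw [h1, height_zero, zero_add, Finset.mul_sum, Finset.mul_sum, ← Finset.sum_add_distrib]
  refine Finset.sum_le_sum fun j _ => ?_
  simp_rw [height_add]
  rw [← tsum_mul_left, ← tsum_mul_left, ← tsum_mul_left, ← Summable.tsum_add]
  · refine Summable.tsum_le_tsum (fun x => ?_) ?_ ?_
    · have := (abs_le.1 (edge_near ℓ lam hδ hδ1 hlam hℓ1 hε j (psi_nonneg ℓ lam ω N x)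
        (psi_nonneg ℓ lam ω N (x + basisVec j)))).2
      have h0 := openInd_nonneg ω x j
      have h2 := mul_le_mul_of_nonneg_left this h0
      linarith
    · have := (hS j (av ℓ lam j) (-(av ℓ lam j)⁻¹)).mul_right (ℓ j)
      refine this.congr fun x => ?_
      ring
    · refine ((hS j (av ℓ lam j) ((av ℓ lam j)⁻¹)).mul_left
        (fullSpeed lam δ + edgeC lam δ * ε)).add ?_
      refine ((hS j (1 : ℝ) (-1)).mul_left (multiplier lam δ * cv ℓ lam j)).congr fun x => ?_
      ring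
  · exact (hS j _ _).mul_left _
  · refine ((hS j (1 : ℝ) (-1)).mul_left (multiplier lam δ * cv ℓ lam j)).congr fun x => ?_
    ring

/-- The quenched bound, with constants that depend neither on the environment nor on the
direction. -/
theorem quenched_near (hd : 0 < d) {lam δ : ℝ} (hδ : 0 < δ) (hδ1 : δ ≤ 1) (hlam : 0 < lam) :
    ∃ κ > 0, ∃ C₁ ≥ 0, ∃ C : ℝ, ∀ (ℓ : Fin d → ℝ), (∀ j, |ℓ j| ≤ 1) → ∀ ε : ℝ, 0 ≤ ε →
      (∀ j, |ℓ j - δ * sg ℓ j| ≤ ε) → ∀ (ω : Set (Edge d)) (N : ℕ),
      ∫ x, height ℓ x ∂(lawAt ℓ lam ω N) + κ * visits ℓ lam ω N ≤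
        (fullSpeed lam δ + C₁ * ε) * N + multiplier lam δ * errBound ℓ lam N + C := by
  set B := Real.exp (lam * δ) with hB
  have hB0 : 0 < B := Real.exp_pos _
  have hB1 : 1 < B := Real.one_lt_exp_iff.2 (mul_pos hlam hδ)
  have hBinv : B⁻¹ < 1 := inv_lt_one_of_one_lt₀ hB1
  set A := Real.exp lam with hA
  have hA0 : 0 < A := Real.exp_pos _
  have hAB : B ≤ A := Real.exp_le_exp.2 (by nlinarith)
  set c := B - B⁻¹ with hc
  have hc0 : 0 < c := by rw [hc]; linarith
  have hd0 : (0 : ℝ) < d := by exact_mod_cast hd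
  have hd1 : (1 : ℝ) ≤ d := by exact_mod_cast hd
  set η := c / (8 * d * A) with hη
  have hη0 : 0 < η := by positivity
  have hη1 : η ≤ 1 / 2 := by
    rw [hη, div_le_iff₀ (by positivity)]
    have : c ≤ A := by rw [hc]; linarith [inv_pos.2 hB0]
    nlinarith
  set K := A * (η * A⁻¹)⁻¹ with hK
  have hK0 : 0 < K := by positivity
  have hμ : 0 < multiplier lam δ := multiplier_pos hδ hlam
  have hθ : 0 < fullSpeed lam δ := fullSpeed_pos hδ hlam
  have hL : 0 < edgeC lam δ := edgeC_pos hδ hlam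
  set R := 2 * lam * A * A with hR
  have hR0 : 0 < R := by positivity
  refine ⟨multiplier lam δ * (c / 2) / (K * (2 * d * A)), by positivity,
    edgeC lam δ + multiplier lam δ * (d * R) / K, by positivity,
    multiplier lam δ * (2 + c / 2) / K, fun ℓ hℓ1 ε hε0 hε ω N => ?_⟩
  have hcard : (0 : ℝ) < (box d (N + 1)).card := by
    rw [card_box]; positivity
  set e : ℝ := ((box d (N + 1)).card : ℝ)⁻¹ with he
  have he0 : 0 < e := inv_pos.2 hcard
  have h1 := unbPsi_near ℓ lam ω hδ hδ1 hlam hℓ1 hε0 hε N he0 hη0 hη1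
  rw [← hA, ← hB, ← hc] at h1
  have h2 : A * (4 * η * d * unbPsi ℓ lam ω N + 4 * η * e * d * (box d (N + 1)).card
        + (η * A⁻¹)⁻¹ * totalProd ℓ lam ω N e) =
      c / 2 * unbPsi ℓ lam ω N + c / 2 + K * totalProd ℓ lam ω N e := by
    have e1 : 4 * η * d * A = c / 2 := by
      rw [hη]; field_simp; ring
    have e2 : e * (box d (N + 1)).card = 1 := by
      rw [he]; field_simp
    calc A * (4 * η * d * unbPsi ℓ lam ω N + 4 * η * e * d * (box d (N + 1)).card
        + (η * A⁻¹)⁻¹ * totalProd ℓ lam ω N e)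
        = (4 * η * d * A) * unbPsi ℓ lam ω N
          + (4 * η * d * A) * (e * (box d (N + 1)).card)
          + A * (η * A⁻¹)⁻¹ * totalProd ℓ lam ω N e := by ring
      _ = _ := by rw [e1, e2, mul_one, ← hK]
  rw [h2] at h1
  have hRε : d * (2 * lam * A * ε) * (A * N) = d * R * ε * N := by rw [hR]; ring
  rw [hRε] at h1
  have h3 : (c / 2 * unbPsi ℓ lam ω N - (2 + c / 2) - d * R * ε * N) / K ≤
      totalProd ℓ lam ω N e := by
    rw [div_le_iff₀ hK0]
    linarith
  have h4 := visits_near ℓ lam ω hlam hℓ1 N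
  rw [← hA] at h4
  have h5 := entropy_sum' ℓ lam ω N he0
  have h6 : Real.log ((N / minWeight ℓ lam + e) / e)
        * (1 + e * (∑ j, |cv ℓ lam j|) * (box d (N + 1)).card) = errBound ℓ lam N := by
    unfold errBound
    have hcc : ((box d (N + 1)).card : ℝ) = (2 * N + 3) ^ d := by
      rw [card_box]
      push_cast
      congr 1
      ring
    have hcpos : (0 : ℝ) < (2 * N + 3) ^ d := by positivity
    rw [he, hcc]
    congr 2
    · field_simp
    · field_simp
  rw [h6] at h5
  have h7 := height_near ℓ lam ω hδ hδ1 hlam hℓ1 hε N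
  have h8 := mul_le_mul_of_nonneg_left (flow_le ℓ lam ω N)
    (show 0 ≤ fullSpeed lam δ + edgeC lam δ * ε by positivity)
  have h9 := mul_le_mul_of_nonneg_left h5 hμ.le
  have h10 := mul_le_mul_of_nonneg_left h3 hμ.le
  have h11 : multiplier lam δ * (c / 2) / (K * (2 * d * A)) * visits ℓ lam ω N ≤
      multiplier lam δ * (c / 2) / K * unbPsi ℓ lam ω N := by
    calc multiplier lam δ * (c / 2) / (K * (2 * d * A)) * visits ℓ lam ω N
        ≤ multiplier lam δ * (c / 2) / (K * (2 * d * A)) *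
          (2 * d * A * unbPsi ℓ lam ω N) := mul_le_mul_of_nonneg_left h4 (by positivity)
      _ = _ := by field_simp
  have h12 : multiplier lam δ * ((c / 2 * unbPsi ℓ lam ω N - (2 + c / 2) - d * R * ε * N) / K) =
      multiplier lam δ * (c / 2) / K * unbPsi ℓ lam ω N - multiplier lam δ * (2 + c / 2) / K
        - multiplier lam δ * (d * R) / K * ε * N := by
    ring
  rw [h12] at h10
  have h13 : (fullSpeed lam δ + (edgeC lam δ + multiplier lam δ * (d * R) / K) * ε) * N =
      (fullSpeed lam δ + edgeC lam δ * ε) * N + multiplier lam δ * (d * R) / K * ε * N := by ring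
  rw [h13]
  linarith

end Pool.Agent.P2ec0f3
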