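import Pool.Agent.Lib.P2ec0f3n.Loc

/-!
# The quenched bound with a loss only at the first visits of defective vertices
-/

open MeasureTheory ProbabilityTheory Filter Topology Function
open scoped unitInterval ENNReal

namespace Pool.Agent.P2ec0f3

variable {d : ℕ} (ℓ : Fin d → ℝ) (lam : ℝ) (ω : Set (Edge d))

/-- The full speed and the diagonal speed differ by at most the error on an edge. -/
lemma abs_fullVel_sub (hd : 0 < d) {δ ε : ℝ} (hδ : 0 < δ) (hδ1 : δ ≤ 1) (hlam : 0 < lam)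
    (hℓ1 : ∀ j, |ℓ j| ≤ 1) (hε : ∀ j, |ℓ j - δ * sg ℓ j| ≤ ε) :
    |fullVel ℓ lam - fullSpeed lam δ| ≤ edgeC lam δ * ε := by
  have hT := fullTotal_pos ℓ lam hd
  have h2 : fullVel ℓ lam ≤ fullSpeed lam δ + edgeC lam δ * ε := by
    unfold fullVel
    rw [div_le_iff₀ hT]
    unfold fullTotal
    rw [Finset.mul_sum]
    refine Finset.sum_le_sum fun j _ => ?_
    have := (abs_le.1 (edge_near ℓ lam hδ hδ1 hlam hℓ1 hε j zero_le_one zero_le_one)).2
    simp only [mul_one, sub_self, mul_zero, sub_zero] at this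
    linarith
  have h3 := fullVel_near ℓ lam hd hδ hδ1 hlam hℓ1 hε
  rw [abs_le]
  constructor <;> linarith

/-- The coefficient of the lower end of an edge. -/
noncomputable def cfA (δ : ℝ) (j : Fin d) : ℝ :=
  ℓ j * av ℓ lam j - fullVel ℓ lam * av ℓ lam j - multiplier lam δ * cv ℓ lam j

/-- The coefficient of the upper end of an edge. -/
noncomputable def cfB (δ : ℝ) (j : Fin d) : ℝ :=
  -(ℓ j * (av ℓ lam j)⁻¹) - fullVel ℓ lam * (av ℓ lam j)⁻¹ + multiplier lam δ * cv ℓ lam j

lemma cf_bound (hd : 0 < d) {δ ε : ℝ} (hδ : 0 < δ) (hδ1 : δ ≤ 1) (hlam : 0 < lam)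
    (hℓ1 : ∀ j, |ℓ j| ≤ 1) (hε : ∀ j, |ℓ j - δ * sg ℓ j| ≤ ε) (j : Fin d) :
    |cfA ℓ lam δ j| ≤ 2 * edgeC lam δ * Real.exp lam * ε ∧
    |cfB ℓ lam δ j| ≤ 2 * edgeC lam δ * Real.exp lam * ε := by
  have h0 := abs_le.1 (abs_fullVel_sub ℓ lam hd hδ hδ1 hlam hℓ1 hε)
  have hA := abs_le.1 (edge_near ℓ lam hδ hδ1 hlam hℓ1 hε j (zero_le_one' ℝ) le_rfl)
  have hB := abs_le.1 (edge_near ℓ lam hδ hδ1 hlam hℓ1 hε j le_rfl (zero_le_one' ℝ))
  simp only [mul_one, mul_zero, sub_zero, add_zero, zero_sub, zero_add] at hA hB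
  obtain ⟨b1, b2, -, -⟩ := av_bounds_one ℓ lam hlam hℓ1 j
  have ha := av_pos ℓ lam j
  have ha' := inv_pos.2 ha
  have hL := edgeC_pos hδ hlam
  have hε0 : 0 ≤ ε := (abs_nonneg _).trans (hε j)
  have hLε : 0 ≤ edgeC lam δ * ε := by positivity
  have m1 := mul_le_mul_of_nonneg_left b1 hLε
  have m2 := mul_le_mul_of_nonneg_left b2 hLε
  have n1 := mul_le_mul_of_nonneg_right h0.1 ha.le
  have n2 := mul_le_mul_of_nonneg_right h0.2 ha.le
  have n3 := mul_le_mul_of_nonneg_right h0.1 ha'.le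
  have n4 := mul_le_mul_of_nonneg_right h0.2 ha'.le
  unfold cfA cfB
  constructor
  · rw [abs_le]
    constructor <;> nlinarith
  · rw [abs_le]
    constructor <;> nlinarith

lemma cf_sum (hd : 0 < d) (δ : ℝ) : ∑ j, (cfA ℓ lam δ j + cfB ℓ lam δ j) = 0 := by
  have hT := fullTotal_pos ℓ lam hd
  have h1 : ∀ j, cfA ℓ lam δ j + cfB ℓ lam δ j =
      ℓ j * (av ℓ lam j - (av ℓ lam j)⁻¹) -
        fullVel ℓ lam * (av ℓ lam j + (av ℓ lam j)⁻¹) := by
    intro j
    unfold cfA cfB
    ring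
  rw [Finset.sum_congr rfl fun j _ => h1 j, Finset.sum_sub_distrib, ← Finset.mul_sum]
  change _ - fullVel ℓ lam * fullTotal ℓ lam = 0
  unfold fullVel
  rw [div_mul_cancel₀ _ hT.ne']
  ring

/-- The expected height, with a loss at the defective vertices. -/
lemma height_dfc (hd : 0 < d) {δ ε : ℝ} (hδ : 0 < δ) (hδ1 : δ ≤ 1) (hlam : 0 < lam)
    (hℓ1 : ∀ j, |ℓ j| ≤ 1) (hε0 : 0 ≤ ε) (hε : ∀ j, |ℓ j - δ * sg ℓ j| ≤ ε) (N : ℕ) :
    ∫ x, height ℓ x ∂(lawAt ℓ lam ω N) ≤ fullVel ℓ lam *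
      (∑ j, ∑' x, openInd ω x j * (av ℓ lam j * psi ℓ lam ω N x
        + (av ℓ lam j)⁻¹ * psi ℓ lam ω N (x + basisVec j))) +
      multiplier lam δ * ∑ j, cv ℓ lam j * ∑' x, openInd ω x j *
        (psi ℓ lam ω N x - psi ℓ lam ω N (x + basisVec j)) +
      d * (4 * edgeC lam δ * Real.exp lam) * ε * dfcPsi ℓ lam ω N := by
  have h1 := integral_lawAt_eq ℓ lam ω N (height ℓ)
  have hf : HasFiniteSupport (psi ℓ lam ω N) := hasFiniteSupport_psi ℓ lam ω N
  have hf' : ∀ j, HasFiniteSupport (fun x => psi ℓ lam ω N (x + basisVec j)) := fun j =>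
    hasFiniteSupport_shift hf _
  have hS : ∀ j (a b : ℝ), Summable fun x =>
      openInd ω x j * (a * psi ℓ lam ω N x + b * psi ℓ lam ω N (x + basisVec j)) := by
    intro j a b
    apply summable_of_hasFiniteSupport
    refine Set.Finite.subset (Set.Finite.union hf (hf' j)) fun x hx => ?_
    by_contra hcon
    rw [Set.mem_union, not_or] at hcon
    have e1 : psi ℓ lam ω N x = 0 := by simpa using hcon.1
    have e2 : psi ℓ lam ω N (x + basisVec j) = 0 := by simpa using hcon.2
    apply hx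
    simp [e1, e2]
  -- the exact identity
  have hid : ∫ x, height ℓ x ∂(lawAt ℓ lam ω N) = fullVel ℓ lam *
      (∑ j, ∑' x, openInd ω x j * (av ℓ lam j * psi ℓ lam ω N x
        + (av ℓ lam j)⁻¹ * psi ℓ lam ω N (x + basisVec j))) +
      multiplier lam δ * ∑ j, cv ℓ lam j * ∑' x, openInd ω x j *
        (psi ℓ lam ω N x - psi ℓ lam ω N (x + basisVec j)) +
      ∑ j, ∑' x, openInd ω x j * (cfA ℓ lam δ j * psi ℓ lam ω N x
        + cfB ℓ lam δ j * psi ℓ lam ω N (x + basisVec j)) := by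
    rw [h1, height_zero, zero_add, Finset.mul_sum, Finset.mul_sum, ← Finset.sum_add_distrib,
      ← Finset.sum_add_distrib]
    refine Finset.sum_congr rfl fun j _ => ?_
    simp_rw [height_add]
    have s2 : Summable fun x => multiplier lam δ * (cv ℓ lam j * (openInd ω x j *
        (psi ℓ lam ω N x - psi ℓ lam ω N (x + basisVec j)))) := by
      refine ((hS j (1 : ℝ) (-1)).mul_left (multiplier lam δ * cv ℓ lam j)).congr fun x => ?_
      ring
    rw [← tsum_mul_left, ← tsum_mul_left, ← tsum_mul_left,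
      ← Summable.tsum_add ((hS j _ _).mul_left _) s2,
      ← Summable.tsum_add (((hS j _ _).mul_left _).add s2) (hS j _ _)]
    refine tsum_congr fun x => ?_
    unfold cfA cfB
    ring
  -- the vertex form of the last sum
  have hvert : ∑ j, ∑' x, openInd ω x j * (cfA ℓ lam δ j * psi ℓ lam ω N x
        + cfB ℓ lam δ j * psi ℓ lam ω N (x + basisVec j)) =
      ∑' x, (∑ j, (openInd ω x j * cfA ℓ lam δ j +
        openInd ω (x - basisVec j) j * cfB ℓ lam δ j)) * psi ℓ lam ω N x := by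
    have hG : ∀ (G : Vtx d → ℝ), Summable fun x => G x * psi ℓ lam ω N x := fun G =>
      summable_of_hasFiniteSupport (hasFiniteSupport_of_mul hf fun x hx => by simp [hx])
    have h2 : ∀ j, ∑' x, openInd ω x j * (cfA ℓ lam δ j * psi ℓ lam ω N x
        + cfB ℓ lam δ j * psi ℓ lam ω N (x + basisVec j)) =
        ∑' x, (openInd ω x j * cfA ℓ lam δ j +
          openInd ω (x - basisVec j) j * cfB ℓ lam δ j) * psi ℓ lam ω N x := by
      intro j
      have e1 : ∑' x, openInd ω x j * (cfA ℓ lam δ j * psi ℓ lam ω N x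
        + cfB ℓ lam δ j * psi ℓ lam ω N (x + basisVec j)) =
        ∑' x, (openInd ω x j * cfA ℓ lam δ j) * psi ℓ lam ω N x +
        ∑' x, (openInd ω x j * cfB ℓ lam δ j) * psi ℓ lam ω N (x + basisVec j) := by
        rw [← Summable.tsum_add (hG _)]
        · exact tsum_congr fun x => by ring
        · exact summable_of_hasFiniteSupport (hasFiniteSupport_of_mul (hf' j)
            fun x hx => by simp [hx])
      have e2 := tsum_shift j (fun x => (openInd ω (x - basisVec j) j * cfB ℓ lam δ j) *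
        psi ℓ lam ω N x)
      simp only [add_sub_cancel_right] at e2
      rw [e1, e2, ← Summable.tsum_add (hG _) (hG _)]
      exact tsum_congr fun x => by ring
    rw [Finset.sum_congr rfl fun j _ => h2 j, ← Summable.tsum_finsetSum fun j _ => hG _]
    exact tsum_congr fun x => by rw [Finset.sum_mul]
  -- the bound at each vertex
  have hpt : ∀ x, (∑ j, (openInd ω x j * cfA ℓ lam δ j +
        openInd ω (x - basisVec j) j * cfB ℓ lam δ j)) ≤
      d * (4 * edgeC lam δ * Real.exp lam) * ε * dfc ω x := by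
    intro x
    by_cases hfull : ∀ j, (x, j) ∈ ω ∧ (x - basisVec j, j) ∈ ω
    · have h2 : ∀ j ∈ (Finset.univ : Finset (Fin d)), openInd ω x j * cfA ℓ lam δ j +
        openInd ω (x - basisVec j) j * cfB ℓ lam δ j = cfA ℓ lam δ j + cfB ℓ lam δ j := by
        intro j _
        have e1 : openInd ω x j = 1 := by unfold openInd; rw [if_pos (hfull j).1]
        have e2 : openInd ω (x - basisVec j) j = 1 := by
          unfold openInd; rw [if_pos (hfull j).2]
        rw [e1, e2, one_mul, one_mul]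
      rw [Finset.sum_congr rfl h2, cf_sum ℓ lam hd]
      have h0 : dfc ω x = 0 := by unfold dfc; rw [if_pos hfull]
      rw [h0, mul_zero]
    · have h0 : dfc ω x = 1 := by unfold dfc; rw [if_neg hfull]
      rw [h0, mul_one]
      have h2 : ∀ j ∈ (Finset.univ : Finset (Fin d)), openInd ω x j * cfA ℓ lam δ j +
        openInd ω (x - basisVec j) j * cfB ℓ lam δ j ≤
          4 * edgeC lam δ * Real.exp lam * ε := by
        intro j _
        obtain ⟨c1, c2⟩ := cf_bound ℓ lam hd hδ hδ1 hlam hℓ1 hε j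
        have hL := edgeC_pos hδ hlam
        have hM : 0 ≤ 2 * edgeC lam δ * Real.exp lam * ε := by positivity
        have e1 : openInd ω x j * cfA ℓ lam δ j ≤ 1 * (2 * edgeC lam δ * Real.exp lam * ε) :=
          (mul_le_mul_of_nonneg_left ((le_abs_self _).trans c1) (openInd_nonneg ω x j)).trans
            (mul_le_mul_of_nonneg_right (openInd_le_one ω x j) hM)
        have e2 : openInd ω (x - basisVec j) j * cfB ℓ lam δ j ≤
            1 * (2 * edgeC lam δ * Real.exp lam * ε) :=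
          (mul_le_mul_of_nonneg_left ((le_abs_self _).trans c2)
            (openInd_nonneg ω (x - basisVec j) j)).trans
            (mul_le_mul_of_nonneg_right (openInd_le_one ω (x - basisVec j) j) hM)
        linarith
      refine (Finset.sum_le_sum h2).trans (le_of_eq ?_)
      rw [Finset.sum_const, Finset.card_univ, Fintype.card_fin, nsmul_eq_mul]
      ring
  have hlast : ∑' x, (∑ j, (openInd ω x j * cfA ℓ lam δ j +
        openInd ω (x - basisVec j) j * cfB ℓ lam δ j)) * psi ℓ lam ω N x ≤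
      d * (4 * edgeC lam δ * Real.exp lam) * ε * dfcPsi ℓ lam ω N := by
    unfold dfcPsi
    rw [← tsum_mul_left]
    refine Summable.tsum_le_tsum (fun x => ?_) ?_ ?_
    · have := mul_le_mul_of_nonneg_right (hpt x) (psi_nonneg ℓ lam ω N x)
      linarith
    · exact summable_of_hasFiniteSupport (hasFiniteSupport_of_mul hf fun x hx => by simp [hx])
    · exact summable_of_hasFiniteSupport (hasFiniteSupport_of_mul hf fun x hx => by simp [hx])
  rw [hid, hvert]
  linarith

/-- The lower bound for the left hand side of `balance_gen`, with an error only at the unbalanced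
vertices. -/
lemma balance_low' {δ ε : ℝ} (hδ : 0 < δ) (hδ1 : δ ≤ 1) (hlam : 0 < lam) (hℓ1 : ∀ j, |ℓ j| ≤ 1)
    (hε0 : 0 ≤ ε) (hε : ∀ j, |ℓ j - δ * sg ℓ j| ≤ ε) (N : ℕ) :
    (Real.exp (lam * δ) - (Real.exp (lam * δ))⁻¹) * unbPsi ℓ lam ω N ≤
      ∑' x, (∑ j, cv ℓ lam j * (openInd ω (x - basisVec j) j - openInd ω x j)) *
        (psi ℓ lam ω N x * gf ℓ ω x) +
      d * (2 * lam * Real.exp lam * ε) * unbPsi ℓ lam ω N := by
  classical
  set c := Real.exp (lam * δ) - (Real.exp (lam * δ))⁻¹ with hc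
  have hA1 : 1 < Real.exp (lam * δ) := Real.one_lt_exp_iff.2 (mul_pos hlam hδ)
  have hAinv : (Real.exp (lam * δ))⁻¹ < 1 := inv_lt_one_of_one_lt₀ hA1
  have hc0 : 0 < c := by rw [hc]; linarith
  set R := 2 * lam * Real.exp lam * ε with hR
  have hR0 : 0 ≤ R := by positivity
  set ψ := psi ℓ lam ω N with hψ
  have hf : HasFiniteSupport ψ := hasFiniteSupport_psi ℓ lam ω N
  have hψ0 : ∀ x, 0 ≤ ψ x := fun x => psi_nonneg ..
  have hsum : ∀ G : Vtx d → ℝ, (∀ x, ψ x = 0 → G x = 0) → Summable G := fun G hG =>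
    summable_of_hasFiniteSupport (hasFiniteSupport_of_mul hf hG)
  have hpt : ∀ x, c * (unb ℓ ω x * ψ x) ≤
      (∑ j, cv ℓ lam j * (openInd ω (x - basisVec j) j - openInd ω x j)) * (ψ x * gf ℓ ω x)
        + d * R * (unb ℓ ω x * ψ x) := by
    intro x
    set g := gf ℓ ω x with hg
    have hg1 : |g| = unb ℓ ω x := by rw [hg, abs_gf]
    have h1 : (∑ j, cv ℓ lam j * (openInd ω (x - basisVec j) j - openInd ω x j)) * (ψ x * g) =
        c * |(beta ℓ ω x : ℝ)| * ψ x +
        (∑ j, (cv ℓ lam j - c * sg ℓ j) * (openInd ω (x - basisVec j) j - openInd ω x j)) *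
          (ψ x * g) := by
      have h2 : ∑ j, cv ℓ lam j * (openInd ω (x - basisVec j) j - openInd ω x j) =
          -c * (beta ℓ ω x : ℝ) +
          ∑ j, (cv ℓ lam j - c * sg ℓ j) * (openInd ω (x - basisVec j) j - openInd ω x j) := by
        unfold beta
        push_cast
        rw [Finset.mul_sum, ← Finset.sum_add_distrib]
        refine Finset.sum_congr rfl fun j _ => ?_
        rw [openZ_cast, openZ_cast]
        ring
      have h5 := gf_mul_beta ℓ ω x
      rw [← hg] at h5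
      have h6 : -c * (beta ℓ ω x : ℝ) * (ψ x * g) = c * |(beta ℓ ω x : ℝ)| * ψ x := by
        calc -c * (beta ℓ ω x : ℝ) * (ψ x * g) = -c * ψ x * (g * (beta ℓ ω x : ℝ)) := by ring
          _ = _ := by rw [h5]; ring
      rw [h2, add_mul, h6]
    have h3 : |(∑ j, (cv ℓ lam j - c * sg ℓ j) *
        (openInd ω (x - basisVec j) j - openInd ω x j))| ≤ d * R := by
      refine (Finset.abs_sum_le_sum_abs _ _).trans ?_
      have h4 : ∀ j ∈ (Finset.univ : Finset (Fin d)), |(cv ℓ lam j - c * sg ℓ j) *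
          (openInd ω (x - basisVec j) j - openInd ω x j)| ≤ R := by
        intro j _
        rw [abs_mul]
        have a1 := cv_near ℓ lam hδ hδ1 hlam hℓ1 hε j
        rw [← hc, ← hR] at a1
        have a2 : |openInd ω (x - basisVec j) j - openInd ω x j| ≤ 1 := by
          rw [abs_le]
          have b1 := openInd_nonneg ω x j
          have b2 := openInd_le_one ω x j
          have b3 := openInd_nonneg ω (x - basisVec j) j
          have b4 := openInd_le_one ω (x - basisVec j) j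
          constructor <;> linarith
        calc _ ≤ R * 1 := mul_le_mul a1 a2 (abs_nonneg _) hR0
          _ = R := mul_one R
      refine (Finset.sum_le_sum h4).trans (le_of_eq ?_)
      rw [Finset.sum_const, Finset.card_univ, Fintype.card_fin, nsmul_eq_mul]
    have h4 : -(d * R * (unb ℓ ω x * ψ x)) ≤ (∑ j, (cv ℓ lam j - c * sg ℓ j) *
        (openInd ω (x - basisVec j) j - openInd ω x j)) * (ψ x * g) := by
      have h5 : |(∑ j, (cv ℓ lam j - c * sg ℓ j) *
        (openInd ω (x - basisVec j) j - openInd ω x j)) * (ψ x * g)| ≤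
          d * R * (ψ x * unb ℓ ω x) := by
        rw [abs_mul, abs_mul, abs_of_nonneg (hψ0 x), hg1]
        exact mul_le_mul_of_nonneg_right h3 (mul_nonneg (hψ0 x) (unb_nonneg ..))
      have h6 := (abs_le.1 h5).1
      linarith
    have h5 : c * (unb ℓ ω x * ψ x) ≤ c * |(beta ℓ ω x : ℝ)| * ψ x := by
      have := mul_le_mul_of_nonneg_right (unb_le_abs ℓ ω x) (hψ0 x)
      have := mul_le_mul_of_nonneg_left this hc0.le
      linarith
    rw [h1]
    linarith
  have h1 : c * unbPsi ℓ lam ω N ≤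
      ∑' x, ((∑ j, cv ℓ lam j * (openInd ω (x - basisVec j) j - openInd ω x j)) *
        (ψ x * gf ℓ ω x) + d * R * (unb ℓ ω x * ψ x)) := by
    unfold unbPsi
    rw [← tsum_mul_left]
    refine Summable.tsum_le_tsum hpt ?_ ?_
    · exact hsum _ fun x hx => by rw [← hψ, hx]; ring
    · exact hsum _ fun x hx => by rw [hx]; ring
  rw [Summable.tsum_add (hsum _ fun x hx => by rw [hx]; ring)
    (hsum _ fun x hx => by rw [hx]; ring), tsum_mul_left] at h1
  exact h1

/-- The quenched bound with a loss only at the first visits of defective vertices, with constants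
that depend neither on the environment nor on the direction. -/
theorem quenched_unif (hd : 0 < d) {lam δ : ℝ} (hδ : 0 < δ) (hδ1 : δ ≤ 1) (hlam : 0 < lam) :
    ∃ ε₀ > 0, ∃ κ > 0, ∃ C₁ > 0, ∃ C : ℝ, ∀ (ℓ : Fin d → ℝ), (∀ j, |ℓ j| ≤ 1) →
      ∀ ε : ℝ, 0 ≤ ε → ε ≤ ε₀ → (∀ j, |ℓ j - δ * sg ℓ j| ≤ ε) →
      ∀ (ω : Set (Edge d)) (N : ℕ),
      ∫ x, height ℓ x ∂(lawAt ℓ lam ω N) + κ * visits ℓ lam ω N ≤
        fullVel ℓ lam * N + C₁ * ε * dfcHit ℓ lam ω N +
          multiplier lam δ * errBound ℓ lam N + C := by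
  set B := Real.exp (lam * δ) with hB
  have hB0 : 0 < B := Real.exp_pos _
  have hB1 : 1 < B := Real.one_lt_exp_iff.2 (mul_pos hlam hδ)
  have hBinv : B⁻¹ < 1 := inv_lt_one_of_one_lt₀ hB1
  set A := Real.exp lam with hA
  have hA0 : 0 < A := Real.exp_pos _
  have hAB : B ≤ A := Real.exp_le_exp.2 (by nlinarith)
  set c := B - B⁻¹ with hc
  have hc0 : 0 < c := by rw [hc]; linarith
  have hd0 : (0 : ℝ) < d := by exact_mod_cast hd
  have hd1 : (1 : ℝ) ≤ d := by exact_mod_cast hd
  set a₀ := Real.exp (lam * (δ / 2)) with ha₀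
  have ha₀1 : 1 < a₀ := Real.one_lt_exp_iff.2 (by positivity)
  have hb : 0 < a₀ ^ 2 - 1 := by nlinarith
  -- the parameter of the balance inequality
  set η := c / (16 * d * A) with hη
  have hη0 : 0 < η := by positivity
  have hη1 : η ≤ 1 / 2 := by
    rw [hη, div_le_iff₀ (by positivity)]
    have : c ≤ A := by rw [hc]; linarith [inv_pos.2 hB0]
    nlinarith
  -- the parameter of the local estimate
  set η' := min (1 / 2) ((a₀ ^ 2 - 1) / 4) with hη'
  have hη'0 : 0 < η' := lt_min (by norm_num) (by positivity)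
  have hη'1 : η' ≤ 1 / 2 := min_le_left _ _
  have hη'2 : η' ≤ (a₀ ^ 2 - 1) / 4 := min_le_right _ _
  set K := A * (η * A⁻¹)⁻¹ with hK
  have hK0 : 0 < K := by positivity
  have hμ : 0 < multiplier lam δ := multiplier_pos hδ hlam
  set μ := multiplier lam δ with hμdef
  have hL : 0 < edgeC lam δ := edgeC_pos hδ hlam
  -- the constants
  set Cl := 2 / (a₀ ^ 2 - 1) * (A + 1 + (2 * η' * A⁻¹)⁻¹) with hCl
  have hCl0 : 0 < Cl := by positivity
  set Ch := d * (4 * edgeC lam δ * A) with hCh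
  have hCh0 : 0 < Ch := by positivity
  set Cu := 2 / c * (2 + c / 4 + K) with hCu
  have hCu0 : 0 < Cu := by positivity
  set R := d * (2 * lam * A) with hR
  have hR0 : 0 < R := by positivity
  set ε₀ := min (δ / 2) (min (c / (4 * R)) (μ / (2 * (Ch * (Cu + Cl))))) with hε₀
  have hε₀0 : 0 < ε₀ := by
    refine lt_min (by positivity) (lt_min (by positivity) (by positivity))
  refine ⟨ε₀, hε₀0, μ / (2 * Cu * (2 * d * A)), by positivity, Ch * Cl, by positivity,
    μ, fun ℓ hℓ1 ε hε0 hεε₀ hε ω N => ?_⟩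
  have hεδ : ε ≤ δ / 2 := hεε₀.trans (min_le_left _ _)
  have hεR : ε ≤ c / (4 * R) := hεε₀.trans ((min_le_right _ _).trans (min_le_left _ _))
  have hεC : ε ≤ μ / (2 * (Ch * (Cu + Cl))) :=
    hεε₀.trans ((min_le_right _ _).trans (min_le_right _ _))
  have hRε : R * ε ≤ c / 4 := by
    have := mul_le_mul_of_nonneg_left hεR hR0.le
    refine this.trans (le_of_eq ?_)
    field_simp
  have hCε : Ch * ε * (Cu + Cl) ≤ μ / 2 := by
    have h1 : Ch * ε * (Cu + Cl) = (Ch * (Cu + Cl)) * ε := by ring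
    have h2 : 0 < Ch * (Cu + Cl) := by positivity
    rw [h1]
    refine (mul_le_mul_of_nonneg_left hεC h2.le).trans (le_of_eq ?_)
    field_simp
  have hℓδ : ∀ j, δ / 2 ≤ |ℓ j| := by
    intro j
    have h1 := hε j
    have h2 : |δ * (sg ℓ j : ℝ)| = δ := by
      rcases sg_cases ℓ (δ := δ) j with h | h <;> rw [h]
      · exact abs_of_pos hδ
      · rw [abs_neg]; exact abs_of_pos hδ
    have h3 := abs_sub_abs_le_abs_sub (δ * (sg ℓ j : ℝ)) (ℓ j)
    rw [h2, abs_sub_comm] at h3
    linarith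
  -- the box
  have hcard : (0 : ℝ) < (box d (N + 1)).card := by
    rw [card_box]; positivity
  set e : ℝ := ((box d (N + 1)).card : ℝ)⁻¹ with he
  have he0 : 0 < e := inv_pos.2 hcard
  have hecard : e * (box d (N + 1)).card = 1 := by
    rw [he]; field_simp
  have hecard' : e * (box d N).card ≤ 1 := by
    rw [← hecard]
    refine mul_le_mul_of_nonneg_left ?_ he0.le
    exact_mod_cast Finset.card_le_card (box_mono (Nat.le_succ N))
  -- the production is nonnegative
  have hP0 : 0 ≤ totalProd ℓ lam ω N e := by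
    unfold totalProd
    exact Finset.sum_nonneg fun j _ => Finset.sum_nonneg fun x _ =>
      eprod_nonneg ℓ lam ω N he0 (x, j)
  -- the unbalanced vertices
  have hU0 := unbPsi_nonneg ℓ lam ω N
  have h1 := balance_low' ℓ lam ω hδ hδ1 hlam hℓ1 hε0 hε N
  have h1' := balance_up ℓ lam ω hlam hℓ1 N he0 hη0 hη1
  rw [← hA] at h1 h1'
  rw [← hB, ← hc] at h1
  have h2 : A * (4 * η * d * unbPsi ℓ lam ω N + 4 * η * e * d * (box d (N + 1)).card
        + (η * A⁻¹)⁻¹ * totalProd ℓ lam ω N e) =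
      c / 4 * unbPsi ℓ lam ω N + c / 4 + K * totalProd ℓ lam ω N e := by
    have e1 : 4 * η * d * A = c / 4 := by
      rw [hη]; field_simp; ring
    calc A * (4 * η * d * unbPsi ℓ lam ω N + 4 * η * e * d * (box d (N + 1)).card
        + (η * A⁻¹)⁻¹ * totalProd ℓ lam ω N e)
        = (4 * η * d * A) * unbPsi ℓ lam ω N
          + (4 * η * d * A) * (e * (box d (N + 1)).card)
          + A * (η * A⁻¹)⁻¹ * totalProd ℓ lam ω N e := by ring
      _ = _ := by rw [e1, hecard, mul_one, ← hK]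
  rw [h2] at h1'
  have h3 : d * (2 * lam * A * ε) * unbPsi ℓ lam ω N ≤ c / 4 * unbPsi ℓ lam ω N := by
    have : d * (2 * lam * A * ε) = R * ε := by rw [hR]; ring
    rw [this]
    exact mul_le_mul_of_nonneg_right hRε hU0
  have hU : unbPsi ℓ lam ω N ≤ Cu * (1 + totalProd ℓ lam ω N e) := by
    have h4 : c / 2 * unbPsi ℓ lam ω N ≤ (2 + c / 4 + K) * (1 + totalProd ℓ lam ω N e) := by
      have : 0 ≤ (2 + c / 4) * totalProd ℓ lam ω N e := by positivity
      have e2 : (2 + c / 4 + K) * (1 + totalProd ℓ lam ω N e) =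
        2 + c / 4 + K * totalProd ℓ lam ω N e + K + (2 + c / 4) * totalProd ℓ lam ω N e := by ring
      rw [e2]
      linarith
    have h5 : unbPsi ℓ lam ω N = 2 / c * (c / 2 * unbPsi ℓ lam ω N) := by
      field_simp
    rw [h5, hCu, mul_assoc]
    exact mul_le_mul_of_nonneg_left h4 (by positivity)
  -- the defective vertices
  have h6 := dfcPsi_le ℓ lam ω hδ hlam hℓ1 hℓδ hη'0 hη'1 hη'2 N he0 hecard'
  rw [← hA, ← ha₀, ← hCl] at h6
  have hH0 := dfcHit_nonneg ℓ lam ω N
  have hD : dfcPsi ℓ lam ω N ≤ (Cu + Cl) * (1 + totalProd ℓ lam ω N e) +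
      Cl * dfcHit ℓ lam ω N := by
    have : (Cu + Cl) * (1 + totalProd ℓ lam ω N e) + Cl * dfcHit ℓ lam ω N =
      Cu * (1 + totalProd ℓ lam ω N e) +
        Cl * (dfcHit ℓ lam ω N + 1 + totalProd ℓ lam ω N e) := by ring
    rw [this]
    linarith
  -- the height
  have h7 := height_dfc ℓ lam ω hd hδ hδ1 hlam hℓ1 hε0 hε N
  rw [← hμdef, ← hA, ← hCh] at h7
  have hV0 : 0 ≤ fullVel ℓ lam := by
    unfold fullVel
    refine div_nonneg (Finset.sum_nonneg fun j _ => ?_) (fullTotal_pos ℓ lam hd).le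
    have h4 : av ℓ lam j - (av ℓ lam j)⁻¹ = 2 * Real.sinh (lam * ℓ j) := by
      unfold av
      rw [Real.sinh_eq, Real.exp_neg]
      ring
    rw [h4]
    rcases le_total 0 (ℓ j) with h | h
    · have h5 : 0 ≤ Real.sinh (lam * ℓ j) := Real.sinh_nonneg_iff.2 (mul_nonneg hlam.le h)
      positivity
    · have h5 : Real.sinh (lam * ℓ j) ≤ 0 :=
        Real.sinh_nonpos_iff.2 (mul_nonpos_of_nonneg_of_nonpos hlam.le h)
      nlinarith
  have h8 := mul_le_mul_of_nonneg_left (flow_le ℓ lam ω N) hV0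
  have h9 := entropy_sum' ℓ lam ω N he0
  have h10 : Real.log ((N / minWeight ℓ lam + e) / e)
        * (1 + e * (∑ j, |cv ℓ lam j|) * (box d (N + 1)).card) = errBound ℓ lam N := by
    unfold errBound
    have hcc : ((box d (N + 1)).card : ℝ) = (2 * N + 3) ^ d := by
      rw [card_box]
      push_cast
      congr 1
      ring
    have hcpos : (0 : ℝ) < (2 * N + 3) ^ d := by positivity
    rw [he, hcc]
    congr 2
    · field_simp
    · field_simp
  rw [h10] at h9
  have h11 := mul_le_mul_of_nonneg_left h9 hμ.le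
  have h12 : Ch * ε * dfcPsi ℓ lam ω N ≤ μ / 2 * (1 + totalProd ℓ lam ω N e) +
      Ch * Cl * ε * dfcHit ℓ lam ω N := by
    have e1 := mul_le_mul_of_nonneg_left hD (show 0 ≤ Ch * ε by positivity)
    have e2 := mul_le_mul_of_nonneg_right hCε (show 0 ≤ 1 + totalProd ℓ lam ω N e by positivity)
    have e3 : Ch * ε * ((Cu + Cl) * (1 + totalProd ℓ lam ω N e) + Cl * dfcHit ℓ lam ω N) =
      Ch * ε * (Cu + Cl) * (1 + totalProd ℓ lam ω N e) + Ch * Cl * ε * dfcHit ℓ lam ω N := by
      ring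
    rw [e3] at e1
    linarith
  -- the visits
  have h13 := visits_near ℓ lam ω hlam hℓ1 N
  rw [← hA] at h13
  have h14 : μ / (2 * Cu * (2 * d * A)) * visits ℓ lam ω N ≤
      μ / 2 * (1 + totalProd ℓ lam ω N e) := by
    calc μ / (2 * Cu * (2 * d * A)) * visits ℓ lam ω N
        ≤ μ / (2 * Cu * (2 * d * A)) * (2 * d * A * unbPsi ℓ lam ω N) :=
          mul_le_mul_of_nonneg_left h13 (by positivity)
      _ = μ / (2 * Cu) * unbPsi ℓ lam ω N := by field_simp
      _ ≤ μ / (2 * Cu) * (Cu * (1 + totalProd ℓ lam ω N e)) :=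
          mul_le_mul_of_nonneg_left hU (by positivity)
      _ = _ := by field_simp
  linarith

end Pool.Agent.P2ec0f3
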